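import Pool.Agent.K9h9.AA.Leaves

/-! Leaf B1: few integers have a very large prime factor. -/

set_option autoImplicit false

namespace Pool.Agent.K9h9.AA

open Finset

/-- few primes between a power and `x` -/
lemma b1_count (N : ℕ) (hN : 2 ≤ N) (η x : ℝ) (hη : η ≤ 1 / 2) (hx : 0 ≤ x) :
    ((((Icc 1 ⌊x⌋₊).filter fun p : ℕ => p.Prime ∧ (N : ℝ) ^ (1 - η) < p).card : ℕ) : ℝ) ≤
      2 * Real.log 4 * x / Real.log N := by
  have hN1 : (1 : ℝ) < N := by exact_mod_cast (by omega : 1 < N)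
  have hlog : 0 < Real.log N := Real.log_pos hN1
  rw [le_div_iff₀ hlog]
  have h1 : ∀ p ∈ (Icc 1 ⌊x⌋₊).filter fun p : ℕ => p.Prime ∧ (N : ℝ) ^ (1 - η) < p,
      Real.log N / 2 ≤ Real.log p := by
    intro p hp
    rw [mem_filter] at hp
    have h2 : (N : ℝ) ^ (1 - η) ≤ p := hp.2.2.le
    have h3 := Real.log_le_log (Real.rpow_pos_of_pos (by linarith) _) h2
    rw [Real.log_rpow (by linarith)] at h3
    nlinarith
  have h2 : ((((Icc 1 ⌊x⌋₊).filter fun p : ℕ => p.Prime ∧ (N : ℝ) ^ (1 - η) < p).card : ℕ) : ℝ) *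
      (Real.log N / 2) ≤ Chebyshev.theta x := by
    rw [← nsmul_eq_mul]
    refine (card_nsmul_le_sum _ _ _ h1).trans ?_
    unfold Chebyshev.theta
    apply sum_le_sum_of_subset_of_nonneg
    · intro p hp
      simp only [mem_filter, mem_Icc, mem_Ioc] at hp ⊢
      exact ⟨⟨by omega, hp.1.2⟩, hp.2.1⟩
    · intro p _ _
      exact Real.log_natCast_nonneg p
  have h3 := Chebyshev.theta_le_log4_mul_x hx
  linarith

theorem b1 : B1 := by
  classical
  have hlog4 : 0 < Real.log 4 := Real.log_pos (by norm_num)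
  refine ⟨4 * Real.log 4, by positivity, ?_⟩
  intro η hη0 hη1
  obtain ⟨N₀, hN₀⟩ := exists_nat_gt (Real.exp (1 / η))
  refine ⟨N₀ + 2, fun N hN => ?_⟩
  have hN2 : 2 ≤ N := by omega
  have hN1 : (1 : ℝ) < N := by exact_mod_cast (by omega : 1 < N)
  have hNpos : (0 : ℝ) < N := by linarith
  have hlog : 0 < Real.log N := Real.log_pos hN1
  have hlogN : 1 / η ≤ Real.log N := by
    rw [Real.le_log_iff_exp_le hNpos]
    have : ((N₀ : ℕ) : ℝ) ≤ N := by exact_mod_cast (by omega : N₀ ≤ N)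
    linarith
  have hinv : 1 / Real.log N ≤ η := by
    rw [div_le_iff₀ hlog]
    rw [div_le_iff₀ hη0] at hlogN
    linarith
  set M := ⌊(N : ℝ) ^ η⌋₊ with hM
  set Q : ℕ → Finset ℕ := fun m => (Icc 1 ⌊(N : ℝ) / m⌋₊).filter
    fun p : ℕ => p.Prime ∧ (N : ℝ) ^ (1 - η) < p with hQ
  have hsub : {n : ℕ | 1 ≤ n ∧ n ≤ N ∧ ∃ p : ℕ, p.Prime ∧ p ∣ n ∧ (N : ℝ) ^ (1 - η) < p} ⊆
      (((Icc 1 M).biUnion fun m => (Q m).image fun p => m * p : Finset ℕ) : Set ℕ) := by
    rintro n ⟨hn1, hnN, p, hp, ⟨m, rfl⟩, hpN⟩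
    have hm : 1 ≤ m := by
      rcases Nat.eq_zero_or_pos m with h | h
      · subst h; omega
      · exact h
    have hm0 : (0 : ℝ) < m := by exact_mod_cast hm
    have hpm : (p : ℝ) * m ≤ N := by exact_mod_cast hnN
    rw [mem_coe, mem_biUnion]
    refine ⟨m, ?_, ?_⟩
    · rw [mem_Icc]
      refine ⟨hm, Nat.le_floor ?_⟩
      have h1 : (N : ℝ) ^ (1 - η) * m ≤ (N : ℝ) ^ (1 - η) * (N : ℝ) ^ η := by
        rw [← Real.rpow_add hNpos]
        have : (1 - η + η : ℝ) = 1 := by ring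
        rw [this, Real.rpow_one]
        refine le_trans ?_ hpm
        exact mul_le_mul_of_nonneg_right hpN.le hm0.le
      exact le_of_mul_le_mul_left h1 (Real.rpow_pos_of_pos hNpos _)
    · rw [mem_image]
      refine ⟨p, ?_, mul_comm _ _⟩
      rw [hQ, mem_filter, mem_Icc]
      refine ⟨⟨hp.one_lt.le, Nat.le_floor ?_⟩, hp, hpN⟩
      rw [le_div_iff₀ hm0]
      exact hpm
  have h1 : (({n : ℕ | 1 ≤ n ∧ n ≤ N ∧ ∃ p : ℕ, p.Prime ∧ p ∣ n ∧
      (N : ℝ) ^ (1 - η) < p}.ncard : ℕ) : ℝ) ≤ ∑ m ∈ Icc 1 M, ((Q m).card : ℝ) := by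
    have h2 := Set.ncard_le_ncard hsub (Finset.finite_toSet _)
    rw [Set.ncard_coe_finset] at h2
    have h3 : ((Icc 1 M).biUnion fun m => (Q m).image fun p => m * p).card ≤
        ∑ m ∈ Icc 1 M, (Q m).card := by
      refine card_biUnion_le.trans (sum_le_sum fun m _ => card_image_le)
    have h4 := h2.trans h3
    have h5 : ((∑ m ∈ Icc 1 M, (Q m).card : ℕ) : ℝ) = ∑ m ∈ Icc 1 M, ((Q m).card : ℝ) := by
      push_cast; rfl
    rw [← h5]
    exact_mod_cast h4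
  have h2 : ∑ m ∈ Icc 1 M, ((Q m).card : ℝ) ≤
      ∑ m ∈ Icc 1 M, 2 * Real.log 4 * N / Real.log N * ((m : ℝ)⁻¹) := by
    apply sum_le_sum
    intro m _
    refine (b1_count N hN2 η ((N : ℝ) / m) hη1 (by positivity)).trans (le_of_eq ?_)
    ring
  have hMpos : 1 ≤ M := by
    apply Nat.le_floor
    rw [Nat.cast_one]
    exact Real.one_le_rpow hN1.le hη0.le
  have h3 : ∑ m ∈ Icc 1 M, ((m : ℝ)⁻¹) ≤ 1 + η * Real.log N := by
    have h4 := harmonic_le_one_add_log M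
    rw [harmonic_eq_sum_Icc] at h4
    push_cast at h4
    refine h4.trans ?_
    have h5 : Real.log M ≤ η * Real.log N := by
      rw [← Real.log_rpow hNpos]
      apply Real.log_le_log (by exact_mod_cast hMpos)
      exact Nat.floor_le (Real.rpow_nonneg hNpos.le _)
    linarith
  refine (h1.trans h2).trans ?_
  rw [← mul_sum]
  calc 2 * Real.log 4 * N / Real.log N * ∑ m ∈ Icc 1 M, ((m : ℝ)⁻¹)
      ≤ 2 * Real.log 4 * N / Real.log N * (1 + η * Real.log N) :=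
        mul_le_mul_of_nonneg_left h3 (by positivity)
    _ = 2 * Real.log 4 * N * (1 / Real.log N + η) := by field_simp
    _ ≤ 2 * Real.log 4 * N * (η + η) := by
        apply mul_le_mul_of_nonneg_left _ (by positivity)
        linarith
    _ = 4 * Real.log 4 * η * N := by ring

end Pool.Agent.K9h9.AA

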