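import Pool.Agent.K9h9.AA.Leaves
import Pool.Agent.Erdos456.Mertens

/-! Leaf B2: few integers have a large smooth part. -/

set_option autoImplicit false

namespace Pool.Agent.K9h9.AA

open Finset

lemma b2_factor (N p : ℕ) : ∑ n ∈ Icc 1 N, n.factorization p = N.factorial.factorization p := by
  induction N with
  | zero => simp
  | succ N ih =>
    rw [sum_Icc_succ_top (by omega), ih, Nat.factorial_succ,
      Nat.factorization_mul (by omega) (Nat.factorial_ne_zero N), Finsupp.add_apply, add_comm]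

lemma b2_fact (N p : ℕ) (hp : p.Prime) : ((N.factorial.factorization p : ℕ) : ℝ) ≤ 2 * N / p := by
  have h1 := Nat.sub_one_mul_factorization_factorial (n := N) hp
  have h2 : (p - 1) * N.factorial.factorization p ≤ N := by omega
  have hp2 := hp.two_le
  have hp0 : (0 : ℝ) < p := by exact_mod_cast hp.pos
  rw [le_div_iff₀ hp0]
  have h3 : N.factorial.factorization p * p ≤ 2 * N := by
    obtain ⟨s, rfl⟩ : ∃ s, p = s + 1 := ⟨p - 1, by omega⟩
    rw [Nat.add_sub_cancel] at h2
    nlinarith
  exact_mod_cast h3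

/-- logarithm of the smooth part -/
lemma b2_log (x : ℝ) (n : ℕ) (hn : n ≠ 0) : Real.log (smoothPart x n) =
    ∑ p ∈ (Icc 1 ⌊x⌋₊).filter Nat.Prime, (n.factorization p : ℝ) * Real.log p := by
  unfold smoothPart
  rw [Nat.cast_prod, Real.log_prod]
  · have h1 : ∀ p ∈ n.primeFactors.filter (fun p : ℕ => (p : ℝ) ≤ x),
        Real.log (((p ^ n.factorization p : ℕ)) : ℝ) = (n.factorization p : ℝ) * Real.log p := by
      intro p _
      rw [Nat.cast_pow, Real.log_pow]
    rw [sum_congr rfl h1]
    apply sum_subset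
    · intro p hp
      simp only [mem_filter, mem_Icc, Nat.mem_primeFactors] at hp ⊢
      exact ⟨⟨hp.1.1.one_lt.le, Nat.le_floor hp.2⟩, hp.1.1⟩
    · intro p hp hp'
      simp only [mem_filter, mem_Icc, Nat.mem_primeFactors] at hp hp'
      have hx : (p : ℝ) ≤ x := by
        rcases le_or_gt 0 x with h | h
        · exact (Nat.le_floor_iff h).1 hp.1.2
        · rw [Nat.floor_of_nonpos h.le] at hp
          omega
      have h2 : ¬ p ∣ n := by
        intro h
        exact hp' ⟨⟨hp.2, h, hn⟩, hx⟩
      rw [Nat.factorization_eq_zero_of_not_dvd h2]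
      simp
  · intro p hp
    have : p ≠ 0 := by
      rw [mem_filter, Nat.mem_primeFactors] at hp
      exact hp.1.1.ne_zero
    positivity

theorem b2 : B2 := by
  classical
  obtain ⟨C₁, hC₁⟩ := Pool.Agent.Erdos456.Mert.mertens_log
  refine ⟨4, by norm_num, ?_⟩
  intro δ η hδ0 hδ1 hη0
  obtain ⟨N₀, hN₀⟩ := exists_nat_gt (Real.exp (C₁ / δ))
  refine ⟨N₀ + 2, fun N hN => ?_⟩
  have hN1 : (1 : ℝ) < N := by exact_mod_cast (by omega : 1 < N)
  have hNpos : (0 : ℝ) < N := by linarith
  have hlog : 0 < Real.log N := Real.log_pos hN1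
  have hlogN : C₁ ≤ δ * Real.log N := by
    have h1 : C₁ / δ ≤ Real.log N := by
      rw [Real.le_log_iff_exp_le hNpos]
      have : ((N₀ : ℕ) : ℝ) ≤ N := by exact_mod_cast (by omega : N₀ ≤ N)
      linarith
    rw [div_le_iff₀ hδ0] at h1
    linarith
  set x : ℝ := (N : ℝ) ^ δ with hx
  have hx1 : 1 ≤ x := Real.one_le_rpow hN1.le hδ0.le
  set S := (Icc 1 N).filter fun n : ℕ => (N : ℝ) ^ η ≤ smoothPart x n with hS
  have hset : {n : ℕ | 1 ≤ n ∧ n ≤ N ∧ (N : ℝ) ^ η ≤ smoothPart x n} = (S : Set ℕ) := by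
    ext n
    simp only [hS, coe_filter, mem_Icc, Set.mem_ofPred_eq]
    tauto
  rw [hset, Set.ncard_coe_finset]
  have hlow : ∀ n ∈ S, η * Real.log N ≤ Real.log (smoothPart x n) := by
    intro n hn
    rw [hS, mem_filter] at hn
    rw [← Real.log_rpow hNpos]
    exact Real.log_le_log (Real.rpow_pos_of_pos hNpos _) hn.2
  have hnn : ∀ n : ℕ, 0 ≤ Real.log (smoothPart x n) := fun n => Real.log_natCast_nonneg _
  have h1 : (S.card : ℝ) * (η * Real.log N) ≤ ∑ n ∈ Icc 1 N, Real.log (smoothPart x n) := by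
    rw [← nsmul_eq_mul]
    refine (card_nsmul_le_sum _ _ _ hlow).trans ?_
    exact sum_le_sum_of_subset_of_nonneg (filter_subset _ _) fun n _ _ => hnn n
  have hX1 : 1 ≤ ⌊x⌋₊ := Nat.le_floor (by exact_mod_cast hx1)
  have h2 : ∑ n ∈ Icc 1 N, Real.log (smoothPart x n) ≤ 2 * N * (δ * Real.log N + C₁) := by
    calc ∑ n ∈ Icc 1 N, Real.log (smoothPart x n)
        = ∑ n ∈ Icc 1 N, ∑ p ∈ (Icc 1 ⌊x⌋₊).filter Nat.Prime,
            (n.factorization p : ℝ) * Real.log p := by
          apply sum_congr rfl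
          intro n hn
          rw [mem_Icc] at hn
          exact b2_log x n (by omega)
      _ = ∑ p ∈ (Icc 1 ⌊x⌋₊).filter Nat.Prime,
            ((N.factorial.factorization p : ℕ) : ℝ) * Real.log p := by
          rw [sum_comm]
          apply sum_congr rfl
          intro p _
          rw [← sum_mul, ← b2_factor]
          push_cast
          rfl
      _ ≤ ∑ p ∈ (Icc 1 ⌊x⌋₊).filter Nat.Prime, 2 * N / p * Real.log p := by
          apply sum_le_sum
          intro p hp
          rw [mem_filter] at hp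
          exact mul_le_mul_of_nonneg_right (b2_fact N p hp.2) (Real.log_natCast_nonneg p)
      _ = 2 * N * ∑ p ∈ (Icc 1 ⌊x⌋₊).filter Nat.Prime, Real.log p / p := by
          rw [mul_sum]
          apply sum_congr rfl
          intro p _
          ring
      _ ≤ 2 * N * (δ * Real.log N + C₁) := by
          apply mul_le_mul_of_nonneg_left _ (by positivity)
          have h3 := (abs_le.1 (hC₁ ⌊x⌋₊ hX1)).2
          have h4 : Real.log (⌊x⌋₊ : ℝ) ≤ δ * Real.log N := by
            rw [← Real.log_rpow hNpos]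
            apply Real.log_le_log (by exact_mod_cast hX1)
            exact Nat.floor_le (by linarith)
          linarith
  have h3 : (S.card : ℝ) * (η * Real.log N) ≤ (4 * (δ / η) * N) * (η * Real.log N) := by
    refine (h1.trans h2).trans ?_
    have h4 : 2 * (N : ℝ) * (δ * Real.log N + C₁) ≤ 2 * N * (δ * Real.log N + δ * Real.log N) := by
      apply mul_le_mul_of_nonneg_left _ (by positivity)
      linarith
    refine h4.trans (le_of_eq ?_)
    field_simp
    ring
  exact le_of_mul_le_mul_right h3 (by positivity)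

end Pool.Agent.K9h9.AA

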