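import Pool.Agent.K9h9.AA.Leaves
import Pool.Agent.Helper602.MK.J3

/-!
# Leaf B3: few integers have two large prime factors `1` modulo the same large prime

Written by helper74 for helper9.
-/

set_option autoImplicit false

namespace Pool.Agent.K9h9.AA

open Finset

/-- Brun-Titchmarsh, as in `Pool.Agent.Helper602.MK.J3Stmt`. -/
def b3_BT (C : ℝ) : Prop := ∀ a q N : ℕ, 1 ≤ q → 2 ≤ N →
  (((range N).filter (fun t => (a + t * q).Prime)).card : ℝ) ≤
    C * ((q : ℝ) / (Nat.totient q : ℝ)) * N / Real.log N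

/-- the primes `p ≤ N`, `p > y`, `p ≡ 1` modulo `l` -/
noncomputable def b3_P (y : ℝ) (N l : ℕ) : Finset ℕ :=
  (Ioc 0 N).filter fun p => p.Prime ∧ y < p ∧ l ∣ p - 1

/-- the sum of the reciprocals -/
noncomputable def b3_S (y : ℝ) (N l : ℕ) : ℝ := ∑ p ∈ b3_P y N l, 1 / (p : ℝ)

/-- the quotients `(p - 1) / l` -/
noncomputable def b3_Q (y : ℝ) (N l : ℕ) : Finset ℕ :=
  (Icc 1 N).filter fun t => (1 + t * l).Prime ∧ y < ((1 + t * l : ℕ) : ℝ)

theorem b3_S_nonneg (y : ℝ) (N l : ℕ) : 0 ≤ b3_S y N l :=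
  sum_nonneg fun p _ => by positivity

theorem b3_S_le (y : ℝ) (N l : ℕ) (hl : 1 ≤ l) :
    b3_S y N l ≤ (1 / l) * ∑ t ∈ b3_Q y N l, 1 / (t : ℝ) := by
  have hl0 : (0 : ℝ) < l := by exact_mod_cast hl
  have hsub : b3_P y N l ⊆ (b3_Q y N l).image fun t => 1 + t * l := by
    intro p hp
    obtain ⟨h1, h2, h3, h4⟩ := mem_filter.1 hp
    have hp2 := h2.two_le
    have hpN := (mem_Ioc.1 h1).2
    obtain ⟨t, ht⟩ := h4
    have hpt : 1 + t * l = p := by
      rw [Nat.mul_comm t l, ← ht]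
      omega
    have ht1 : 1 ≤ t := Nat.pos_of_ne_zero (by rintro rfl; omega)
    have htN : t ≤ N := by
      have : t ≤ t * l := Nat.le_mul_of_pos_right _ hl
      omega
    refine mem_image.2 ⟨t, mem_filter.2 ⟨mem_Icc.2 ⟨ht1, htN⟩, ?_, ?_⟩, hpt⟩
    · rw [hpt]; exact h2
    · rw [hpt]; exact h3
  have hinj : Set.InjOn (fun t => 1 + t * l) ((b3_Q y N l : Finset ℕ) : Set ℕ) := by
    intro a _ b _ hab
    have hab' : 1 + a * l = 1 + b * l := hab
    exact Nat.eq_of_mul_eq_mul_right hl (by omega)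
  unfold b3_S
  calc ∑ p ∈ b3_P y N l, 1 / (p : ℝ) ≤ ∑ p ∈ (b3_Q y N l).image (fun t => 1 + t * l), 1 / (p : ℝ) :=
        sum_le_sum_of_subset_of_nonneg hsub fun p _ _ => by positivity
    _ = ∑ t ∈ b3_Q y N l, 1 / ((1 + t * l : ℕ) : ℝ) := sum_image hinj
    _ ≤ ∑ t ∈ b3_Q y N l, (1 / (l : ℝ)) * (1 / (t : ℝ)) := by
        refine sum_le_sum fun t ht => ?_
        have ht1 : 1 ≤ t := (mem_Icc.1 (mem_filter.1 ht).1).1
        have ht0 : (0 : ℝ) < t := by exact_mod_cast ht1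
        rw [one_div_mul_one_div]
        refine one_div_le_one_div_of_le (by positivity) ?_
        push_cast
        linarith [mul_comm (l : ℝ) t]
    _ = _ := by rw [mul_sum]

theorem b3_large (y : ℝ) (N l : ℕ) (hl : 1 ≤ l) : b3_S y N l ≤ (1 + Real.log N) / l := by
  refine (b3_S_le y N l hl).trans ?_
  have hl0 : (0 : ℝ) < l := by exact_mod_cast hl
  have h1 : ∑ t ∈ b3_Q y N l, 1 / (t : ℝ) ≤ ∑ t ∈ Icc 1 N, 1 / (t : ℝ) :=
    sum_le_sum_of_subset_of_nonneg (filter_subset _ _) fun t _ _ => by positivity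
  have h2 := harmonic_le_one_add_log N
  have h3 : ((harmonic N : ℚ) : ℝ) = ∑ m ∈ Icc 1 N, (1 / (m : ℝ)) := by
    rw [harmonic_eq_sum_Icc]
    push_cast
    exact sum_congr rfl fun m _ => by rw [one_div]
  rw [← h3] at h1
  calc 1 / (l : ℝ) * ∑ t ∈ b3_Q y N l, 1 / (t : ℝ) ≤ 1 / (l : ℝ) * (1 + Real.log N) :=
        mul_le_mul_of_nonneg_left (h1.trans h2) (by positivity)
    _ = _ := by ring

/-- one dyadic block -/
theorem b3_block {C : ℝ} (hC : 1 ≤ C) (hBT : b3_BT C) (y : ℝ) (N l i : ℕ) (hl : l.Prime) :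
    ∑ t ∈ (b3_Q y N l).filter (fun t => Nat.log 2 t = i), 1 / (t : ℝ) ≤
      4 * C / (((i : ℝ) + 1) * Real.log 2) := by
  have hl2 := hl.two_le
  have hlog2 : 0 < Real.log 2 := Real.log_pos (by norm_num)
  have h2 : (2 : ℕ) ≤ 2 ^ (i + 1) := by
    calc 2 = 2 ^ 1 := by norm_num
      _ ≤ 2 ^ (i + 1) := Nat.pow_le_pow_right (by norm_num) (by omega)
  have h1 := hBT 1 l (2 ^ (i + 1)) (by omega) h2
  have hcard : ((b3_Q y N l).filter (fun t => Nat.log 2 t = i)).card ≤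
      ((range (2 ^ (i + 1))).filter (fun t => (1 + t * l).Prime)).card := by
    refine card_le_card fun t ht => ?_
    obtain ⟨ht1, ht2⟩ := mem_filter.1 ht
    obtain ⟨ht3, ht4, -⟩ := mem_filter.1 ht1
    refine mem_filter.2 ⟨mem_range.2 ?_, ht4⟩
    rw [← ht2]
    exact Nat.lt_pow_succ_log_self (by norm_num) t
  have hphi : ((l : ℝ) / (Nat.totient l : ℝ)) ≤ 2 := by
    rw [Nat.totient_prime hl]
    have h3 : (0 : ℝ) < ((l - 1 : ℕ) : ℝ) := by
      have : 0 < l - 1 := by omega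
      exact_mod_cast this
    rw [div_le_iff₀ h3]
    have : l ≤ 2 * (l - 1) := by omega
    exact_mod_cast this
  have hpow : (0 : ℝ) < 2 ^ i := by positivity
  have hterm : ∀ t ∈ (b3_Q y N l).filter (fun t => Nat.log 2 t = i), 1 / (t : ℝ) ≤ 1 / 2 ^ i := by
    intro t ht
    obtain ⟨ht1, ht2⟩ := mem_filter.1 ht
    have ht0 : t ≠ 0 := by
      have := (mem_Icc.1 (mem_filter.1 ht1).1).1
      omega
    refine one_div_le_one_div_of_le hpow ?_
    have := Nat.pow_log_le_self 2 ht0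
    rw [ht2] at this
    exact_mod_cast this
  have hlogi : Real.log ((2 ^ (i + 1) : ℕ) : ℝ) = ((i : ℝ) + 1) * Real.log 2 := by
    push_cast
    rw [Real.log_pow]
    push_cast
    ring
  rw [hlogi] at h1
  have hden : 0 < ((i : ℝ) + 1) * Real.log 2 := by positivity
  calc ∑ t ∈ (b3_Q y N l).filter (fun t => Nat.log 2 t = i), 1 / (t : ℝ)
      ≤ ∑ _t ∈ (b3_Q y N l).filter (fun t => Nat.log 2 t = i), (1 / 2 ^ i : ℝ) := sum_le_sum hterm
    _ = (((b3_Q y N l).filter (fun t => Nat.log 2 t = i)).card : ℝ) * (1 / 2 ^ i) := by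
        rw [sum_const, nsmul_eq_mul]
    _ ≤ (C * ((l : ℝ) / (Nat.totient l : ℝ)) * ((2 ^ (i + 1) : ℕ) : ℝ) /
          (((i : ℝ) + 1) * Real.log 2)) * (1 / 2 ^ i) := by
        refine mul_le_mul_of_nonneg_right ?_ (by positivity)
        exact le_trans (by exact_mod_cast hcard) h1
    _ ≤ (C * 2 * ((2 ^ (i + 1) : ℕ) : ℝ) / (((i : ℝ) + 1) * Real.log 2)) * (1 / 2 ^ i) := by
        refine mul_le_mul_of_nonneg_right ?_ (by positivity)
        refine div_le_div_of_nonneg_right ?_ hden.le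
        refine mul_le_mul_of_nonneg_right ?_ (by positivity)
        exact mul_le_mul_of_nonneg_left hphi (by linarith)
    _ = 4 * C / (((i : ℝ) + 1) * Real.log 2) := by
        push_cast
        rw [pow_succ]
        field_simp
        ring

theorem b3_small {C : ℝ} (hC : 1 ≤ C) (hBT : b3_BT C) {δ : ℝ} (hδ : 0 < δ) (N l : ℕ)
    (hl : l.Prime) (hlN : (l : ℝ) ≤ (N : ℝ) ^ (δ / 2)) (hN : 1 ≤ Real.log N)
    (hN2 : 2 ≤ (N : ℝ) ^ (δ / 4)) : b3_S ((N : ℝ) ^ δ) N l ≤ (48 * C / δ) / l := by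
  have hl0 : (0 : ℝ) < l := by exact_mod_cast hl.pos
  have hN0 : (0 : ℝ) < N := by
    by_contra hcon
    have h0 : (N : ℝ) = 0 := le_antisymm (not_lt.1 hcon) (Nat.cast_nonneg N)
    rw [h0, Real.log_zero] at hN
    linarith
  have hlog2 : 0 < Real.log 2 := Real.log_pos (by norm_num)
  have hlogN : 0 < Real.log N := by linarith
  refine (b3_S_le _ N l hl.one_le).trans ?_
  -- the smallest quotient
  have hQ : ∀ t ∈ b3_Q ((N : ℝ) ^ δ) N l, (δ / 4) * Real.log N ≤ Real.log t := by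
    intro t ht
    obtain ⟨ht1, -, ht3⟩ := mem_filter.1 ht
    have ht1' : (1 : ℝ) ≤ t := by exact_mod_cast (mem_Icc.1 ht1).1
    set u : ℝ := (N : ℝ) ^ (δ / 4) with hu
    have hu2 : u ^ 2 = (N : ℝ) ^ (δ / 2) := by
      rw [hu, ← Real.rpow_natCast, ← Real.rpow_mul hN0.le]
      congr 1
      push_cast
      ring
    have hu4 : u ^ 4 = (N : ℝ) ^ δ := by
      rw [hu, ← Real.rpow_natCast, ← Real.rpow_mul hN0.le]
      congr 1
      push_cast
      ring
    push_cast at ht3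
    rw [← hu4] at ht3
    rw [← hu2] at hlN
    have h1 : u ^ 4 < 1 + t * u ^ 2 := by
      refine lt_of_lt_of_le ht3 ?_
      have := mul_le_mul_of_nonneg_left hlN (by linarith : (0 : ℝ) ≤ t)
      linarith
    have h2 : u ≤ t := by
      by_contra hcon
      push Not at hcon
      have h3 : (t : ℝ) * u ^ 2 ≤ u * u ^ 2 := mul_le_mul_of_nonneg_right hcon.le (by positivity)
      have h4 : u * u ^ 3 ≥ 2 * u ^ 3 := mul_le_mul_of_nonneg_right hN2 (by positivity)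
      have h5 : (8 : ℝ) ≤ u ^ 3 := by
        calc (8 : ℝ) = 2 ^ 3 := by norm_num
          _ ≤ u ^ 3 := pow_le_pow_left₀ (by norm_num) hN2 3
      nlinarith
    have h3 := Real.log_le_log (by positivity) h2
    rwa [hu, Real.log_rpow hN0] at h3
  -- every block
  have hblock : ∀ i ∈ range (Nat.log 2 N + 1),
      ∑ t ∈ (b3_Q ((N : ℝ) ^ δ) N l).filter (fun t => Nat.log 2 t = i), 1 / (t : ℝ) ≤
        16 * C / (δ * Real.log N) := by
    intro i _
    rcases ((b3_Q ((N : ℝ) ^ δ) N l).filter (fun t => Nat.log 2 t = i)).eq_empty_or_nonempty with h | h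
    · rw [h, sum_empty]
      positivity
    · obtain ⟨t, ht⟩ := h
      obtain ⟨ht1, ht2⟩ := mem_filter.1 ht
      have h1 := hQ t ht1
      have ht0 : (0 : ℝ) < t := by
        have := (mem_Icc.1 (mem_filter.1 ht1).1).1
        exact_mod_cast this
      have h2 : Real.log t ≤ ((i : ℝ) + 1) * Real.log 2 := by
        have h3 : (t : ℝ) ≤ 2 ^ (i + 1) := by
          rw [← ht2]
          exact_mod_cast (Nat.lt_pow_succ_log_self (by norm_num : 1 < 2) t).le
        have h4 := Real.log_le_log ht0 h3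
        rw [Real.log_pow] at h4
        push_cast at h4
        exact h4
      refine (b3_block hC hBT _ N l i hl).trans ?_
      have h5 : δ / 4 * Real.log N ≤ ((i : ℝ) + 1) * Real.log 2 := h1.trans h2
      calc 4 * C / (((i : ℝ) + 1) * Real.log 2) ≤ 4 * C / (δ / 4 * Real.log N) :=
            div_le_div_of_nonneg_left (by linarith) (by positivity) h5
        _ = 16 * C / (δ * Real.log N) := by
            field_simp
            ring
  have hmaps : ∀ t ∈ b3_Q ((N : ℝ) ^ δ) N l, Nat.log 2 t ∈ range (Nat.log 2 N + 1) := by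
    intro t ht
    have := (mem_Icc.1 (mem_filter.1 ht).1).2
    rw [mem_range]
    exact Nat.lt_succ_of_le (Nat.log_mono_right this)
  have hlogn : ((Nat.log 2 N : ℕ) : ℝ) * Real.log 2 ≤ Real.log N := by
    have hN0' : N ≠ 0 := by
      rintro rfl
      simp at hN0
    have h1 : ((2 ^ Nat.log 2 N : ℕ) : ℝ) ≤ N := by exact_mod_cast Nat.pow_log_le_self 2 hN0'
    have h2 := Real.log_le_log (by positivity) h1
    push_cast at h2
    rwa [Real.log_pow] at h2
  have hsum : ∑ t ∈ b3_Q ((N : ℝ) ^ δ) N l, 1 / (t : ℝ) ≤ 48 * C / δ := by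
    rw [← sum_fiberwise_of_maps_to hmaps]
    calc ∑ i ∈ range (Nat.log 2 N + 1), ∑ t ∈ b3_Q ((N : ℝ) ^ δ) N l with Nat.log 2 t = i, 1 / (t : ℝ)
        ≤ ∑ _i ∈ range (Nat.log 2 N + 1), 16 * C / (δ * Real.log N) := sum_le_sum hblock
      _ = ((Nat.log 2 N : ℝ) + 1) * (16 * C / (δ * Real.log N)) := by
          rw [sum_const, card_range, nsmul_eq_mul]
          push_cast
          ring
      _ ≤ (3 * Real.log N) * (16 * C / (δ * Real.log N)) := by
          refine mul_le_mul_of_nonneg_right ?_ (by positivity)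
          have h1 : (0.5 : ℝ) ≤ Real.log 2 := by linarith [Real.log_two_gt_d9]
          have h2 : (0 : ℝ) ≤ (Nat.log 2 N : ℝ) := Nat.cast_nonneg _
          nlinarith
      _ = 48 * C / δ := by
          field_simp
          ring
  calc 1 / (l : ℝ) * ∑ t ∈ b3_Q ((N : ℝ) ^ δ) N l, 1 / (t : ℝ) ≤ 1 / (l : ℝ) * (48 * C / δ) :=
        mul_le_mul_of_nonneg_left hsum (by positivity)
    _ = _ := by ring

/-- the finite set of the candidates -/
noncomputable def b3_F (y : ℝ) (k N : ℕ) : Finset ℕ :=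
  ((Ioc k N).filter Nat.Prime).biUnion fun l => (b3_P y N l ×ˢ b3_P y N l).biUnion fun x =>
    (Ioc 0 (N / (x.1 * x.2))).image fun j => x.1 * x.2 * j

theorem b3_card (y : ℝ) (k N : ℕ) :
    ((b3_F y k N).card : ℝ) ≤ N * ∑ l ∈ (Ioc k N).filter Nat.Prime, (b3_S y N l) ^ 2 := by
  have h1 : ((b3_F y k N).card : ℝ) ≤ ∑ l ∈ (Ioc k N).filter Nat.Prime,
      ∑ x ∈ b3_P y N l ×ˢ b3_P y N l, ((N / (x.1 * x.2) : ℕ) : ℝ) := by
    have h2 : (b3_F y k N).card ≤ ∑ l ∈ (Ioc k N).filter Nat.Prime,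
        ∑ x ∈ b3_P y N l ×ˢ b3_P y N l, (N / (x.1 * x.2)) := by
      refine card_biUnion_le.trans (sum_le_sum fun l _ => card_biUnion_le.trans
        (sum_le_sum fun x _ => ?_))
      refine card_image_le.trans (le_of_eq ?_)
      rw [Nat.card_Ioc, Nat.sub_zero]
    exact_mod_cast h2
  refine h1.trans ?_
  rw [mul_sum]
  refine sum_le_sum fun l _ => ?_
  unfold b3_S
  rw [pow_two, sum_mul_sum, ← sum_product', mul_sum]
  refine sum_le_sum fun x _ => ?_
  have := @Nat.cast_div_le ℝ _ _ _ N (x.1 * x.2)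
  refine this.trans (le_of_eq ?_)
  push_cast
  rw [one_div_mul_one_div, mul_one_div]

theorem b3_mem {y : ℝ} {k N n l p p' : ℕ} (h1 : 1 ≤ n) (hn : n ≤ N) (hl : l.Prime) (hk : k < l)
    (hp : p.Prime) (hp' : p'.Prime) (hne : p ≠ p') (hy : y < p) (hy' : y < p') (hd : p ∣ n)
    (hd' : p' ∣ n) (hlp : l ∣ p - 1) (hlp' : l ∣ p' - 1) : n ∈ b3_F y k N := by
  have hpN : p ≤ N := (Nat.le_of_dvd (by omega) hd).trans hn
  have hpN' : p' ≤ N := (Nat.le_of_dvd (by omega) hd').trans hn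
  have hcop : Nat.Coprime p p' := (Nat.coprime_primes hp hp').2 hne
  obtain ⟨j, rfl⟩ := hcop.mul_dvd_of_dvd_of_dvd hd hd'
  have hj : 0 < j := Nat.pos_of_ne_zero (by rintro rfl; simp at h1)
  have hlN : l ≤ N := by
    have := Nat.le_of_dvd (by have := hp.two_le; omega) hlp
    omega
  refine mem_biUnion.2 ⟨l, mem_filter.2 ⟨mem_Ioc.2 ⟨hk, hlN⟩, hl⟩, mem_biUnion.2 ⟨(p, p'), ?_,
    mem_image.2 ⟨j, mem_Ioc.2 ⟨hj, ?_⟩, rfl⟩⟩⟩
  · exact mem_product.2 ⟨mem_filter.2 ⟨mem_Ioc.2 ⟨hp.pos, hpN⟩, hp, hy, hlp⟩,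
      mem_filter.2 ⟨mem_Ioc.2 ⟨hp'.pos, hpN'⟩, hp', hy', hlp'⟩⟩
  · rw [Nat.le_div_iff_mul_le (Nat.mul_pos hp.pos hp'.pos), Nat.mul_comm]
    exact hn

/-- Leaf B3, from the theorem of Brun and Titchmarsh. -/
theorem b3_of {C : ℝ} (hC : 1 ≤ C) (hBT : b3_BT C) : B3 := by
  intro δ ε hδ hε
  set K : ℝ := (48 * C / δ) ^ 2 with hK
  have hK0 : 0 ≤ K := by positivity
  obtain ⟨k, hk⟩ := exists_nat_gt (2 * K / ε)
  set k₁ := k + 1 with hk₁
  refine ⟨k₁ + 1, ?_⟩
  have ht4 : Filter.Tendsto (fun N : ℕ => (N : ℝ) ^ (δ / 4)) Filter.atTop Filter.atTop :=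
    (tendsto_rpow_atTop (by positivity)).comp tendsto_natCast_atTop_atTop
  set A : ℝ := 4 * (1 + 8 / δ) ^ 2 / ε with hA
  obtain ⟨N₁, hN₁⟩ := Filter.eventually_atTop.1 (ht4.eventually_ge_atTop (max 2 A))
  refine ⟨max N₁ 3, fun N hN => ?_⟩
  have hN3 : 3 ≤ N := le_trans (le_max_right _ _) hN
  have hN0 : (0 : ℝ) < N := by
    have : 0 < N := by omega
    exact_mod_cast this
  have hu := hN₁ N (le_trans (le_max_left _ _) hN)
  have hu2 : 2 ≤ (N : ℝ) ^ (δ / 4) := (le_max_left _ _).trans hu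
  have huA : A ≤ (N : ℝ) ^ (δ / 4) := (le_max_right _ _).trans hu
  have hlogN : 1 ≤ Real.log N := by
    rw [Real.le_log_iff_exp_le hN0]
    have h1 : Real.exp 1 < 3 := Real.exp_one_lt_three
    have h2 : (3 : ℝ) ≤ N := by exact_mod_cast hN3
    linarith
  set u : ℝ := (N : ℝ) ^ (δ / 4) with hudef
  have hu2' : u ^ 2 = (N : ℝ) ^ (δ / 2) := by
    rw [hudef, ← Real.rpow_natCast, ← Real.rpow_mul hN0.le]
    congr 1
    push_cast
    ring
  set m : ℕ := ⌊(N : ℝ) ^ (δ / 2)⌋₊ with hm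
  have hmu : u ^ 2 / 2 ≤ m := by
    have h1 := Nat.lt_floor_add_one ((N : ℝ) ^ (δ / 2))
    rw [← hm, ← hu2'] at h1
    nlinarith
  have hm0 : m ≠ 0 := by
    rintro h0
    rw [h0] at hmu
    nlinarith
  -- the sum of the squares
  have hS : ∑ l ∈ (Ioc k₁ N).filter Nat.Prime, (b3_S ((N : ℝ) ^ δ) N l) ^ 2 ≤ ε := by
    have h1 : ∀ l ∈ (Ioc k₁ N).filter Nat.Prime, (b3_S ((N : ℝ) ^ δ) N l) ^ 2 ≤
        K * ((l : ℝ) ^ 2)⁻¹ + if l ∈ Ioc m N then (1 + Real.log N) ^ 2 * ((l : ℝ) ^ 2)⁻¹ else 0 := by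
      intro l hl
      obtain ⟨hl1, hl2⟩ := mem_filter.1 hl
      have hl0 : (0 : ℝ) < l := by exact_mod_cast hl2.pos
      rcases le_or_gt (l : ℝ) ((N : ℝ) ^ (δ / 2)) with h | h
      · have h2 := b3_small hC hBT hδ N l hl2 h hlogN hu2
        have h3 : (b3_S ((N : ℝ) ^ δ) N l) ^ 2 ≤ ((48 * C / δ) / l) ^ 2 :=
          pow_le_pow_left₀ (b3_S_nonneg _ _ _) h2 2
        have h4 : ((48 * C / δ) / l) ^ 2 = K * ((l : ℝ) ^ 2)⁻¹ := by
          rw [hK, div_pow (48 * C / δ) (l : ℝ), div_eq_mul_inv ((48 * C / δ) ^ 2)]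
        rw [h4] at h3
        refine h3.trans (le_add_of_nonneg_right ?_)
        split_ifs
        · positivity
        · exact le_rfl
      · have hlm : m < l := (Nat.floor_lt (by positivity)).2 h
        rw [if_pos (mem_Ioc.2 ⟨hlm, (mem_Ioc.1 hl1).2⟩)]
        have h2 := b3_large ((N : ℝ) ^ δ) N l hl2.one_le
        have h3 : (b3_S ((N : ℝ) ^ δ) N l) ^ 2 ≤ ((1 + Real.log N) / l) ^ 2 :=
          pow_le_pow_left₀ (b3_S_nonneg _ _ _) h2 2
        have h4 : ((1 + Real.log N) / l) ^ 2 = (1 + Real.log N) ^ 2 * ((l : ℝ) ^ 2)⁻¹ := by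
          rw [div_pow, div_eq_mul_inv]
        rw [h4] at h3
        exact h3.trans (le_add_of_nonneg_left (by positivity))
    refine (sum_le_sum h1).trans ?_
    rw [sum_add_distrib]
    have h2 : ∑ l ∈ (Ioc k₁ N).filter Nat.Prime, K * ((l : ℝ) ^ 2)⁻¹ ≤ ε / 2 := by
      rcases le_or_gt k₁ N with hkN | hkN
      · calc ∑ l ∈ (Ioc k₁ N).filter Nat.Prime, K * ((l : ℝ) ^ 2)⁻¹
            ≤ ∑ l ∈ Ioc k₁ N, K * ((l : ℝ) ^ 2)⁻¹ :=
              sum_le_sum_of_subset_of_nonneg (filter_subset _ _) fun l _ _ => by positivity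
          _ = K * ∑ l ∈ Ioc k₁ N, ((l : ℝ) ^ 2)⁻¹ := by rw [mul_sum]
          _ ≤ K * (k₁ : ℝ)⁻¹ := by
              refine mul_le_mul_of_nonneg_left ?_ hK0
              have h3 := sum_Ioc_inv_sq_le_sub (α := ℝ) (by omega : k₁ ≠ 0) hkN
              have h4 : (0 : ℝ) ≤ (N : ℝ)⁻¹ := by positivity
              linarith
          _ ≤ ε / 2 := by
              have h3 : (0 : ℝ) < k₁ := by
                rw [hk₁]; positivity
              rw [← div_eq_mul_inv, div_le_iff₀ h3]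
              rw [div_lt_iff₀ hε] at hk
              have h4 : (k : ℝ) ≤ k₁ := by rw [hk₁]; push_cast; linarith
              nlinarith
      · rw [Ioc_eq_empty (by omega), filter_empty, sum_empty]
        positivity
    have h3 : ∑ l ∈ (Ioc k₁ N).filter Nat.Prime,
        (if l ∈ Ioc m N then (1 + Real.log N) ^ 2 * ((l : ℝ) ^ 2)⁻¹ else 0) ≤ ε / 2 := by
      have hlogu : 1 + Real.log N ≤ (1 + 8 / δ) * (N : ℝ) ^ (δ / 8) := by
        have h4 := Real.log_le_rpow_div hN0.le (by positivity : 0 < δ / 8)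
        have h5 : (1 : ℝ) ≤ (N : ℝ) ^ (δ / 8) :=
          Real.one_le_rpow (by exact_mod_cast (by omega : 1 ≤ N)) (by positivity)
        have h6 : (N : ℝ) ^ (δ / 8) / (δ / 8) = 8 / δ * (N : ℝ) ^ (δ / 8) := by
          field_simp
        rw [h6] at h4
        linarith
      have hlogu2 : (1 + Real.log N) ^ 2 ≤ (1 + 8 / δ) ^ 2 * u := by
        have h4 : ((N : ℝ) ^ (δ / 8)) ^ 2 = u := by
          rw [hudef, ← Real.rpow_natCast, ← Real.rpow_mul hN0.le]
          congr 1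
          push_cast
          ring
        calc (1 + Real.log N) ^ 2 ≤ ((1 + 8 / δ) * (N : ℝ) ^ (δ / 8)) ^ 2 :=
              pow_le_pow_left₀ (by linarith) hlogu 2
          _ = (1 + 8 / δ) ^ 2 * u := by rw [mul_pow, h4]
      rcases le_or_gt m N with hmN | hmN
      · calc ∑ l ∈ (Ioc k₁ N).filter Nat.Prime,
            (if l ∈ Ioc m N then (1 + Real.log N) ^ 2 * ((l : ℝ) ^ 2)⁻¹ else 0)
            = ∑ l ∈ ((Ioc k₁ N).filter Nat.Prime).filter (fun l => l ∈ Ioc m N),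
              (1 + Real.log N) ^ 2 * ((l : ℝ) ^ 2)⁻¹ := (Finset.sum_filter _ _).symm
          _ ≤ ∑ l ∈ Ioc m N, (1 + Real.log N) ^ 2 * ((l : ℝ) ^ 2)⁻¹ := by
              refine sum_le_sum_of_subset_of_nonneg (fun l hl => (mem_filter.1 hl).2)
                fun l _ _ => by positivity
          _ = (1 + Real.log N) ^ 2 * ∑ l ∈ Ioc m N, ((l : ℝ) ^ 2)⁻¹ := by rw [mul_sum]
          _ ≤ (1 + Real.log N) ^ 2 * (m : ℝ)⁻¹ := by
              refine mul_le_mul_of_nonneg_left ?_ (by positivity)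
              have h4 := sum_Ioc_inv_sq_le_sub (α := ℝ) hm0 hmN
              have h5 : (0 : ℝ) ≤ (N : ℝ)⁻¹ := by positivity
              linarith
          _ ≤ ((1 + 8 / δ) ^ 2 * u) * (u ^ 2 / 2)⁻¹ := by
              have h4 : (m : ℝ)⁻¹ ≤ (u ^ 2 / 2)⁻¹ := inv_anti₀ (by positivity) hmu
              exact mul_le_mul hlogu2 h4 (by positivity) (by positivity)
          _ = 2 * (1 + 8 / δ) ^ 2 / u := by
              have : u ≠ 0 := by positivity
              field_simp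
          _ ≤ ε / 2 := by
              have hu0 : 0 < u := by linarith
              rw [div_le_iff₀ hu0]
              rw [hA, div_le_iff₀ hε] at huA
              linarith
      · have h4 : ∀ l ∈ (Ioc k₁ N).filter Nat.Prime,
            (if l ∈ Ioc m N then (1 + Real.log N) ^ 2 * ((l : ℝ) ^ 2)⁻¹ else 0) = 0 := by
          intro l _
          rw [if_neg]
          rw [mem_Ioc]
          omega
        rw [sum_congr rfl h4, sum_const_zero]
        positivity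
    linarith
  have hsub : {n : ℕ | 1 ≤ n ∧ n ≤ N ∧ ∃ l p p' : ℕ, l.Prime ∧ k₁ + 1 ≤ l ∧ p.Prime ∧ p'.Prime ∧
      p ≠ p' ∧ (N : ℝ) ^ δ < p ∧ (N : ℝ) ^ δ < p' ∧ p ∣ n ∧ p' ∣ n ∧ l ∣ p - 1 ∧ l ∣ p' - 1} ⊆
      ((b3_F ((N : ℝ) ^ δ) k₁ N : Finset ℕ) : Set ℕ) := by
    rintro n ⟨h1, hn, l, p, p', hl, hkl, hp, hp', hne, hy, hy', hd, hd', hlp, hlp'⟩
    exact Finset.mem_coe.2 (b3_mem h1 hn hl hkl hp hp' hne hy hy' hd hd' hlp hlp')
  have hcard := (Set.ncard_le_ncard hsub (Finset.finite_toSet _)).trans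
    (le_of_eq (Set.ncard_coe_finset _))
  calc _ ≤ _ := Nat.cast_le.2 hcard
    _ ≤ _ := b3_card _ _ _
    _ ≤ N * ε := mul_le_mul_of_nonneg_left hS hN0.le
    _ = ε * N := mul_comm _ _

/-- Leaf B3. -/
theorem b3 : B3 := by
  obtain ⟨C, hC, h⟩ := Pool.Agent.Helper602.MK.N_J3.J3
  exact b3_of hC h

end Pool.Agent.K9h9.AA
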