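import Pool.Agent.K9h9.AA.Leaves

/-!
# Leaf B4: few integers are divisible by the square of a large prime

Written by helper74 for helper9.
-/

set_option autoImplicit false

namespace Pool.Agent.K9h9.AA

open Finset

theorem b4_mem {k N n p : ℕ} (h1 : 1 ≤ n) (hn : n ≤ N) (hp : p.Prime) (hk : k < p)
    (hd : p ^ 2 ∣ n) : n ∈ (Ioc k N).biUnion fun m =>
      ((Ioc 0 (N / m ^ 2)).image fun j => m ^ 2 * j) := by
  obtain ⟨j, rfl⟩ := hd
  have hp0 : 0 < p ^ 2 := pow_pos hp.pos 2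
  have hj : 0 < j := Nat.pos_of_ne_zero (by rintro rfl; simp at h1)
  rw [mem_biUnion]
  refine ⟨p, mem_Ioc.2 ⟨hk, ?_⟩, mem_image.2 ⟨j, mem_Ioc.2 ⟨hj, ?_⟩, rfl⟩⟩
  · have h2 : p ≤ p ^ 2 := Nat.le_self_pow (by norm_num) p
    have h3 : p ^ 2 ≤ p ^ 2 * j := Nat.le_mul_of_pos_right _ hj
    omega
  · rw [Nat.le_div_iff_mul_le hp0, Nat.mul_comm]
    exact hn

theorem b4_card (k N : ℕ) (hk : k ≠ 0) (hkN : k ≤ N) :
    ((((Ioc k N).biUnion fun m =>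
      ((Ioc 0 (N / m ^ 2)).image fun j => m ^ 2 * j)).card : ℕ) : ℝ) ≤ N * (1 / k) := by
  have h1 : (((Ioc k N).biUnion fun m =>
      ((Ioc 0 (N / m ^ 2)).image fun j => m ^ 2 * j)).card : ℝ) ≤
      ∑ m ∈ Ioc k N, ((N / m ^ 2 : ℕ) : ℝ) := by
    have h2 : ((Ioc k N).biUnion fun m =>
      ((Ioc 0 (N / m ^ 2)).image fun j => m ^ 2 * j)).card ≤ ∑ m ∈ Ioc k N, (N / m ^ 2) := by
      refine card_biUnion_le.trans (sum_le_sum fun m _ => ?_)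
      refine card_image_le.trans (le_of_eq ?_)
      rw [Nat.card_Ioc, Nat.sub_zero]
    exact_mod_cast h2
  refine h1.trans ?_
  calc ∑ m ∈ Ioc k N, ((N / m ^ 2 : ℕ) : ℝ) ≤ ∑ m ∈ Ioc k N, (N : ℝ) * ((m : ℝ) ^ 2)⁻¹ := by
        refine sum_le_sum fun m _ => ?_
        have := @Nat.cast_div_le ℝ _ _ _ N (m ^ 2)
        push_cast at this
        rwa [div_eq_mul_inv] at this
    _ = (N : ℝ) * ∑ m ∈ Ioc k N, ((m : ℝ) ^ 2)⁻¹ := by rw [mul_sum]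
    _ ≤ N * (1 / k) := by
        refine mul_le_mul_of_nonneg_left ?_ (Nat.cast_nonneg N)
        have h2 := sum_Ioc_inv_sq_le_sub (α := ℝ) hk hkN
        have h3 : (0 : ℝ) ≤ (N : ℝ)⁻¹ := by positivity
        rw [one_div]
        linarith

/-- Leaf B4. -/
theorem b4 : B4 := by
  intro δ ε hδ hε
  obtain ⟨k, hk⟩ := exists_nat_gt (1 / ε)
  have hk0 : (0 : ℝ) < k := lt_trans (by positivity) hk
  have hk0' : k ≠ 0 := by
    rintro rfl
    simp at hk0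
  have ht : Filter.Tendsto (fun N : ℕ => (N : ℝ) ^ δ) Filter.atTop Filter.atTop :=
    (tendsto_rpow_atTop hδ).comp tendsto_natCast_atTop_atTop
  obtain ⟨N₁, hN₁⟩ := Filter.eventually_atTop.1 (ht.eventually_ge_atTop (k : ℝ))
  refine ⟨max N₁ k, fun N hN => ?_⟩
  have hNk : k ≤ N := le_trans (le_max_right _ _) hN
  have hNd : (k : ℝ) ≤ (N : ℝ) ^ δ := hN₁ N (le_trans (le_max_left _ _) hN)
  have hsub : {n : ℕ | 1 ≤ n ∧ n ≤ N ∧ ∃ p : ℕ, p.Prime ∧ (N : ℝ) ^ δ < p ∧ p ^ 2 ∣ n} ⊆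
      (((Ioc k N).biUnion fun m =>
      ((Ioc 0 (N / m ^ 2)).image fun j => m ^ 2 * j) : Finset ℕ) : Set ℕ) := by
    rintro n ⟨h1, hn, p, hp, hpN, hd⟩
    refine Finset.mem_coe.2 (b4_mem h1 hn hp ?_ hd)
    exact_mod_cast hNd.trans_lt hpN
  have hcard := (Set.ncard_le_ncard hsub (Finset.finite_toSet _)).trans
    (le_of_eq (Set.ncard_coe_finset _))
  have h2 : (N : ℝ) * (1 / k) ≤ ε * N := by
    have h3 : 1 / (k : ℝ) ≤ ε := by
      rw [div_lt_iff₀ hε] at hk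
      rw [div_le_iff₀ hk0]
      linarith
    rw [mul_comm]
    exact mul_le_mul_of_nonneg_right h3 (Nat.cast_nonneg N)
  calc _ ≤ _ := Nat.cast_le.2 hcard
    _ ≤ _ := b4_card k N hk0' hNk
    _ ≤ _ := h2

end Pool.Agent.K9h9.AA
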