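import Mathlib

/-!
# Statements about the density of integers with large parts composed of primes `1` modulo `l`
-/

set_option autoImplicit false

namespace Pool.Agent.K9h9.AA

open Finset

/-- few integers have a very large prime factor -/
def B1 : Prop := ∃ C : ℝ, 0 < C ∧ ∀ η : ℝ, 0 < η → η ≤ 1 / 2 → ∃ N₀ : ℕ, ∀ N : ℕ, N₀ ≤ N →
  (({n : ℕ | 1 ≤ n ∧ n ≤ N ∧ ∃ p : ℕ, p.Prime ∧ p ∣ n ∧ (N : ℝ) ^ (1 - η) < p}.ncard : ℕ) : ℝ) ≤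
    C * η * N

/-- the part of `n` composed of primes at most `x` -/
noncomputable def smoothPart (x : ℝ) (n : ℕ) : ℕ :=
  ∏ p ∈ n.primeFactors.filter (fun p : ℕ => (p : ℝ) ≤ x), p ^ n.factorization p

/-- few integers have a large smooth part -/
def B2 : Prop := ∃ C : ℝ, 0 < C ∧ ∀ δ η : ℝ, 0 < δ → δ ≤ 1 → 0 < η → ∃ N₀ : ℕ, ∀ N : ℕ, N₀ ≤ N →
  (({n : ℕ | 1 ≤ n ∧ n ≤ N ∧ (N : ℝ) ^ η ≤ smoothPart ((N : ℝ) ^ δ) n}.ncard : ℕ) : ℝ) ≤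
    C * (δ / η) * N

/-- few integers have two large prime factors which are both `1` modulo the same large prime -/
def B3 : Prop := ∀ δ ε : ℝ, 0 < δ → 0 < ε → ∃ l₁ N₀ : ℕ, ∀ N : ℕ, N₀ ≤ N →
  (({n : ℕ | 1 ≤ n ∧ n ≤ N ∧ ∃ l p p' : ℕ, l.Prime ∧ l₁ ≤ l ∧ p.Prime ∧ p'.Prime ∧ p ≠ p' ∧
    (N : ℝ) ^ δ < p ∧ (N : ℝ) ^ δ < p' ∧ p ∣ n ∧ p' ∣ n ∧ l ∣ p - 1 ∧ l ∣ p' - 1}.ncard : ℕ) : ℝ) ≤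
      ε * N

/-- few integers are divisible by the square of a large prime -/
def B4 : Prop := ∀ δ ε : ℝ, 0 < δ → 0 < ε → ∃ N₀ : ℕ, ∀ N : ℕ, N₀ ≤ N →
  (({n : ℕ | 1 ≤ n ∧ n ≤ N ∧ ∃ p : ℕ, p.Prime ∧ (N : ℝ) ^ δ < p ∧ p ^ 2 ∣ n}.ncard : ℕ) : ℝ) ≤
    ε * N

/-- few integers have a bounded power near a small multiple of a high power -/
def B5 : Prop := ∀ (c : ℕ) (ε : ℝ), 0 < ε → ∃ l₁ N₀ : ℕ, ∀ N : ℕ, N₀ ≤ N →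
  (({n : ℕ | 1 ≤ n ∧ n ≤ N ∧ ∃ (P w l a : ℕ) (b : ℤ), 1 ≤ P ∧ P ≤ c ∧ l₁ ≤ l ∧ 1 ≤ w ∧
    1 ≤ a ∧ a ≤ 8 ∧ |b| ≤ 16 ∧ (n : ℤ) ^ P = a * w ^ l + b}.ncard : ℕ) : ℝ) ≤ ε * N

/-- the conclusion: almost all integers have for all large primes `l` a large divisor without prime
factors `1` modulo `l` -/
def Dens : Prop := ∀ ε : ℝ, 0 < ε → ∃ K l₁ N₀ : ℕ, ∀ N : ℕ, N₀ ≤ N →
  (({n : ℕ | 1 ≤ n ∧ n ≤ N ∧ ∃ l : ℕ, l.Prime ∧ l₁ ≤ l ∧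
    ∀ D : ℕ, D ∣ n → (∀ p : ℕ, p.Prime → p ∣ D → ¬ l ∣ p - 1) → D ^ K < n}.ncard : ℕ) : ℝ) ≤ ε * N

end Pool.Agent.K9h9.AA
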