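import Mathlib
import Pool.Agent.K9h9.AA.Leaves

/-!
# Almost all integers have a large divisor without prime factors `1` modulo `l`
-/

set_option autoImplicit false

namespace Pool.Agent.K9h9.AA

open Finset

lemma struct {n l : ℕ} {x Z : ℝ} (hn : n ≠ 0) (hZ : 1 ≤ Z)
    (h1 : ∀ p : ℕ, p.Prime → p ∣ n → (p : ℝ) ≤ Z)
    (h3 : ∀ p p' : ℕ, p.Prime → p'.Prime → p ≠ p' → x < p → x < p' → p ∣ n → p' ∣ n → l ∣ p - 1 →
      l ∣ p' - 1 → False)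
    (h4 : ∀ p : ℕ, p.Prime → x < p → ¬ p ^ 2 ∣ n) :
    ∃ D : ℕ, D ∣ n ∧ (∀ p : ℕ, p.Prime → p ∣ D → ¬ l ∣ p - 1) ∧ (n : ℝ) ≤ D * (smoothPart x n * Z) := by
  classical
  obtain ⟨g, hg⟩ : ∃ g : ℕ → ℕ, g = fun p => p ^ n.factorization p := ⟨_, rfl⟩
  have hprod : ∏ p ∈ n.primeFactors, g p = n := by
    rw [hg]
    exact Nat.prod_factorization_pow_eq_self hn
  have hg1 : ∀ p ∈ n.primeFactors, 1 ≤ g p := by
    intro p hp
    rw [hg]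
    exact Nat.one_le_pow _ _ (Nat.prime_of_mem_primeFactors hp).pos
  obtain ⟨D, hD⟩ : ∃ D, D = ∏ p ∈ n.primeFactors.filter (fun p => ¬ l ∣ p - 1), g p := ⟨_, rfl⟩
  obtain ⟨A, hA⟩ : ∃ A, A = ∏ p ∈ n.primeFactors.filter (fun p => l ∣ p - 1), g p := ⟨_, rfl⟩
  have hAD : A * D = n := by
    rw [hA, hD, Finset.prod_filter_mul_prod_filter_not, hprod]
  refine ⟨D, ⟨A, by rw [mul_comm, hAD]⟩, ?_, ?_⟩
  · intro p hp hpD
    rw [hD, hp.prime.dvd_finsetProd_iff] at hpD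
    obtain ⟨q, hq, hpq⟩ := hpD
    rw [mem_filter] at hq
    rw [hg] at hpq
    have h5 := (Nat.prime_dvd_prime_iff_eq hp (Nat.prime_of_mem_primeFactors hq.1)).mp
      (hp.dvd_of_dvd_pow hpq)
    rw [h5]
    exact hq.2
  · obtain ⟨A₁, hA₁⟩ : ∃ A₁, A₁ = ∏ p ∈ (n.primeFactors.filter (fun p => l ∣ p - 1)).filter
        (fun p : ℕ => (p : ℝ) ≤ x), g p := ⟨_, rfl⟩
    obtain ⟨A₂, hA₂⟩ : ∃ A₂, A₂ = ∏ p ∈ (n.primeFactors.filter (fun p => l ∣ p - 1)).filter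
        (fun p : ℕ => ¬ (p : ℝ) ≤ x), g p := ⟨_, rfl⟩
    have hA12 : A₁ * A₂ = A := by
      rw [hA, hA₁, hA₂, Finset.prod_filter_mul_prod_filter_not]
    have hA1 : A₁ ≤ smoothPart x n := by
      rw [hA₁, smoothPart]
      have hsub : (n.primeFactors.filter (fun p => l ∣ p - 1)).filter (fun p : ℕ => (p : ℝ) ≤ x) ⊆
          n.primeFactors.filter (fun p : ℕ => (p : ℝ) ≤ x) :=
        Finset.filter_subset_filter _ (Finset.filter_subset _ _)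
      have := Finset.prod_le_prod_of_subset_of_one_le' (f := g) hsub (fun p hp _ =>
        hg1 p (Finset.mem_of_mem_filter _ hp))
      rw [hg] at this ⊢
      exact this
    have hA2 : (A₂ : ℝ) ≤ Z := by
      obtain ⟨S, hS⟩ : ∃ S, S = (n.primeFactors.filter (fun p => l ∣ p - 1)).filter
        (fun p : ℕ => ¬ (p : ℝ) ≤ x) := ⟨_, rfl⟩
      rw [← hS] at hA₂
      have hSmem : ∀ p ∈ S, p.Prime ∧ p ∣ n ∧ l ∣ p - 1 ∧ x < p := by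
        intro p hp
        rw [hS, mem_filter, mem_filter, not_le] at hp
        exact ⟨Nat.prime_of_mem_primeFactors hp.1.1, Nat.dvd_of_mem_primeFactors hp.1.1, hp.1.2, hp.2⟩
      rcases S.eq_empty_or_nonempty with h5 | ⟨p₀, hp₀⟩
      · rw [hA₂, h5, Finset.prod_empty]
        simpa using hZ
      · have hS1 : S = {p₀} := by
          rw [Finset.eq_singleton_iff_unique_mem]
          refine ⟨hp₀, ?_⟩
          intro p hp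
          by_contra hne
          obtain ⟨a1, a2, a3, a4⟩ := hSmem p hp
          obtain ⟨b1, b2, b3, b4⟩ := hSmem p₀ hp₀
          exact h3 p p₀ a1 b1 hne a4 b4 a2 b2 a3 b3
        obtain ⟨b1, b2, b3, b4⟩ := hSmem p₀ hp₀
        rw [hA₂, hS1, Finset.prod_singleton, hg]
        have hf : n.factorization p₀ ≤ 1 := by
          by_contra hcon
          apply h4 p₀ b1 b4
          exact (b1.pow_dvd_iff_le_factorization hn).mpr (by omega)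
        have h6 : p₀ ^ n.factorization p₀ ≤ p₀ := by
          calc p₀ ^ n.factorization p₀ ≤ p₀ ^ 1 := Nat.pow_le_pow_right b1.pos hf
            _ = p₀ := pow_one _
        calc ((p₀ ^ n.factorization p₀ : ℕ) : ℝ) ≤ p₀ := by exact_mod_cast h6
          _ ≤ Z := h1 p₀ b1 b2
    have h5 : (n : ℝ) = (D : ℝ) * ((A₁ : ℝ) * A₂) := by
      rw [← hAD, ← hA12]
      push_cast
      ring
    rw [h5]
    have h6 : (A₁ : ℝ) ≤ (smoothPart x n : ℝ) := by exact_mod_cast hA1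
    gcongr

theorem dens (h1 : B1) (h2 : B2) (h3 : B3) (h4 : B4) : Dens := by
  intro ε hε
  obtain ⟨C₁, hC₁, h1⟩ := h1
  obtain ⟨C₂, hC₂, h2⟩ := h2
  obtain ⟨η, hη⟩ : ∃ η : ℝ, η = min (1 / 2) (ε / (8 * C₁)) := ⟨_, rfl⟩
  have hη0 : 0 < η := by rw [hη]; positivity
  have hη1 : η ≤ 1 / 2 := by rw [hη]; exact min_le_left _ _
  have hη2 : C₁ * η ≤ ε / 8 := by
    have : η ≤ ε / (8 * C₁) := by rw [hη]; exact min_le_right _ _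
    calc C₁ * η ≤ C₁ * (ε / (8 * C₁)) := by gcongr
      _ = ε / 8 := by field_simp
  obtain ⟨δ, hδ⟩ : ∃ δ : ℝ, δ = min 1 (η * ε / (16 * C₂)) := ⟨_, rfl⟩
  have hδ0 : 0 < δ := by rw [hδ]; positivity
  have hδ1 : δ ≤ 1 := by rw [hδ]; exact min_le_left _ _
  have hδ2 : C₂ * (δ / (η / 2)) ≤ ε / 8 := by
    have : δ ≤ η * ε / (16 * C₂) := by rw [hδ]; exact min_le_right _ _
    calc C₂ * (δ / (η / 2)) ≤ C₂ * ((η * ε / (16 * C₂)) / (η / 2)) := by gcongr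
      _ = ε / 8 := by field_simp; norm_num
  obtain ⟨K, hK⟩ : ∃ K : ℕ, K = ⌈4 / η⌉₊ := ⟨_, rfl⟩
  have hK1 : 4 / η ≤ K := by rw [hK]; exact Nat.le_ceil _
  have hK0 : (0 : ℝ) < K := lt_of_lt_of_le (by positivity) hK1
  have hK2 : 1 / (K : ℝ) ≤ η / 4 := by
    rw [div_le_iff₀ hη0] at hK1
    rw [div_le_iff₀ hK0]
    linarith
  obtain ⟨N₁, h1⟩ := h1 η hη0 hη1
  obtain ⟨N₂, h2⟩ := h2 δ (η / 2) hδ0 hδ1 (by positivity)
  obtain ⟨l₁, N₃, h3⟩ := h3 δ (ε / 8) hδ0 (by positivity)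
  obtain ⟨N₄, h4⟩ := h4 δ (ε / 8) hδ0 (by positivity)
  -- small numbers
  obtain ⟨N₅, h5⟩ : ∃ N₅ : ℕ, ∀ N : ℕ, N₅ ≤ N → (N : ℝ) ^ (1 - η / 4) ≤ ε / 8 * N := by
    have ht : Filter.Tendsto (fun N : ℕ => (N : ℝ) ^ (-(η / 4))) Filter.atTop (nhds 0) :=
      (tendsto_rpow_neg_atTop (by positivity : 0 < η / 4)).comp tendsto_natCast_atTop_atTop
    have h6 := ht.eventually (gt_mem_nhds (by positivity : (0 : ℝ) < ε / 8))
    obtain ⟨N₅, hN₅⟩ := Filter.eventually_atTop.mp h6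
    refine ⟨N₅ + 1, ?_⟩
    intro N hN
    have hN0 : (0 : ℝ) < N := by exact_mod_cast (by omega : 0 < N)
    have h7 := hN₅ N (by omega)
    calc (N : ℝ) ^ (1 - η / 4) = N ^ (-(η / 4)) * N := by
          rw [sub_eq_neg_add, Real.rpow_add hN0, Real.rpow_one]
      _ ≤ ε / 8 * N := by gcongr
  refine ⟨K, l₁, N₁ + N₂ + N₃ + N₄ + N₅ + 2, ?_⟩
  intro N hN
  have hN0 : (0 : ℝ) < N := by exact_mod_cast (by omega : 0 < N)
  have hN1 : (1 : ℝ) ≤ N := by exact_mod_cast (by omega : 1 ≤ N)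
  have h1' := h1 N (by omega)
  have h2' := h2 N (by omega)
  have h3' := h3 N (by omega)
  have h4' := h4 N (by omega)
  have h5' := h5 N (by omega)
  obtain ⟨S0, hS0⟩ : ∃ S : Set ℕ, S = {n : ℕ | 1 ≤ n ∧ n ≤ N ∧ (n : ℝ) ≤ (N : ℝ) ^ (1 - η / 4)} := ⟨_, rfl⟩
  obtain ⟨S1, hS1⟩ : ∃ S : Set ℕ, S = {n : ℕ | 1 ≤ n ∧ n ≤ N ∧
      ∃ p : ℕ, p.Prime ∧ p ∣ n ∧ (N : ℝ) ^ (1 - η) < p} := ⟨_, rfl⟩
  obtain ⟨S2, hS2⟩ : ∃ S : Set ℕ, S = {n : ℕ | 1 ≤ n ∧ n ≤ N ∧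
      (N : ℝ) ^ (η / 2) ≤ smoothPart ((N : ℝ) ^ δ) n} := ⟨_, rfl⟩
  obtain ⟨S3, hS3⟩ : ∃ S : Set ℕ, S = {n : ℕ | 1 ≤ n ∧ n ≤ N ∧ ∃ l p p' : ℕ, l.Prime ∧ l₁ ≤ l ∧ p.Prime ∧
    p'.Prime ∧ p ≠ p' ∧ (N : ℝ) ^ δ < p ∧ (N : ℝ) ^ δ < p' ∧ p ∣ n ∧ p' ∣ n ∧ l ∣ p - 1 ∧
    l ∣ p' - 1} := ⟨_, rfl⟩
  obtain ⟨S4, hS4⟩ : ∃ S : Set ℕ, S = {n : ℕ | 1 ≤ n ∧ n ≤ N ∧
      ∃ p : ℕ, p.Prime ∧ (N : ℝ) ^ δ < p ∧ p ^ 2 ∣ n} := ⟨_, rfl⟩
  rw [← hS1] at h1'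
  rw [← hS2] at h2'
  rw [← hS3] at h3'
  rw [← hS4] at h4'
  have hfin : ∀ S : Set ℕ, (∀ n ∈ S, n ≤ N) → S.Finite := fun S hS =>
    (Set.finite_Iic N).subset fun n hn => hS n hn
  have hf0 : S0.Finite := hfin S0 (by rw [hS0]; rintro n ⟨-, h, -⟩; exact h)
  have hf1 : S1.Finite := hfin S1 (by rw [hS1]; rintro n ⟨-, h, -⟩; exact h)
  have hf2 : S2.Finite := hfin S2 (by rw [hS2]; rintro n ⟨-, h, -⟩; exact h)
  have hf3 : S3.Finite := hfin S3 (by rw [hS3]; rintro n ⟨-, h, -⟩; exact h)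
  have hf4 : S4.Finite := hfin S4 (by rw [hS4]; rintro n ⟨-, h, -⟩; exact h)
  have h0' : ((S0.ncard : ℕ) : ℝ) ≤ ε / 8 * N := by
    have hsub : S0 ⊆ ((Finset.Icc 1 ⌊(N : ℝ) ^ (1 - η / 4)⌋₊ : Finset ℕ) : Set ℕ) := by
      rw [hS0]
      rintro n ⟨a, -, b⟩
      simp only [Finset.coe_Icc, Set.mem_Icc]
      exact ⟨a, Nat.le_floor b⟩
    have h6 := Set.ncard_le_ncard hsub (Finset.finite_toSet _)
    rw [Set.ncard_coe_finset, Nat.card_Icc, Nat.add_sub_cancel] at h6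
    calc ((S0.ncard : ℕ) : ℝ) ≤ (⌊(N : ℝ) ^ (1 - η / 4)⌋₊ : ℝ) := by exact_mod_cast h6
      _ ≤ (N : ℝ) ^ (1 - η / 4) := Nat.floor_le (by positivity)
      _ ≤ _ := h5'
  have hsub : {n : ℕ | 1 ≤ n ∧ n ≤ N ∧ ∃ l : ℕ, l.Prime ∧ l₁ ≤ l ∧
      ∀ D : ℕ, D ∣ n → (∀ p : ℕ, p.Prime → p ∣ D → ¬ l ∣ p - 1) → D ^ K < n} ⊆
      S0 ∪ S1 ∪ S2 ∪ S3 ∪ S4 := by
    rintro n ⟨hn1, hnN, l, hl, hll, hD⟩
    by_contra hcon
    simp only [Set.mem_union, not_or] at hcon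
    obtain ⟨⟨⟨⟨c0, c1⟩, c2⟩, c3⟩, c4⟩ := hcon
    have d0 : (N : ℝ) ^ (1 - η / 4) < n := by
      by_contra hc
      exact c0 (by rw [hS0]; exact ⟨hn1, hnN, not_lt.mp hc⟩)
    have d1 : ∀ p : ℕ, p.Prime → p ∣ n → (p : ℝ) ≤ (N : ℝ) ^ (1 - η) := by
      intro p hp hpn
      by_contra hc
      exact c1 (by rw [hS1]; exact ⟨hn1, hnN, p, hp, hpn, not_le.mp hc⟩)
    have d2 : (smoothPart ((N : ℝ) ^ δ) n : ℝ) < (N : ℝ) ^ (η / 2) := by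
      by_contra hc
      exact c2 (by rw [hS2]; exact ⟨hn1, hnN, not_lt.mp hc⟩)
    obtain ⟨D, hDn, hDp, hle⟩ := struct (n := n) (l := l) (x := (N : ℝ) ^ δ) (Z := (N : ℝ) ^ (1 - η))
      (by omega) (Real.one_le_rpow hN1 (by linarith)) d1 (by
        intro p p' a1 a2 a3 a4 a5 a6 a7 a8 a9
        exact c3 (by rw [hS3]; exact ⟨hn1, hnN, l, p, p', hl, hll, a1, a2, a3, a4, a5, a6, a7, a8, a9⟩)) (by
        intro p a1 a2 a3
        exact c4 (by rw [hS4]; exact ⟨hn1, hnN, p, a1, a2, a3⟩))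
    have e1 := hD D hDn hDp
    have hDpos : 0 < D := Nat.pos_of_dvd_of_pos hDn (by omega)
    have e2 : (D : ℝ) ≤ (N : ℝ) ^ (η / 4) := by
      have e3 : (D : ℝ) ^ K ≤ N := by
        have : D ^ K ≤ N := by omega
        exact_mod_cast this
      have e4 : ((D : ℝ) ^ K) ^ (1 / (K : ℝ)) ≤ (N : ℝ) ^ (1 / (K : ℝ)) :=
        Real.rpow_le_rpow (by positivity) e3 (by positivity)
      rw [← Real.rpow_natCast, ← Real.rpow_mul (by positivity), mul_one_div_cancel hK0.ne',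
        Real.rpow_one] at e4
      exact e4.trans (Real.rpow_le_rpow_of_exponent_le hN1 hK2)
    have e3 : (n : ℝ) ≤ (N : ℝ) ^ (1 - η / 4) := by
      calc (n : ℝ) ≤ D * (smoothPart ((N : ℝ) ^ δ) n * (N : ℝ) ^ (1 - η)) := hle
        _ ≤ (N : ℝ) ^ (η / 4) * ((N : ℝ) ^ (η / 2) * (N : ℝ) ^ (1 - η)) := by gcongr
        _ = (N : ℝ) ^ (1 - η / 4) := by
          rw [← Real.rpow_add hN0, ← Real.rpow_add hN0]
          congr 1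
          ring
    linarith
  have hfinU : (S0 ∪ S1 ∪ S2 ∪ S3 ∪ S4).Finite :=
    (((hf0.union hf1).union hf2).union hf3).union hf4
  have hcard := Set.ncard_le_ncard hsub hfinU
  have hu1 := Set.ncard_union_le (S0 ∪ S1 ∪ S2 ∪ S3) S4
  have hu2 := Set.ncard_union_le (S0 ∪ S1 ∪ S2) S3
  have hu3 := Set.ncard_union_le (S0 ∪ S1) S2
  have hu4 := Set.ncard_union_le S0 S1
  have htot : {n : ℕ | 1 ≤ n ∧ n ≤ N ∧ ∃ l : ℕ, l.Prime ∧ l₁ ≤ l ∧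
      ∀ D : ℕ, D ∣ n → (∀ p : ℕ, p.Prime → p ∣ D → ¬ l ∣ p - 1) → D ^ K < n}.ncard ≤
      S0.ncard + S1.ncard + S2.ncard + S3.ncard + S4.ncard := by omega
  have htotR : (({n : ℕ | 1 ≤ n ∧ n ≤ N ∧ ∃ l : ℕ, l.Prime ∧ l₁ ≤ l ∧
      ∀ D : ℕ, D ∣ n → (∀ p : ℕ, p.Prime → p ∣ D → ¬ l ∣ p - 1) → D ^ K < n}.ncard : ℕ) : ℝ) ≤
      S0.ncard + S1.ncard + S2.ncard + S3.ncard + S4.ncard := by exact_mod_cast htot
  have g1 : C₁ * η * N ≤ ε / 8 * N := by gcongr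
  have g2 : C₂ * (δ / (η / 2)) * N ≤ ε / 8 * N := by gcongr
  have g3 : 0 < ε * N := by positivity
  linarith

end Pool.Agent.K9h9.AA
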