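import Mathlib

/-!
# Statements about the equation `x ^ p + y ^ p = z ^ q` for exponents `p ≤ x ^ δ`
-/

set_option autoImplicit false

namespace Pool.Agent.K9h9.AA

/-- few solutions with given sum `M` of the bases `n` and `M - n` -/
def E0 : Prop := ∃ c' : ℝ, 0 < c' ∧ ∃ N₀ : ℕ, ∀ N : ℕ, N₀ ≤ N → ∀ M : ℤ,
  |(M : ℝ)| ≤ Real.exp ((N : ℝ) ^ c') / 2 →
  (({n : ℕ | 1 ≤ n ∧ n ≤ N ∧ ∃ (z : ℤ) (p q : ℕ), 3 ≤ p ∧ q.Prime ∧ 3 ≤ q ∧ M - n ≠ 0 ∧ z ≠ 0 ∧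
    IsCoprime (n : ℤ) (M - n) ∧ |(z : ℝ)| ≤ Real.exp ((N : ℝ) ^ c') ∧
    (n : ℤ) ^ p + (M - n) ^ p = z ^ q}.ncard : ℕ) : ℝ) ≤ (N : ℝ) ^ (3 / 8 : ℝ)

/-- few integers `n ≤ N` are bases of a solution of `n ^ p + y ^ p = z ^ q` with `p ≤ N ^ δ`,
`|y| ≤ n ^ c`, `q > 2 c` -/
def E1 : Prop := ∀ c : ℕ, 1 ≤ c → ∃ δ : ℝ, 0 < δ ∧ ∀ ε : ℝ, 0 < ε → ∃ N₀ : ℕ, ∀ N : ℕ, N₀ ≤ N →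
  (({n : ℕ | 1 ≤ n ∧ n ≤ N ∧ ∃ (y z : ℤ) (p q : ℕ), p.Prime ∧ p ≠ 2 ∧ q.Prime ∧ 2 * c < q ∧
    (p : ℝ) ≤ (N : ℝ) ^ δ ∧ y ≠ 0 ∧ z ≠ 0 ∧ IsCoprime (n : ℤ) y ∧ |y| ≤ (n : ℤ) ^ c ∧
    (n : ℤ) ^ p + y ^ p = z ^ q}.ncard : ℕ) : ℝ) ≤ ε * N

/-- the possible sums of the bases -/
def E2 : Prop := ∀ (x y z : ℤ) (p q : ℕ), p.Prime → p ≠ 2 → q.Prime → x ≠ 0 → y ≠ 0 → z ≠ 0 →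
  IsCoprime x y → x ^ p + y ^ p = z ^ q →
    (¬ (p : ℤ) ∣ z → ∃ w : ℕ, (x + y).natAbs = w ^ q) ∧
    ((p : ℤ) ∣ z → (∃ w : ℕ, p * (x + y).natAbs = w ^ q) ∧ (p : ℤ) ^ (q - 1) ∣ x + y)

end Pool.Agent.K9h9.AA
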