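import Mathlib
import Pool.Agent.K9h9.AA.LeavesE

/-!
# The sum of the bases in `x ^ p + y ^ p = z ^ q`
-/

set_option autoImplicit false

namespace Pool.Agent.K9h9.AA

open Finset

lemma nat_pow_of_coprime {a b c q : ℕ} (hab : Nat.Coprime a b) (h : a * b = c ^ q) :
    ∃ w : ℕ, a = w ^ q := by
  obtain ⟨w, hw⟩ := exists_eq_pow_of_mul_eq_pow (by rw [Nat.isUnit_iff]; exact hab) h
  exact ⟨w, hw⟩

theorem e2 : E2 := by
  intro x y z p q hp hp2 hq hx hy hz hcop heq
  have hodd : Odd p := hp.odd_of_ne_two hp2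
  have hpZ : Prime (p : ℤ) := Nat.prime_iff_prime_int.mp hp
  obtain ⟨S, hS⟩ : ∃ S : ℤ, S = x + y := ⟨_, rfl⟩
  obtain ⟨Φ, hΦ⟩ : ∃ Φ, Φ = ∑ i ∈ range p, x ^ i * (-y) ^ (p - 1 - i) := ⟨_, rfl⟩
  have hmul : S * Φ = z ^ q := by
    have h1 := (Commute.all x (-y)).geom_sum₂_mul p
    rw [← hΦ, hodd.neg_pow, sub_neg_eq_add, sub_neg_eq_add, heq] at h1
    rw [mul_comm, hS]
    exact h1
  have hSx : S = x - (-y) := by rw [hS]; ring
  have hnx : ∀ l : ℤ, Prime l → l ∣ S → ¬ l ∣ x := by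
    intro l hl h1 h2
    have h3 : l ∣ y := by
      have h4 := dvd_sub h1 h2
      rw [hS] at h4
      simpa using h4
    exact hl.not_unit (hcop.isUnit_of_dvd' h2 h3)
  have hcommon : ∀ l : ℕ, l.Prime → (l : ℤ) ∣ S → (l : ℤ) ∣ Φ → l = p := by
    intro l hl h1 h2
    have hlint : Prime (l : ℤ) := Nat.prime_iff_prime_int.mp hl
    by_contra hne
    have h3 : ¬ (l : ℤ) ∣ (p : ℤ) := by
      intro h4
      exact hne ((Nat.prime_dvd_prime_iff_eq hl hp).mp (by exact_mod_cast h4))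
    rw [hΦ] at h2
    exact not_dvd_geom_sum₂ hlint (by rw [← hSx]; exact h1) (hnx _ hlint h1) h3 h2
  have hmulN : S.natAbs * Φ.natAbs = z.natAbs ^ q := by
    rw [← Int.natAbs_mul, hmul, Int.natAbs_pow]
  rw [← hS]
  constructor
  · intro hpz
    have hc : Nat.Coprime S.natAbs Φ.natAbs := by
      apply Nat.Coprime.symm
      by_contra hne
      obtain ⟨l, hl, h1, h2⟩ := Nat.Prime.not_coprime_iff_dvd.mp hne
      have h3 := hcommon l hl (Int.natCast_dvd.mpr h2) (Int.natCast_dvd.mpr h1)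
      apply hpz
      have h4 : (l : ℤ) ∣ z ^ q := by
        rw [← hmul]
        exact (Int.natCast_dvd.mpr h2).mul_right _
      rw [← h3]
      exact (Nat.prime_iff_prime_int.mp hl).dvd_of_dvd_pow h4
    exact nat_pow_of_coprime hc hmulN
  · intro hpz
    have hpS : (p : ℤ) ∣ S := by
      have h1 : (p : ℤ) ∣ x ^ p + y ^ p := by
        rw [heq]
        exact hpz.trans (dvd_pow_self z hq.ne_zero)
      haveI : Fact p.Prime := ⟨hp⟩
      rw [hS, ← ZMod.intCast_zmod_eq_zero_iff_dvd] 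
      rw [← ZMod.intCast_zmod_eq_zero_iff_dvd] at h1
      push_cast at h1 ⊢
      rwa [ZMod.pow_card, ZMod.pow_card] at h1
    have hpx := hnx _ hpZ hpS
    have hem : emultiplicity (p : ℤ) Φ = 1 := by
      rw [hΦ]
      exact emultiplicity_geom_sum₂_eq_one hpZ hodd (by rw [← hSx]; exact hpS) hpx
    have hpΦ : (p : ℤ) ∣ Φ := by
      have h1 : (p : ℤ) ^ 1 ∣ Φ := by
        rw [pow_dvd_iff_le_emultiplicity, hem]
        exact le_rfl
      simpa using h1
    have hp2Φ : ¬ (p : ℤ) ^ 2 ∣ Φ := by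
      rw [pow_dvd_iff_le_emultiplicity, hem]
      norm_num
    obtain ⟨Ψ, hΨ⟩ := hpΦ
    have hpΨ : ¬ (p : ℤ) ∣ Ψ := by
      rintro ⟨t, ht⟩
      apply hp2Φ
      exact ⟨t, by rw [hΨ, ht]; ring⟩
    have hmul2 : ((p : ℤ) * S) * Ψ = z ^ q := by
      rw [← hmul, hΨ]
      ring
    have hmulN2 : (p * S.natAbs) * Ψ.natAbs = z.natAbs ^ q := by
      have h1 := congrArg Int.natAbs hmul2
      rw [Int.natAbs_mul, Int.natAbs_mul, Int.natAbs_natCast, Int.natAbs_pow] at h1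
      exact h1
    have hc : Nat.Coprime (p * S.natAbs) Ψ.natAbs := by
      apply Nat.Coprime.mul_left
      · rw [Nat.Prime.coprime_iff_not_dvd hp]
        intro h1
        exact hpΨ (Int.natCast_dvd.mpr h1)
      · apply Nat.Coprime.symm
        by_contra hne
        obtain ⟨l, hl, h1, h2⟩ := Nat.Prime.not_coprime_iff_dvd.mp hne
        have h3 := hcommon l hl (Int.natCast_dvd.mpr h2) (by
          rw [hΨ]
          exact (Int.natCast_dvd.mpr h1).mul_left _)
        rw [h3] at h1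
        exact hpΨ (Int.natCast_dvd.mpr h1)
    obtain ⟨w, hw⟩ := nat_pow_of_coprime hc hmulN2
    refine ⟨⟨w, hw⟩, ?_⟩
    have hpw : p ∣ w := by
      have h1 : p ∣ w ^ q := by
        rw [← hw]
        exact dvd_mul_right _ _
      exact hp.dvd_of_dvd_pow h1
    have h1 : p ^ q ∣ p * S.natAbs := by
      rw [hw]
      exact pow_dvd_pow_of_dvd hpw q
    obtain ⟨j, rfl⟩ : ∃ j, q = j + 1 := ⟨q - 1, by have := hq.two_le; omega⟩
    rw [pow_succ, mul_comm] at h1
    have h2 : p ^ j ∣ S.natAbs := Nat.dvd_of_mul_dvd_mul_left hp.pos h1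
    rw [Nat.add_sub_cancel]
    have h3 := Int.natCast_dvd.mpr h2
    push_cast at h3
    exact h3

end Pool.Agent.K9h9.AA
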