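import Mathlib
import Pool.Agent.K9h9.XR.Red

/-!
# Solutions with a base `n` which has a large divisor without prime factors `1` modulo `l`
-/

set_option autoImplicit false

namespace Pool.Agent.K9h9.AA

open Finset Pool.Agent.K9h9.CB Pool.Agent.K9h9.SR Pool.Agent.K9h9.RD Pool.Agent.K9h9.XR

lemma exp_beats (M : ℕ) : ∃ l₀ : ℕ, ∀ l : ℕ, l₀ ≤ l → (4 * l ^ 2) ^ M < 2 ^ l := by
  have h1 := tendsto_pow_const_div_const_pow_of_one_lt (2 * M) (one_lt_two : (1 : ℝ) < 2)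
  have h2 : (0 : ℝ) < (4 : ℝ)⁻¹ ^ M := by positivity
  have h3 := h1.eventually (gt_mem_nhds h2)
  obtain ⟨l₀, hl₀⟩ := Filter.eventually_atTop.mp h3
  refine ⟨l₀, ?_⟩
  intro l hl
  have h4 := hl₀ l hl
  rw [div_lt_iff₀ (by positivity), inv_pow, inv_mul_eq_div, lt_div_iff₀ (by positivity)] at h4
  have h5 : ((4 * l ^ 2) ^ M : ℝ) < 2 ^ l := by
    rw [mul_pow, ← pow_mul]
    linarith
  exact_mod_cast h5

/-- Two `l`-th powers with difference divisible by `T` -/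
lemma case_pow (M : ℕ) : ∃ l₀ : ℕ, ∀ X T b v l : ℕ, l.Prime → l₀ ≤ l → 3 ≤ T → T ∣ X →
    (∀ ℓ : ℕ, ℓ.Prime → ℓ ∣ T → ¬ l ∣ ℓ - 1) → Nat.Coprime T v → 0 < X → EqX X v b l l →
    v ^ l ≤ T ^ M → b ^ l ≤ T ^ M → False := by
  obtain ⟨l₁, h₁⟩ := exp_beats M
  refine ⟨l₁ + 2 * M + 3, ?_⟩
  intro X T b v l hl hll hT hTX hprime hcop hX heq hv hb
  have hlM : 2 * M ≤ l := by omega
  have hl2 : l ≠ 2 := by omega
  have hodd := hl.odd_of_ne_two hl2
  obtain ⟨s, t, hs, ht, hst⟩ := heq.signs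
  have htl : t ^ l = t := by
    rcases ht with rfl | rfl
    · exact one_pow l
    · exact hodd.neg_one_pow
  have h1 : (b : ℤ) ^ l - (t * v) ^ l = s * X := by
    rw [mul_pow, htl, hst]
    ring
  have hcop' : IsCoprime (T : ℤ) (t * v) := by
    refine IsCoprime.mul_right ?_ (Nat.isCoprime_iff_coprime.mpr hcop)
    rcases ht with rfl | rfl
    · exact isCoprime_one_right
    · exact isCoprime_one_right.neg_right
  have hTX' : (T : ℤ) ∣ (b : ℤ) ^ l - (t * v) ^ l := by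
    rw [h1]
    exact (Int.natCast_dvd_natCast.mpr hTX).mul_left _
  obtain ⟨E, hE1, hE2, -, hE3⟩ := root_cong hl hl2 (by omega) hprime hcop' hTX'
  obtain ⟨μ, hμ⟩ : ∃ μ, μ = max b v := ⟨_, rfl⟩
  have hbμ : b ≤ μ := by rw [hμ]; exact le_max_left _ _
  have hvμ : v ≤ μ := by rw [hμ]; exact le_max_right _ _
  have hμT : μ ^ l ≤ T ^ M := by
    rw [hμ]
    rcases le_total b v with h | h
    · rw [max_eq_right h]; exact hv
    · rw [max_eq_left h]; exact hb
  have hne : (b : ℤ) - t * v ≠ 0 := by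
    intro h2
    have h3 : (b : ℤ) = t * v := by linarith
    rw [h3, sub_self] at h1
    rcases hs with rfl | rfl
    · have : (X : ℤ) = 0 := by linarith
      omega
    · have : (X : ℤ) = 0 := by linarith
      omega
  have hEμ : E ≤ 2 * μ := by
    have h2 := Int.le_of_dvd (abs_pos.mpr hne) ((dvd_abs _ _).mpr hE3)
    have h3 : |(b : ℤ) - t * v| ≤ b + v := by
      rcases ht with rfl | rfl <;> rw [abs_le] <;> constructor <;> push_cast <;> omega
    have h4 : (E : ℤ) ≤ 2 * μ := by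
      have : (b : ℤ) ≤ μ := by exact_mod_cast hbμ
      have : (v : ℤ) ≤ μ := by exact_mod_cast hvμ
      linarith
    exact_mod_cast h4
  have hTμ : T ≤ 2 * l * μ := by
    calc T ≤ l * E := hE2
      _ ≤ l * (2 * μ) := Nat.mul_le_mul_left _ hEμ
      _ = _ := by ring
  have hX3 : 3 ≤ X := le_trans hT (Nat.le_of_dvd hX hTX)
  have hμ2 : 2 ≤ μ := by
    by_contra hcon
    have hμ1 : μ ≤ 1 := by omega
    have e1 : b ^ l ≤ 1 := by
      calc b ^ l ≤ 1 ^ l := Nat.pow_le_pow_left (by omega) l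
        _ = 1 := one_pow l
    have e2 : v ^ l ≤ 1 := by
      calc v ^ l ≤ 1 ^ l := Nat.pow_le_pow_left (by omega) l
        _ = 1 := one_pow l
    rcases heq with h | h | h <;> omega
  have hT0 : 0 < T := by omega
  have hTl : T ^ l ≤ (2 * l) ^ l * T ^ M := by
    calc T ^ l ≤ (2 * l * μ) ^ l := Nat.pow_le_pow_left hTμ l
      _ = (2 * l) ^ l * μ ^ l := mul_pow _ _ _
      _ ≤ _ := Nat.mul_le_mul_left _ hμT
  have hTlM : T ^ (l - M) ≤ (2 * l) ^ l := by
    have h2 : T ^ l = T ^ (l - M) * T ^ M := by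
      rw [← pow_add]
      congr 1
      omega
    rw [h2] at hTl
    exact Nat.le_of_mul_le_mul_right hTl (by positivity)
  have hT4 : T ≤ 4 * l ^ 2 := by
    have h2 : T ^ l ≤ (4 * l ^ 2) ^ l := by
      calc T ^ l ≤ T ^ (2 * (l - M)) := Nat.pow_le_pow_right hT0 (by omega)
        _ = (T ^ (l - M)) ^ 2 := by rw [← pow_mul, mul_comm]
        _ ≤ ((2 * l) ^ l) ^ 2 := Nat.pow_le_pow_left hTlM 2
        _ = _ := by rw [← pow_mul, mul_comm l 2, pow_mul]; congr 1; ring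
    exact (Nat.pow_le_pow_iff_left hl.ne_zero).mp h2
  have h3 := h₁ l (by omega)
  have h4 : 2 ^ l ≤ (4 * l ^ 2) ^ M := by
    calc 2 ^ l ≤ μ ^ l := Nat.pow_le_pow_left hμ2 l
      _ ≤ T ^ M := hμT
      _ ≤ _ := Nat.pow_le_pow_left hT4 M
  omega

/-- The main case -/
lemma case_main (K c : ℕ) : ∃ l₀ : ℕ, ∀ X n y z w P Q l D : ℕ, l.Prime → l₀ ≤ l → 3 ≤ D → D ∣ n →
    n ≤ D ^ K → (∀ ℓ : ℕ, ℓ.Prime → ℓ ∣ D → ¬ l ∣ ℓ - 1) → Nat.Coprime w n → 0 < P → 0 < Q → 0 < y →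
    0 < z → 0 < w → Q ≤ c * P → n ^ P ∣ X → X ≤ n ^ (c * P) → y ≤ n ^ c → w ^ l ≤ n ^ c →
    ((n : ℤ) ∣ y - w ^ l ∨ (n : ℤ) ∣ y + w ^ l) → ¬ l ∣ Q → y ≠ w ^ l → z ≠ w ^ Q →
    EqX X y z Q l → False := by
  obtain ⟨C, hC⟩ := fracX (4 * K * (c * c + c) + 2)
  refine ⟨2 * K * c * C + 3, ?_⟩
  intro X n y z w P Q l D hl hll hD3 hDn hnD hprime hwn hP hQ hy hz hw hQP hnX hXn hyn hwl hcong hlQ
    hne1 hne2 heq
  have hl2 : l ≠ 2 := by omega
  have hDP : D ∣ X := (hDn.trans (dvd_pow_self n hP.ne')).trans hnX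
  have hwD : Nat.Coprime w D := hwn.coprime_dvd_right hDn
  have hDnZ : (D : ℤ) ∣ n := Int.natCast_dvd_natCast.mpr hDn
  have h1 : (D : ℤ) ∣ y * (1 : ℕ) ^ l - w ^ l ∨ (D : ℤ) ∣ y * (1 : ℕ) ^ l + w ^ l := by
    rcases hcong with h | h
    · left
      simpa using hDnZ.trans h
    · right
      simpa using hDnZ.trans h
  obtain ⟨E, hED, -, hDE2, h2⟩ := zcongX (Y := X) (y := y) (z := z) (q := Q) (r := l) (D := D)
    (u := 1) (w := w) hl hD3 hDP hwD heq h1 (Or.inl ⟨hl2, hprime⟩)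
  have hE0 : 0 < E := by
    rcases Nat.eq_zero_or_pos E with h | h
    · rw [h] at hDE2
      omega
    · exact h
  have hE2 : 2 ≤ E := by
    by_contra hcon
    have : E = 1 := by omega
    rw [this] at hDE2
    omega
  have hEDZ : (E : ℤ) ∣ D := by exact_mod_cast hED
  have h1E : (E : ℤ) ∣ y * (1 : ℕ) ^ l - w ^ l ∨ (E : ℤ) ∣ y * (1 : ℕ) ^ l + w ^ l := by
    rcases h1 with h | h
    · exact Or.inl (hEDZ.trans h)
    · exact Or.inr (hEDZ.trans h)
  have hwE : Nat.Coprime w E := hwD.coprime_dvd_right hED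
  have hEx : E ^ P ∣ X := (pow_dvd_pow_of_dvd (hED.trans hDn) P).trans hnX
  have hs1 := sq_modEq_of_pm (D := E) (a := y * 1 ^ l) (b := w ^ l) (by push_cast; push_cast at h1E; exact h1E)
  have hs2 := sq_modEq_of_pm (D := E) (a := z * 1 ^ Q) (b := w ^ Q) (by push_cast; push_cast at h2; exact h2)
  have hcop : Nat.Coprime Q l := by
    rw [Nat.coprime_comm]
    exact (Nat.Prime.coprime_iff_not_dvd hl).mpr hlQ
  have hnE : n ≤ E ^ (2 * K) := by
    calc n ≤ D ^ K := hnD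
      _ ≤ (E ^ 2) ^ K := Nat.pow_le_pow_left hDE2 K
      _ = _ := by rw [← pow_mul]
  obtain ⟨H, hH⟩ : ∃ H, H = max (y * 1 ^ l) (w ^ l) := ⟨_, rfl⟩
  have hHn : H ≤ n ^ c := by
    rw [hH]
    apply max_le
    · simpa using hyn
    · exact hwl
  have hHE : H ≤ E ^ (2 * K * c) := by
    calc H ≤ n ^ c := hHn
      _ ≤ (E ^ (2 * K)) ^ c := Nat.pow_le_pow_left hnE c
      _ = _ := by rw [← pow_mul]
  have hHQ : H ^ Q ≤ E ^ (2 * K * (c * c) * P) := by
    calc H ^ Q ≤ (E ^ (2 * K * c)) ^ Q := Nat.pow_le_pow_left hHE Q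
      _ = E ^ (2 * K * c * Q) := by rw [← pow_mul]
      _ ≤ _ := by
        apply Nat.pow_le_pow_right hE0
        calc 2 * K * c * Q ≤ 2 * K * c * (c * P) := Nat.mul_le_mul_left _ hQP
          _ = _ := by ring
  have hzl : z ^ l ≤ E ^ ((4 * K * (c * c + c) + 2) * P) := by
    have e1 : z ^ l ≤ X + y ^ Q := heq.le
    have e2 : X ≤ E ^ (2 * K * (c * c + c) * P) := by
      calc X ≤ n ^ (c * P) := hXn
        _ ≤ (E ^ (2 * K)) ^ (c * P) := Nat.pow_le_pow_left hnE _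
        _ = E ^ (2 * K * c * P) := by rw [← pow_mul]; congr 1; ring
        _ ≤ _ := by
          apply Nat.pow_le_pow_right hE0
          apply Nat.mul_le_mul_right
          apply Nat.mul_le_mul_left
          omega
    have e3 : y ^ Q ≤ E ^ (2 * K * (c * c + c) * P) := by
      have : y ≤ H := by
        rw [hH]
        refine le_trans ?_ (le_max_left _ _)
        simp
      calc y ^ Q ≤ H ^ Q := Nat.pow_le_pow_left this Q
        _ ≤ _ := hHQ
        _ ≤ _ := by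
          apply Nat.pow_le_pow_right hE0
          apply Nat.mul_le_mul_right
          apply Nat.mul_le_mul_left
          omega
    calc z ^ l ≤ X + y ^ Q := e1
      _ ≤ 2 * E ^ (2 * K * (c * c + c) * P) := by omega
      _ ≤ E * E ^ (2 * K * (c * c + c) * P) := Nat.mul_le_mul_right _ hE2
      _ = E ^ (2 * K * (c * c + c) * P + 1) := by rw [pow_succ]; ring
      _ ≤ _ := by
        apply Nat.pow_le_pow_right hE0
        have : 1 ≤ P := hP
        nlinarith [Nat.zero_le (2 * K * (c * c + c) * P)]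
  have h3 := hC X y z P Q l E 1 w hE2 hEx hy hz one_pos hw hwE (by simpa using hne1)
    (by simpa using hne2) hs1 hs2 hQ hl.pos hcop heq (by
      rw [← hH]
      refine hHQ.trans ?_
      apply Nat.pow_le_pow_right hE0
      apply Nat.mul_le_mul_right
      nlinarith [Nat.zero_le (K * (c * c)), Nat.zero_le (K * c), Nat.zero_le K]) (by
      simpa using hzl)
  rw [← hH] at h3
  have h4 : E ^ l ≤ E ^ (2 * K * c * C) := by
    calc E ^ l ≤ H ^ C := h3
      _ ≤ (E ^ (2 * K * c)) ^ C := Nat.pow_le_pow_left hHE C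
      _ = _ := by rw [← pow_mul]
  have h5 := (Nat.pow_le_pow_iff_right (by omega : 1 < E)).mp h4
  omega

end Pool.Agent.K9h9.AA
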