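import Mathlib
import Pool.Agent.K9h9.AA.PartA

/-!
# Powers which are differences of two equal powers of congruent numbers
-/

set_option autoImplicit false

namespace Pool.Agent.K9h9.AA

open Finset Pool.Agent.K9h9.CB Pool.Agent.K9h9.SR Pool.Agent.K9h9.RD Pool.Agent.K9h9.XR

/-- lifting the exponent -/
lemma lte_dvd {n P Q : ℕ} {x B : ℤ} (hxB : (n : ℤ) ∣ x - B) (hcop : IsCoprime (n : ℤ) x)
    (hN : ((n : ℤ) ^ P) ∣ x ^ Q - B ^ Q) : ((n : ℤ) ^ P) ∣ Q * ((x - B) * (x + B)) := by
  have h0 : ((n ^ P : ℕ) : ℤ) ∣ (Q : ℤ) * ((x - B) * (x + B)) := by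
    rw [Int.natCast_dvd, Nat.dvd_iff_prime_pow_dvd_dvd]
    intro p k hp hk
    rcases Nat.eq_zero_or_pos k with h | hk0
    · rw [h, pow_zero]
      exact one_dvd _
    have hpn : p ∣ n := by
      have h1 : p ∣ n ^ P := (dvd_pow_self p hk0.ne').trans hk
      exact hp.dvd_of_dvd_pow h1
    have hpnZ : (p : ℤ) ∣ n := Int.natCast_dvd_natCast.mpr hpn
    have hpxB : (p : ℤ) ∣ x - B := hpnZ.trans hxB
    have hpZ : Prime (p : ℤ) := Nat.prime_iff_prime_int.mp hp
    have hpx : ¬ (p : ℤ) ∣ x := by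
      intro h
      exact hpZ.not_unit (hcop.isUnit_of_dvd' hpnZ h)
    have hkd : (p : ℤ) ^ k ∣ x ^ Q - B ^ Q := by
      refine Dvd.dvd.trans ?_ hN
      exact_mod_cast (Int.natCast_dvd_natCast.mpr hk)
    rw [← Int.natCast_dvd]
    push_cast
    rw [pow_dvd_iff_le_emultiplicity] at hkd ⊢
    rw [emultiplicity_mul hpZ, emultiplicity_mul hpZ]
    rcases hp.eq_two_or_odd' with h2 | hodd
    · rcases Nat.even_or_odd Q with hQ | hQ
      · have h3 := Int.two_pow_sub_pow (x := x) (y := B) (n := Q) (by rw [h2] at hpxB; exact_mod_cast hpxB)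
          (by rw [h2] at hpx; exact_mod_cast hpx) hQ
        have h4 : ((k : ℕ∞) + 1) ≤ emultiplicity 2 (x + B) + emultiplicity 2 (x - B) +
            emultiplicity (2 : ℤ) Q := by
          rw [← h3, ← show ((p : ℕ) : ℤ) = 2 by rw [h2]; rfl]
          gcongr
        have h5 : (k : ℕ∞) ≤ emultiplicity 2 (x + B) + emultiplicity 2 (x - B) +
            emultiplicity (2 : ℤ) Q := le_trans le_self_add h4
        rw [h2]
        refine h5.trans (le_of_eq ?_)
        push_cast
        ring
      · have hpQ : ¬ (p : ℕ) ∣ Q := by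
          rw [h2, ← even_iff_two_dvd, Nat.not_even_iff_odd]
          exact hQ
        have hpQ' : ¬ (p : ℤ) ∣ (Q : ℤ) := fun h => hpQ (Int.natCast_dvd_natCast.mp h)
        rw [emultiplicity_pow_sub_pow_of_prime hpZ hpxB hpx
          (by simpa using hpQ')] at hkd
        refine hkd.trans ?_
        refine le_trans ?_ le_add_self
        exact le_self_add
    · rw [Int.emultiplicity_pow_sub_pow hp hodd hpxB hpx] at hkd
      have h3 : emultiplicity (p : ℤ) (Q : ℤ) = emultiplicity p Q := Int.natCast_emultiplicity p Q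
      rw [h3]
      refine hkd.trans ?_
      rw [add_comm]
      gcongr
      exact le_self_add
  exact_mod_cast h0

end Pool.Agent.K9h9.AA
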