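import Mathlib
import Pool.Agent.K9h9.AA.PartA2

/-!
# Powers which are differences of two equal powers of congruent numbers; the first part of the proof
-/

set_option autoImplicit false

namespace Pool.Agent.K9h9.AA

open Finset Pool.Agent.K9h9.CB Pool.Agent.K9h9.SR Pool.Agent.K9h9.RD Pool.Agent.K9h9.XR

/-- `n ^ P` is not the difference of the `Q`-th powers of two numbers congruent modulo `n`, `Q ≥ 3` -/
lemma case_deg {n y A Q P : ℕ} (hn : 14 ≤ n) (hcop : Nat.Coprime n y) (hQ : 3 ≤ Q)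
    (hne : y ≠ A) (hcong : (n : ℤ) ∣ y - A ∨ (n : ℤ) ∣ y + A) (hP : 0 < P)
    (heq : n ^ P + y ^ Q = A ^ Q ∨ n ^ P + A ^ Q = y ^ Q ∨ y ^ Q + A ^ Q = n ^ P) : False := by
  have hcopZ : IsCoprime (n : ℤ) (y : ℤ) := Nat.isCoprime_iff_coprime.mpr hcop
  obtain ⟨δ, hδ, hδn⟩ : ∃ δ : ℤ, (δ = 1 ∨ δ = -1) ∧ (n : ℤ) ∣ y - δ * A := by
    rcases hcong with h | h
    · exact ⟨1, Or.inl rfl, by rw [one_mul]; exact h⟩
    · exact ⟨-1, Or.inr rfl, by rw [neg_one_mul, sub_neg_eq_add]; exact h⟩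
  obtain ⟨s, t, hs, ht, hst⟩ : ∃ s t : ℤ, (s = 1 ∨ s = -1) ∧ (t = 1 ∨ t = -1) ∧
      (n : ℤ) ^ P = s * (y ^ Q - t * A ^ Q) := by
    rcases heq with h | h | h
    · refine ⟨-1, 1, Or.inr rfl, Or.inl rfl, ?_⟩
      have : (n : ℤ) ^ P + y ^ Q = A ^ Q := by exact_mod_cast h
      linarith
    · refine ⟨1, 1, Or.inl rfl, Or.inl rfl, ?_⟩
      have : (n : ℤ) ^ P + A ^ Q = y ^ Q := by exact_mod_cast h
      linarith
    · refine ⟨1, -1, Or.inl rfl, Or.inr rfl, ?_⟩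
      have : (y : ℤ) ^ Q + A ^ Q = n ^ P := by exact_mod_cast h
      linarith
  have hnP : (n : ℤ) ∣ (n : ℤ) ^ P := dvd_pow_self _ hP.ne'
  have hδQ : δ ^ Q = 1 ∨ δ ^ Q = -1 := by
    rcases hδ with rfl | rfl
    · exact Or.inl (one_pow Q)
    · exact neg_one_pow_eq_or ℤ Q
  have hcopA : IsCoprime (n : ℤ) ((A : ℤ) ^ Q) := by
    apply IsCoprime.pow_right
    obtain ⟨k, hk⟩ := hδn
    have h1 : (y : ℤ) = δ * A + n * k := by linarith
    rw [h1] at hcopZ
    have h2 : IsCoprime (n : ℤ) (δ * A) := IsCoprime.of_add_mul_left_right hcopZ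
    exact h2.of_mul_right_right
  have htδ : t = δ ^ Q := by
    have h1 : (n : ℤ) ∣ (δ ^ Q - t) * A ^ Q := by
      have h2 : (n : ℤ) ∣ (y : ℤ) ^ Q - (δ * A) ^ Q := hδn.trans (sub_dvd_pow_sub_pow _ _ Q)
      have h3 : (δ ^ Q - t) * (A : ℤ) ^ Q = s * (n : ℤ) ^ P - (y ^ Q - (δ * A) ^ Q) := by
        rw [hst, mul_pow]
        rcases hs with rfl | rfl <;> ring
      rw [h3]
      exact dvd_sub (hnP.mul_left _) h2
    have h2 : (n : ℤ) ∣ δ ^ Q - t := hcopA.dvd_of_dvd_mul_right h1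
    have h3 : δ ^ Q - t = 0 := by
      refine Int.eq_zero_of_abs_lt_dvd h2 ?_
      have hnZ : (14 : ℤ) ≤ n := by exact_mod_cast hn
      rw [abs_lt]
      rcases hδQ with h | h <;> rcases ht with h' | h' <;> rw [h, h'] <;> constructor <;> linarith
    linarith
  have hdvd : ((n : ℤ) ^ P) ∣ (y : ℤ) ^ Q - (δ * A) ^ Q := by
    rw [mul_pow, ← htδ]
    rcases hs with h | h
    · rw [hst, h, one_mul]
    · refine ⟨-1, ?_⟩
      rw [hst, h]
      ring
  have hlte := lte_dvd hδn hcopZ hdvd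
  have h5 : ((y : ℤ) - δ * A) * (y + δ * A) = (y : ℤ) ^ 2 - A ^ 2 := by
    have : δ * δ = 1 := by rcases hδ with rfl | rfl <;> norm_num
    linear_combination (-(A : ℤ) ^ 2) * this
  rw [h5] at hlte
  obtain ⟨H, hH⟩ : ∃ H, H = max y A := ⟨_, rfl⟩
  have hyH : y ≤ H := by rw [hH]; exact le_max_left _ _
  have hAH : A ≤ H := by rw [hH]; exact le_max_right _ _
  have hsq0 : (y : ℤ) ^ 2 - A ^ 2 ≠ 0 := by
    intro h
    have h6 : (y : ℤ) ^ 2 = A ^ 2 := by linarith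
    have h7 : y ^ 2 = A ^ 2 := by exact_mod_cast h6
    exact hne (Nat.pow_left_injective two_ne_zero h7)
  have hne0 : (Q : ℤ) * ((y : ℤ) ^ 2 - A ^ 2) ≠ 0 := by
    apply mul_ne_zero _ hsq0
    exact_mod_cast (by omega : Q ≠ 0)
  have hle := Int.le_of_dvd (abs_pos.mpr hne0) ((dvd_abs _ _).mpr hlte)
  rw [abs_mul, Nat.abs_cast] at hle
  -- the size of `H`
  have hnH : n ≤ 2 * H := by
    have h6 : (y : ℤ) - δ * A ≠ 0 := by
      intro h
      rw [h, zero_mul] at h5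
      exact hsq0 h5.symm
    have h7 := Int.le_of_dvd (abs_pos.mpr h6) ((dvd_abs _ _).mpr hδn)
    have h8 : |(y : ℤ) - δ * A| ≤ y + A := by
      rcases hδ with rfl | rfl <;> rw [abs_le] <;> constructor <;> push_cast <;> omega
    have h9 : (n : ℤ) ≤ 2 * H := by
      have : (y : ℤ) ≤ H := by exact_mod_cast hyH
      have : (A : ℤ) ≤ H := by exact_mod_cast hAH
      linarith
    exact_mod_cast h9
  have hH7 : 7 ≤ H := by omega
  -- lower bound
  obtain ⟨Q', rfl⟩ : ∃ Q', Q = Q' + 3 := ⟨Q - 3, by omega⟩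
  have key : ∀ a b : ℕ, a < b → H = b → ((y : ℤ) ^ 2 - A ^ 2 = b ^ 2 - a ^ 2 ∨
      (y : ℤ) ^ 2 - A ^ 2 = a ^ 2 - b ^ 2) → (b : ℤ) ^ (Q' + 3) - a ^ (Q' + 3) ≤ n ^ P → False := by
    intro a b hlt hHb hsq hlow
    have habZ : (a : ℤ) < b := by exact_mod_cast hlt
    have ha0 : (0 : ℤ) ≤ a := Int.natCast_nonneg a
    have hb7 : (7 : ℤ) ≤ b := by rw [← hHb]; exact_mod_cast hH7
    have e1 : |(y : ℤ) ^ 2 - A ^ 2| = b ^ 2 - a ^ 2 := by
      have hnn : (0 : ℤ) ≤ b ^ 2 - a ^ 2 := by nlinarith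
      rcases hsq with h | h
      · rw [h, abs_of_nonneg hnn]
      · rw [h, abs_of_nonpos (by linarith)]
        ring
    rw [e1] at hle
    have e2 : ((b : ℤ) - a) * b ^ (Q' + 2) ≤ b ^ (Q' + 3) - a ^ (Q' + 3) := by
      have : (a : ℤ) ^ (Q' + 2) ≤ b ^ (Q' + 2) := pow_le_pow_left₀ ha0 habZ.le _
      have e3 : (b : ℤ) ^ (Q' + 3) = b * b ^ (Q' + 2) := by ring
      have e4 : (a : ℤ) ^ (Q' + 3) = a * a ^ (Q' + 2) := by ring
      rw [e3, e4]
      nlinarith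
    have e5 : ((b : ℤ) - a) * b ^ (Q' + 2) ≤ ((b : ℤ) - a) * ((Q' + 3 : ℕ) * (2 * b)) := by
      calc ((b : ℤ) - a) * b ^ (Q' + 2) ≤ n ^ P := e2.trans hlow
        _ ≤ ((Q' + 3 : ℕ) : ℤ) * (b ^ 2 - a ^ 2) := hle
        _ = ((b : ℤ) - a) * ((Q' + 3 : ℕ) * (b + a)) := by ring
        _ ≤ _ := by
          apply mul_le_mul_of_nonneg_left _ (by linarith)
          apply mul_le_mul_of_nonneg_left _ (by positivity)
          linarith
    have e6 : (b : ℤ) ^ (Q' + 2) ≤ (Q' + 3 : ℕ) * (2 * b) :=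
      le_of_mul_le_mul_left e5 (by linarith)
    have e7 : (b : ℤ) ^ (Q' + 1) ≤ (Q' + 3 : ℕ) * 2 := by
      have e8 : (b : ℤ) ^ (Q' + 1) * b ≤ ((Q' + 3 : ℕ) * 2) * b := by
        calc (b : ℤ) ^ (Q' + 1) * b = b ^ (Q' + 2) := by ring
          _ ≤ _ := e6
          _ = _ := by ring
      exact le_of_mul_le_mul_right e8 (by linarith)
    have e9 : ((Q' + 3 : ℕ) : ℤ) * 2 < 7 ^ (Q' + 1) := by
      clear * -
      induction Q' with
      | zero => norm_num
      | succ k ih =>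
        have : (7 : ℤ) ^ (k + 1 + 1) = 7 * 7 ^ (k + 1) := by ring
        rw [this]
        push_cast at ih ⊢
        linarith
    have e10 : (7 : ℤ) ^ (Q' + 1) ≤ b ^ (Q' + 1) := pow_le_pow_left₀ (by norm_num) hb7 _
    linarith
  rcases lt_or_gt_of_ne hne with h | h
  · refine key y A h (by rw [hH, max_eq_right h.le]) (Or.inr rfl) ?_
    rcases heq with h6 | h6 | h6
    · have : (n : ℤ) ^ P + y ^ (Q' + 3) = A ^ (Q' + 3) := by exact_mod_cast h6
      linarith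
    · have h7 : y ^ (Q' + 3) ≤ A ^ (Q' + 3) := Nat.pow_le_pow_left h.le _
      have h8 : 0 < n ^ P := by positivity
      omega
    · have h7 : (y : ℤ) ^ (Q' + 3) + A ^ (Q' + 3) = n ^ P := by exact_mod_cast h6
      have h8 : (0 : ℤ) ≤ (y : ℤ) ^ (Q' + 3) := by positivity
      linarith
  · refine key A y h (by rw [hH, max_eq_left h.le]) (Or.inl rfl) ?_
    rcases heq with h6 | h6 | h6
    · have h7 : A ^ (Q' + 3) ≤ y ^ (Q' + 3) := Nat.pow_le_pow_left h.le _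
      have h8 : 0 < n ^ P := by positivity
      omega
    · have : (n : ℤ) ^ P + A ^ (Q' + 3) = y ^ (Q' + 3) := by exact_mod_cast h6
      linarith
    · have h7 : (y : ℤ) ^ (Q' + 3) + A ^ (Q' + 3) = n ^ P := by exact_mod_cast h6
      have h8 : (0 : ℤ) ≤ (A : ℤ) ^ (Q' + 3) := by positivity
      linarith

/-- The first part: a base `x` with a divisor `n` which has a large divisor `D` without prime factors
`1` modulo `l` -/
lemma part_a (K c : ℕ) : ∃ l₀ : ℕ, ∀ x n y z w k q l D : ℕ, l.Prime → l₀ ≤ l → 14 ≤ n → 2 ^ K < n →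
    D ∣ n → n ≤ D ^ K → (∀ ℓ : ℕ, ℓ.Prime → ℓ ∣ D → ¬ l ∣ ℓ - 1) → Nat.Coprime n y → 0 < k → 0 < q →
    q ≤ c * k → 0 < x → n ∣ x → x ≤ n ^ c → y ≤ n ^ c → w ^ l ≤ n ^ c →
    ((n : ℤ) ∣ y - w ^ l ∨ (n : ℤ) ∣ y + w ^ l) →
    (z ^ l ≠ w ^ (l * q) ∨ (x = n ∧ 3 ≤ q)) → EqX (x ^ k) y z q l → False := by
  obtain ⟨l₁, h₁⟩ := case_pow (K * (c * c + c) + 1)
  obtain ⟨l₂, h₂⟩ := case_main K c
  refine ⟨l₁ + l₂, ?_⟩
  intro x n y z w k q l D hl hll hn14 hnK hDn hnD hprime hcop hk hq hqk hx0 hnx hxn hyn hwn hcong hdeg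
    heq
  have hn0 : 0 < n := by omega
  have hD0 : 0 < D := Nat.pos_of_dvd_of_pos hDn hn0
  have hD3 : 3 ≤ D := by
    by_contra hcon
    have h1 : D ^ K ≤ 2 ^ K := Nat.pow_le_pow_left (by omega) K
    omega
  have hl0 := hl.pos
  have hnX : n ^ k ∣ x ^ k := pow_dvd_pow_of_dvd hnx k
  have hXn : x ^ k ≤ n ^ (c * k) := by
    rw [pow_mul]
    exact Nat.pow_le_pow_left hxn k
  have hX0 : 0 < x ^ k := by positivity
  have hnxk : n ∣ x ^ k := (dvd_pow_self n hk.ne').trans hnX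
  have hcopZ : IsCoprime (n : ℤ) (y : ℤ) := Nat.isCoprime_iff_coprime.mpr hcop
  have hwnZ : IsCoprime (n : ℤ) ((w : ℤ) ^ l) := by
    rcases hcong with ⟨j, hj⟩ | ⟨j, hj⟩
    · have h1 : (y : ℤ) = w ^ l + n * j := by linarith
      rw [h1] at hcopZ
      exact IsCoprime.of_add_mul_left_right hcopZ
    · have h1 : (y : ℤ) = -(w ^ l) + n * j := by linarith
      rw [h1] at hcopZ
      have h2 := IsCoprime.of_add_mul_left_right hcopZ
      exact (IsCoprime.neg_right_iff _ _).mp h2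
  have hcopw : Nat.Coprime n (w ^ l) := Nat.isCoprime_iff_coprime.mp (by exact_mod_cast hwnZ)
  have hcopw1 : Nat.Coprime n w := (Nat.coprime_pow_right_iff hl0 _ _).mp hcopw
  have hy0 : 0 < y := by
    rcases Nat.eq_zero_or_pos y with h | h
    · rw [h, Nat.coprime_zero_right] at hcop
      omega
    · exact h
  have hw0 : 0 < w := by
    rcases Nat.eq_zero_or_pos w with h | h
    · rw [h, Nat.coprime_zero_right] at hcopw1
      omega
    · exact h
  have hz0 : 0 < z := by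
    rcases Nat.eq_zero_or_pos z with h | h
    · exfalso
      have h1 : z ^ l = 0 := by rw [h]; exact zero_pow hl.ne_zero
      have h3 : n ∣ y ^ q → False := by
        intro h4
        have h5 : Nat.Coprime n (y ^ q) := hcop.pow_right q
        have h6 := Nat.dvd_gcd dvd_rfl h4
        rw [h5] at h6
        have := Nat.dvd_one.mp h6
        omega
      rcases heq with h2 | h2 | h2
      · omega
      · rw [h1, add_zero] at h2
        exact h3 (h2 ▸ hnxk)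
      · rw [h1, add_zero] at h2
        exact h3 (h2 ▸ hnxk)
    · exact h
  -- case of an `l`-th power
  have hpow : ∀ v : ℕ, Nat.Coprime n v → y ^ q = v ^ l → False := by
    intro v hv hyv
    have hT : D ^ k ∣ x ^ k := (pow_dvd_pow_of_dvd hDn k).trans hnX
    have hbound : y ^ q ≤ (D ^ k) ^ (K * (c * c + c)) := by
      calc y ^ q ≤ (n ^ c) ^ q := Nat.pow_le_pow_left hyn q
        _ = n ^ (c * q) := by rw [← pow_mul]
        _ ≤ n ^ (c * (c * k)) := Nat.pow_le_pow_right hn0 (Nat.mul_le_mul_left _ hqk)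
        _ ≤ (D ^ K) ^ (c * (c * k)) := Nat.pow_le_pow_left hnD _
        _ = D ^ (k * (K * (c * c))) := by rw [← pow_mul]; congr 1; ring
        _ ≤ D ^ (k * (K * (c * c + c))) :=
            Nat.pow_le_pow_right hD0 (Nat.mul_le_mul_left _ (Nat.mul_le_mul_left _ (Nat.le_add_right _ _)))
        _ = _ := by rw [← pow_mul]
    have hbound2 : x ^ k ≤ (D ^ k) ^ (K * (c * c + c)) := by
      calc x ^ k ≤ n ^ (c * k) := hXn
        _ ≤ (D ^ K) ^ (c * k) := Nat.pow_le_pow_left hnD _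
        _ = D ^ (k * (K * c)) := by rw [← pow_mul]; congr 1; ring
        _ ≤ D ^ (k * (K * (c * c + c))) :=
            Nat.pow_le_pow_right hD0 (Nat.mul_le_mul_left _ (Nat.mul_le_mul_left _ (by omega)))
        _ = _ := by rw [← pow_mul]
    have hDP3 : 3 ≤ D ^ k := hD3.trans (Nat.le_self_pow hk.ne' D)
    refine h₁ (x ^ k) (D ^ k) z v l hl (by omega) hDP3 hT ?_ ?_ hX0 ?_ ?_ ?_
    · intro ℓ hℓ hℓD
      exact hprime ℓ hℓ (hℓ.dvd_of_dvd_pow hℓD)
    · exact (hv.coprime_dvd_left hDn).pow_left k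
    · rw [EqX, hyv] at heq
      exact heq
    · rw [← hyv, pow_succ]
      exact le_trans hbound (Nat.le_mul_of_pos_right _ (by omega))
    · calc z ^ l ≤ x ^ k + y ^ q := heq.le
        _ ≤ (D ^ k) ^ (K * (c * c + c)) * 2 := by omega
        _ ≤ (D ^ k) ^ (K * (c * c + c)) * D ^ k := Nat.mul_le_mul_left _ (by omega)
        _ = _ := by rw [← pow_succ]
  by_cases hlq : l ∣ q
  · obtain ⟨j, hj⟩ := hlq
    refine hpow (y ^ j) (hcop.pow_right j) ?_
    rw [hj, ← pow_mul, mul_comm]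
  by_cases hyw : y = w ^ l
  · refine hpow (w ^ q) (hcopw1.pow_right q) ?_
    rw [hyw, ← pow_mul, ← pow_mul, mul_comm]
  by_cases hzw : z = w ^ q
  · rcases hdeg with h3 | ⟨hxn', h3⟩
    · apply h3
      rw [hzw, ← pow_mul, mul_comm]
    · refine case_deg (A := w ^ l) hn14 hcop h3 hyw (by push_cast; exact hcong) hk ?_
      have h4 : z ^ l = (w ^ l) ^ q := by rw [hzw, ← pow_mul, ← pow_mul, mul_comm]
      rw [EqX, h4, hxn'] at heq
      exact heq
  · exact h₂ (x ^ k) n y z w k q l D hl (by omega) hD3 hDn hnD hprime hcopw1.symm hk hq hy0 hz0 hw0 hqk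
      hnX hXn hyn hwn hcong hlq hyw hzw heq

end Pool.Agent.K9h9.AA
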