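import Mathlib
import Pool.Agent.K9h9.AA.B1
import Pool.Agent.K9h9.AA.B2
import Pool.Agent.K9h9.AA.B3
import Pool.Agent.K9h9.AA.B4
import Pool.Agent.K9h9.AA.Dens
import Pool.Agent.K9h9.AA.PartA3

/-!
# Almost all integers are not involved in certain solutions of the Fermat-Catalan equation
-/

set_option autoImplicit false

namespace Pool.Agent.K9h9.AA

open Finset Pool.Agent.K9h9.XR

theorem dens_true : Dens := dens b1 b2 b3 b4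

/-- `n` is a divisor of the base `x` of a solution of the equation, as in the theorem -/
def Bad (c l₀ n : ℕ) : Prop := ∃ x y z w k q l : ℕ, l.Prime ∧ l₀ ≤ l ∧ Nat.Coprime n y ∧ 0 < k ∧ 0 < q ∧
    q ≤ c * k ∧ 0 < x ∧ n ∣ x ∧ x ≤ n ^ c ∧ y ≤ n ^ c ∧ w ^ l ≤ n ^ c ∧
    ((n : ℤ) ∣ y - w ^ l ∨ (n : ℤ) ∣ y + w ^ l) ∧ (z ^ l ≠ w ^ (l * q) ∨ (x = n ∧ 3 ≤ q)) ∧
    EqX (x ^ k) y z q l

theorem aa_main (c : ℕ) (ε : ℝ) (hε : 0 < ε) : ∃ l₀ N₀ : ℕ, ∀ N : ℕ, N₀ ≤ N →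
    (({n : ℕ | 0 < n ∧ n ≤ N ∧ Bad c l₀ n}.ncard : ℕ) : ℝ) ≤ ε * N := by
  obtain ⟨K, l₁, N₁, h1⟩ := dens_true (ε / 2) (by positivity)
  obtain ⟨l₂, h2⟩ := part_a K c
  refine ⟨l₁ + l₂, N₁ + ⌈2 * ((2 ^ K + 14 : ℕ) : ℝ) / ε⌉₊, ?_⟩
  intro N hN
  have hKp : 0 < 2 ^ K := Nat.two_pow_pos K
  obtain ⟨S, hS⟩ : ∃ S : Set ℕ, S = {n : ℕ | 1 ≤ n ∧ n ≤ N ∧ ∃ l : ℕ, l.Prime ∧ l₁ ≤ l ∧
    ∀ D : ℕ, D ∣ n → (∀ p : ℕ, p.Prime → p ∣ D → ¬ l ∣ p - 1) → D ^ K < n} := ⟨_, rfl⟩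
  obtain ⟨T, hT⟩ : ∃ T : Finset ℕ, T = Finset.Icc 1 (2 ^ K + 14) := ⟨_, rfl⟩
  have hsub : {n : ℕ | 0 < n ∧ n ≤ N ∧ Bad c (l₁ + l₂) n} ⊆ S ∪ (T : Set ℕ) := by
    rintro n ⟨hn0, hnN, x, y, z, w, k, q, l, hl, hll, hcop, hk, hq, hqk, hx0, hnx, hxn, hyn, hwn, hcong,
      hdeg, heq⟩
    by_cases hsmall : n ≤ 2 ^ K + 14
    · right
      rw [hT]
      simp only [Finset.coe_Icc, Set.mem_Icc]
      exact ⟨hn0, hsmall⟩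
    left
    rw [hS]
    refine ⟨hn0, hnN, l, hl, by omega, ?_⟩
    intro D hDn hDp
    by_contra hcon
    push Not at hcon
    exact h2 x n y z w k q l D hl (by omega) (by omega) (by omega) hDn hcon hDp hcop hk hq hqk hx0 hnx
      hxn hyn hwn hcong hdeg heq
  have hSfin : S.Finite := by
    rw [hS]
    exact (Set.finite_Iic N).subset fun n hn => hn.2.1
  have h3 := Set.ncard_le_ncard hsub (hSfin.union (Finset.finite_toSet T))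
  have h4 := Set.ncard_union_le S (T : Set ℕ)
  rw [Set.ncard_coe_finset] at h4
  have hTc : T.card = 2 ^ K + 14 := by rw [hT, Nat.card_Icc]; omega
  rw [hTc] at h4
  have h5 : (({n : ℕ | 0 < n ∧ n ≤ N ∧ Bad c (l₁ + l₂) n}.ncard : ℕ) : ℝ) ≤
      (S.ncard : ℝ) + ((2 ^ K + 14 : ℕ) : ℝ) := by exact_mod_cast h3.trans h4
  have h6 : (S.ncard : ℝ) ≤ ε / 2 * N := by
    rw [hS]
    exact h1 N (by omega)
  have h7 : ((2 ^ K + 14 : ℕ) : ℝ) ≤ ε / 2 * N := by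
    have h8 : 2 * ((2 ^ K + 14 : ℕ) : ℝ) / ε ≤ N := by
      refine (Nat.le_ceil _).trans ?_
      exact_mod_cast (by omega : ⌈2 * ((2 ^ K + 14 : ℕ) : ℝ) / ε⌉₊ ≤ N)
    rw [div_le_iff₀ hε] at h8
    linarith
  linarith

end Pool.Agent.K9h9.AA
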