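import Mathlib

/-!
# Statements about the numbers `m ℓ`, `ℓ` a large prime in a residue class
-/

set_option autoImplicit false

namespace Pool.Agent.K9h9.AA

/-- primes in a progression: lower bound -/
def T1 : Prop := ∀ Q u : ℕ, 1 ≤ Q → Nat.Coprime u Q → ∃ c : ℝ, 0 < c ∧ ∃ y₀ : ℕ, ∀ y : ℕ, y₀ ≤ y →
  c * ((y : ℝ) / Real.log y) ≤
    (((Finset.Icc 1 y).filter (fun p : ℕ => p.Prime ∧ p % Q = u % Q)).card : ℝ)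

/-- the numbers `m ℓ ≤ N` with `m` in `G` and `N ≤ m ^ 32`, `ℓ` a prime in a residue class, `m ^ 7 ≤ ℓ`,
have positive density -/
def T2 : Prop := ∀ (G : Set ℕ) (M₀ : ℕ), (∀ M : ℕ, M₀ ≤ M → M ≤ 2 * (G ∩ Set.Ioc M (2 * M)).ncard) →
  ∀ (Q u : ℕ) (c : ℝ) (y₀ : ℕ), 0 < c → (∀ y : ℕ, y₀ ≤ y → c * ((y : ℝ) / Real.log y) ≤
    (((Finset.Icc 1 y).filter (fun p : ℕ => p.Prime ∧ p % Q = u % Q)).card : ℝ)) →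
  ∃ c' : ℝ, 0 < c' ∧ ∃ N₀ : ℕ, ∀ N : ℕ, N₀ ≤ N →
    c' * N ≤ (({x : ℕ | 1 ≤ x ∧ x ≤ N ∧ ∃ m ℓ : ℕ, m ∈ G ∧ ℓ.Prime ∧ ℓ % Q = u % Q ∧ x = m * ℓ ∧
      m ^ 7 ≤ ℓ ∧ N ≤ m ^ 32}.ncard : ℕ) : ℝ)

end Pool.Agent.K9h9.AA
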