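import Mathlib
import Pool.Agent.K9h9.AA.Final
import Pool.Agent.K9h9.AA.E2
import Pool.Agent.K9h9.AA.LeavesT
import Pool.Agent.K9h9.Final1

/-!
# Signature `(p, p, q)`: a positive proportion of the integers are not bases
-/

set_option autoImplicit false

namespace Pool.Agent.K9h9.AA

open Finset Pool.Agent.K9h9.XR

lemma bad_of_pz {c l₀ n p q : ℕ} {y z : ℤ} (hc : 1 ≤ c) (hp : p.Prime) (hp2 : p ≠ 2) (hq : q.Prime)
    (hl₀ : l₀ ≤ q) (hq2 : q ≠ 2) (hy : y ≠ 0) (hz : z ≠ 0) (hcop : IsCoprime (n : ℤ) y)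
    (hyn : |y| ≤ (n : ℤ) ^ c) (heq : (n : ℤ) ^ p + y ^ p = z ^ q) (hn2 : 2 ≤ n)
    (hpz : ¬ (p : ℤ) ∣ z) : Bad (c + 1) l₀ n := by
  have hpodd : Odd p := hp.odd_of_ne_two hp2
  have hqodd : Odd q := hq.odd_of_ne_two hq2
  have hn0 : (n : ℤ) ≠ 0 := by exact_mod_cast (by omega : n ≠ 0)
  obtain ⟨h1, h2⟩ := e2 n y z p q hp hp2 hq hn0 hy hz hcop heq
  have hnc : n ≤ n ^ c := Nat.le_self_pow (by omega) n
  have hsum : (n : ℤ) + y ≠ 0 := by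
    intro h
    have h3 : y = -n := by linarith
    rw [h3, hpodd.neg_pow, add_neg_cancel] at heq
    exact pow_ne_zero _ hz heq.symm
  have hsumle : |(n : ℤ) + y| ≤ 2 * (n : ℤ) ^ c := by
    calc |(n : ℤ) + y| ≤ |(n : ℤ)| + |y| := abs_add_le _ _
      _ ≤ (n : ℤ) ^ c + (n : ℤ) ^ c := by
        rw [Nat.abs_cast]
        have : (n : ℤ) ≤ (n : ℤ) ^ c := by exact_mod_cast hnc
        linarith
      _ = _ := by ring
  obtain ⟨w, hw⟩ := h1 hpz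
  clear h1 h2
  have hn1 : n ^ c ≤ n ^ (c + 1) := Nat.pow_le_pow_right (by omega) (Nat.le_succ c)
  have h2n : 2 * n ^ c ≤ n ^ (c + 1) := by
    rw [pow_succ, mul_comm]
    exact Nat.mul_le_mul_left _ hn2
  have hyN : y.natAbs ≤ n ^ c := by
    have h3 : ((y.natAbs : ℕ) : ℤ) ≤ (n : ℤ) ^ c := by rw [Int.natCast_natAbs]; exact hyn
    exact_mod_cast h3
  have hwN : w ^ q ≤ n ^ (c + 1) := by
    rw [← hw]
    have h3 : (((n : ℤ) + y).natAbs : ℤ) ≤ 2 * (n : ℤ) ^ c := by rw [Int.natCast_natAbs]; exact hsumle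
    have h4 : ((n : ℤ) + y).natAbs ≤ 2 * n ^ c := by exact_mod_cast h3
    omega
  have hp0 := hp.pos
  have hp3 : 3 ≤ p := by
    have := hp.two_le
    omega
  obtain ⟨s, hs, hsy⟩ : ∃ s : ℤ, (s = 1 ∨ s = -1) ∧ y = s * y.natAbs := by
    rcases Int.natAbs_eq y with h | h
    · exact ⟨1, Or.inl rfl, by rw [one_mul]; exact h⟩
    · exact ⟨-1, Or.inr rfl, by rw [neg_one_mul]; exact h⟩
  obtain ⟨t, ht, htz⟩ : ∃ t : ℤ, (t = 1 ∨ t = -1) ∧ z = t * z.natAbs := by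
    rcases Int.natAbs_eq z with h | h
    · exact ⟨1, Or.inl rfl, by rw [one_mul]; exact h⟩
    · exact ⟨-1, Or.inr rfl, by rw [neg_one_mul]; exact h⟩
  obtain ⟨v, hv, hvw⟩ : ∃ v : ℤ, (v = 1 ∨ v = -1) ∧ (n : ℤ) + y = v * w ^ q := by
    have hw' : (((n : ℤ) + y).natAbs : ℤ) = (w : ℤ) ^ q := by rw [hw]; push_cast; rfl
    rcases Int.natAbs_eq ((n : ℤ) + y) with h | h
    · exact ⟨1, Or.inl rfl, by rw [one_mul, ← hw']; exact h⟩
    · exact ⟨-1, Or.inr rfl, by rw [neg_one_mul, ← hw']; exact h⟩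
  obtain ⟨Y, hY⟩ : ∃ Y, Y = y.natAbs := ⟨_, rfl⟩
  obtain ⟨Z, hZ⟩ : ∃ Z, Z = z.natAbs := ⟨_, rfl⟩
  rw [← hY] at hsy hyN
  rw [← hZ] at htz
  refine ⟨n, Y, Z, w, p, p, q, hq, hl₀, ?_, hp0, hp0, ?_, by omega, dvd_rfl, by omega, by omega, hwN,
    ?_, Or.inr ⟨rfl, hp3⟩, ?_⟩
  · have h3 : IsCoprime (n : ℤ) (Y : ℤ) := by
      rw [hsy] at hcop
      exact hcop.of_mul_right_right
    exact Nat.isCoprime_iff_coprime.mp h3
  · nlinarith
  · rw [hsy] at hvw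
    rcases hs with rfl | rfl <;> rcases hv with rfl | rfl
    · left
      refine ⟨-1, ?_⟩
      linarith
    · right
      refine ⟨-1, ?_⟩
      linarith
    · right
      refine ⟨1, ?_⟩
      linarith
    · left
      refine ⟨1, ?_⟩
      linarith
  · rw [hsy, htz, mul_pow, mul_pow] at heq
    have hsp : s ^ p = s := by
      rcases hs with rfl | rfl
      · exact one_pow p
      · exact hpodd.neg_one_pow
    have htq : t ^ q = t := by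
      rcases ht with rfl | rfl
      · exact one_pow q
      · exact hqodd.neg_one_pow
    rw [hsp, htq] at heq
    have hZpos : 0 < Z := by
      rw [hZ]
      exact Int.natAbs_pos.mpr hz
    have e1 : (0 : ℤ) < (Z : ℤ) ^ q := by positivity
    have e2 : (0 : ℤ) < (n : ℤ) ^ p := by positivity
    have e3 : (0 : ℤ) ≤ (Y : ℤ) ^ p := by positivity
    rcases hs with rfl | rfl <;> rcases ht with rfl | rfl
    · left
      have : (n : ℤ) ^ p + Y ^ p = Z ^ q := by linarith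
      exact_mod_cast this
    · exfalso
      linarith
    · right; right
      have : (Y : ℤ) ^ p + Z ^ q = n ^ p := by linarith
      exact_mod_cast this
    · right; left
      have : (n : ℤ) ^ p + Z ^ q = Y ^ p := by linarith
      exact_mod_cast this


lemma no_sol_cofactor : ∃ x₀ : ℕ, ∀ (x : ℕ) (y z : ℤ) (p q D : ℕ), x₀ ≤ x → Sol y x z p q → D ∣ x →
    ¬ q ∣ D * D.totient → (x : ℝ) ≤ D * (max |(y : ℝ)| (x : ℝ)) ^ (1 / 8 : ℝ) → False := by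
  have hfin := finite_bad (η := 1 / 24) (by norm_num) (by norm_num)
  have hfin2 := hfin.image (fun t : ℤ × ℤ × ℤ × ℕ × ℕ => t.2.1.natAbs)
  obtain ⟨B, hB⟩ := hfin2.bddAbove
  refine ⟨B + 1, ?_⟩
  intro x y z p q D hx hsol hD hq hle
  have hmem : x ∈ (fun t : ℤ × ℤ × ℤ × ℕ × ℕ => t.2.1.natAbs) ''
      {t : ℤ × ℤ × ℤ × ℕ × ℕ | Sol t.1 t.2.1 t.2.2.1 t.2.2.2.1 t.2.2.2.2 ∧
      ∃ D : ℕ, (D : ℤ) ∣ t.2.1 ∧ ¬ t.2.2.2.2 ∣ D * D.totient ∧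
        |(t.2.1 : ℝ)| ≤ D * (max |(t.1 : ℝ)| |(t.2.1 : ℝ)|) ^
          (1 / 2 - 1 / (t.2.2.2.2 : ℝ) - 1 / 24)} := by
    refine ⟨(y, x, z, p, q), ⟨hsol, D, Int.natCast_dvd_natCast.mpr hD, hq, ?_⟩, by simp⟩
    have hx1 : (1 : ℝ) ≤ x := by exact_mod_cast (by omega : 1 ≤ x)
    have hxabs : |(x : ℝ)| = x := abs_of_nonneg (by positivity)
    have hm1 : (1 : ℝ) ≤ max |(y : ℝ)| (x : ℝ) := hx1.trans (le_max_right _ _)
    have hq3 : (3 : ℝ) ≤ q := by exact_mod_cast hsol.q3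
    have hexp : (1 / 8 : ℝ) ≤ 1 / 2 - 1 / (q : ℝ) - 1 / 24 := by
      have : 1 / (q : ℝ) ≤ 1 / 3 := by
        apply one_div_le_one_div_of_le (by norm_num) hq3
      linarith
    have h1 : (max |(y : ℝ)| (x : ℝ)) ^ (1 / 8 : ℝ) ≤
        (max |(y : ℝ)| (x : ℝ)) ^ (1 / 2 - 1 / (q : ℝ) - 1 / 24) :=
      Real.rpow_le_rpow_of_exponent_le hm1 hexp
    show |(((x : ℕ) : ℤ) : ℝ)| ≤ (D : ℝ) * (max |(y : ℝ)| |(((x : ℕ) : ℤ) : ℝ)|) ^
      (1 / 2 - 1 / (q : ℝ) - 1 / 24)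
    rw [Int.cast_natCast, hxabs]
    exact hle.trans (mul_le_mul_of_nonneg_left h1 (by positivity))
  have h2 := hB hmem
  omega

/-- Numbers `x = m ℓ` which are not bases -/
theorem good_main (K : ℕ) : ∃ q₀ : ℕ, ∀ q₁ : ℕ, q₀ ≤ q₁ → ∃ x₀ : ℕ, ∀ x m ℓ : ℕ, x₀ ≤ x →
    x = m * ℓ → ℓ.Prime → m ^ 7 ≤ ℓ →
    (∀ q : ℕ, q.Prime → 3 ≤ q → q < q₁ → ¬ q ∣ ℓ - 1) →
    (∀ q : ℕ, q.Prime → q₁ ≤ q → ∃ D : ℕ, D ∣ m ∧ x ≤ D ^ K ∧
      ∀ p : ℕ, p.Prime → p ∣ D → ¬ q ∣ p - 1) →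
    ∀ (y z : ℤ) (p q : ℕ), Sol x y z p q → False := by
  obtain ⟨l₀, h₀⟩ := part_a K 9
  obtain ⟨x₁, h₁⟩ := no_sol_cofactor
  refine ⟨l₀ + 3, ?_⟩
  intro q₁ hq₁
  refine ⟨x₁ + q₁ ^ 2 + 2 ^ K + 15, ?_⟩
  intro x m ℓ hx' hxm hℓ hmℓ hsmall hlarge y z p q hsol
  obtain ⟨A, hA⟩ : ∃ A, A = q₁ ^ 2 := ⟨_, rfl⟩
  obtain ⟨B, hB⟩ : ∃ B, B = 2 ^ K := ⟨_, rfl⟩
  have hx : x₁ + A + B + 15 ≤ x := by rw [hA, hB]; exact hx'
  clear hx'
  have hx0 : 0 < x := by omega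
  have hm0 : 0 < m := by
    rcases Nat.eq_zero_or_pos m with h | h
    · rw [h, zero_mul] at hxm
      omega
    · exact h
  have hx1R : (1 : ℝ) ≤ x := by exact_mod_cast (by omega : 1 ≤ x)
  by_cases hq : q < q₁
  · -- `D = ℓ`
    have hℓ2 : x ≤ ℓ ^ 2 := by
      have : m ≤ ℓ := (Nat.le_self_pow (by norm_num) m).trans hmℓ
      rw [hxm, sq]
      exact Nat.mul_le_mul_right _ this
    have hℓq : q₁ < ℓ := by
      by_contra hcon
      have h2 : ℓ ^ 2 ≤ A := by rw [hA]; exact Nat.pow_le_pow_left (by omega) 2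
      omega
    refine h₁ x y z p q ℓ (by omega) hsol.symm ⟨m, by rw [hxm, mul_comm]⟩ ?_ ?_
    · rw [Nat.totient_prime hℓ]
      intro h2
      rcases (Nat.Prime.dvd_mul hsol.qp).mp h2 with h3 | h3
      · have := (Nat.prime_dvd_prime_iff_eq hsol.qp hℓ).mp h3
        omega
      · exact hsmall q hsol.qp hsol.q3 hq h3
    · have h2 : (m : ℝ) ≤ (max |(y : ℝ)| (x : ℝ)) ^ (1 / 8 : ℝ) := by
        have h3 : m ^ 8 ≤ x := by
          rw [hxm, pow_succ, mul_comm]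
          exact Nat.mul_le_mul_left _ hmℓ
        have h4 : (m : ℝ) ^ 8 ≤ max |(y : ℝ)| (x : ℝ) := by
          refine le_trans ?_ (le_max_right _ _)
          exact_mod_cast h3
        calc (m : ℝ) = ((m : ℝ) ^ (8 : ℕ)) ^ (1 / 8 : ℝ) := by
              rw [← Real.rpow_natCast, ← Real.rpow_mul (by positivity)]
              norm_num
          _ ≤ _ := Real.rpow_le_rpow (by positivity) h4 (by norm_num)
      have h5 : (x : ℝ) = (ℓ : ℝ) * m := by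
        rw [hxm]
        push_cast
        ring
      rw [h5]
      rw [h5] at h2
      exact mul_le_mul_of_nonneg_left h2 (by positivity)
  · push Not at hq
    by_cases hy : (x : ℤ) ^ 8 ≤ |y|
    · -- `D = 1`
      refine h₁ x y z p q 1 (by omega) hsol.symm (one_dvd x) ?_ ?_
      · rw [Nat.totient_one, mul_one]
        intro h2
        have := Nat.le_of_dvd one_pos h2
        have := hsol.q3
        omega
      · have h4 : (x : ℝ) ^ 8 ≤ max |(y : ℝ)| (x : ℝ) := by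
          refine le_trans ?_ (le_max_left _ _)
          exact_mod_cast hy
        have h5 : (x : ℝ) ≤ (max |(y : ℝ)| (x : ℝ)) ^ (1 / 8 : ℝ) := by
          calc (x : ℝ) = ((x : ℝ) ^ (8 : ℕ)) ^ (1 / 8 : ℝ) := by
                rw [← Real.rpow_natCast, ← Real.rpow_mul (by positivity)]
                norm_num
            _ ≤ _ := Real.rpow_le_rpow (by positivity) h4 (by norm_num)
        simpa using h5
    · push Not at hy
      have hbad := bad_of_pz (c := 8) (l₀ := q₁) (n := x) (by norm_num) hsol.pp hsol.p2 hsol.qp hq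
        hsol.q2 hsol.y0 hsol.z0 hsol.cop hy.le hsol.eq (by omega) hsol.pz
      obtain ⟨x', y', z', w, k, q', l, hl, hll, hcop, hk, hq', hqk, hx0', hnx, hxn, hyn, hwn, hcong,
        hdeg, heq⟩ := hbad
      obtain ⟨D, hDm, hxD, hDp⟩ := hlarge l hl hll
      have hDx : D ∣ x := by
        rw [hxm]
        exact hDm.mul_right ℓ
      exact h₀ x' x y' z' w k q' l D hl (by omega) (by omega) (by rw [← hB]; omega) hDx hxD hDp hcop hk hq' hqk hx0'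
        hnx hxn hyn hwn hcong hdeg heq

theorem pos_main (t1 : T1) (t2 : T2) : ∃ c : ℝ, 0 < c ∧ ∃ N₀ : ℕ, ∀ N : ℕ, N₀ ≤ N →
    c * N ≤ (({x : ℕ | 0 < x ∧ x ≤ N ∧ ∀ (y z : ℤ) (p q : ℕ), ¬ Sol x y z p q}.ncard : ℕ) : ℝ) := by
  obtain ⟨K₀, l₁, N₁, hdens⟩ := dens_true (1 / 8) (by norm_num)
  obtain ⟨q₀, hgood⟩ := good_main (32 * K₀)
  obtain ⟨q₁, hq₁⟩ : ∃ q₁ : ℕ, q₁ = q₀ + l₁ := ⟨_, rfl⟩
  obtain ⟨x₀, hgood⟩ := hgood q₁ (by omega)
  obtain ⟨G, hG⟩ : ∃ G : Set ℕ, G = {m : ℕ | ∀ q : ℕ, q.Prime → q₁ ≤ q → ∃ D : ℕ, D ∣ m ∧ m ≤ D ^ K₀ ∧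
    ∀ p : ℕ, p.Prime → p ∣ D → ¬ q ∣ p - 1} := ⟨_, rfl⟩
  -- the set `G` is dense
  have hGd : ∀ M : ℕ, N₁ ≤ M → M ≤ 2 * (G ∩ Set.Ioc M (2 * M)).ncard := by
    intro M hM
    obtain ⟨S, hS⟩ : ∃ S : Set ℕ, S = {n : ℕ | 1 ≤ n ∧ n ≤ 2 * M ∧ ∃ l : ℕ, l.Prime ∧ l₁ ≤ l ∧
      ∀ D : ℕ, D ∣ n → (∀ p : ℕ, p.Prime → p ∣ D → ¬ l ∣ p - 1) → D ^ K₀ < n} := ⟨_, rfl⟩
    have h1 : (S.ncard : ℝ) ≤ 1 / 8 * ((2 * M : ℕ) : ℝ) := by
      rw [hS]
      exact hdens (2 * M) (by omega)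
    have hSfin : S.Finite := by
      rw [hS]
      exact (Set.finite_Iic (2 * M)).subset fun n hn => hn.2.1
    have hGfin : (G ∩ Set.Ioc M (2 * M)).Finite :=
      (Set.finite_Ioc M (2 * M)).subset Set.inter_subset_right
    have hsub : Set.Ioc M (2 * M) ⊆ (G ∩ Set.Ioc M (2 * M)) ∪ S := by
      intro n hn
      by_cases hnG : n ∈ G
      · left
        exact ⟨hnG, hn⟩
      · right
        rw [hG] at hnG
        simp only [Set.mem_setOf_eq, not_forall] at hnG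
        obtain ⟨q, hq, hqq, hno⟩ := hnG
        rw [hS]
        refine ⟨by have := hn.1; omega, hn.2, q, hq, by omega, ?_⟩
        intro D hD hDp
        by_contra hcon
        exact hno ⟨D, hD, not_lt.mp hcon, hDp⟩
    have h2 := Set.ncard_le_ncard hsub (hGfin.union hSfin)
    have h3 := Set.ncard_union_le (G ∩ Set.Ioc M (2 * M)) S
    have h4 : (Set.Ioc M (2 * M)).ncard = M := by
      rw [← Finset.coe_Ioc, Set.ncard_coe_finset, Nat.card_Ioc]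
      omega
    rw [h4] at h2
    have h5 : (M : ℝ) ≤ ((G ∩ Set.Ioc M (2 * M)).ncard : ℝ) + S.ncard := by exact_mod_cast h2.trans h3
    have h6 : (M : ℝ) ≤ 2 * ((G ∩ Set.Ioc M (2 * M)).ncard : ℝ) := by
      push_cast at h1
      have : (0 : ℝ) ≤ M := by positivity
      linarith
    exact_mod_cast h6
  -- the modulus
  obtain ⟨Q, hQ⟩ : ∃ Q : ℕ, Q = ∏ q ∈ (Finset.range q₁).filter (fun q => q.Prime ∧ 3 ≤ q), q := ⟨_, rfl⟩
  have hQ1 : 1 ≤ Q := by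
    rw [hQ]
    refine Nat.one_le_iff_ne_zero.mpr (Nat.pos_iff_ne_zero.mp (Finset.prod_pos ?_))
    intro q hq
    exact (Finset.mem_filter.mp hq).2.1.pos
  have hQ2 : Nat.Coprime 2 Q := by
    rw [hQ]
    apply Nat.Coprime.prod_right
    intro q hq
    have h1 := (Finset.mem_filter.mp hq).2
    rw [Nat.coprime_primes Nat.prime_two h1.1]
    omega
  obtain ⟨c, hc, y₀, hAP⟩ := t1 Q 2 hQ1 hQ2
  obtain ⟨c', hc', N₂, hcount⟩ := t2 G N₁ hGd Q 2 c y₀ hc hAP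
  refine ⟨c' / 2, by positivity, N₂ + ⌈2 * (x₀ : ℝ) / c'⌉₊, ?_⟩
  intro N hN
  have h1 := hcount N (by omega)
  obtain ⟨S, hS⟩ : ∃ S : Set ℕ, S = {x : ℕ | 1 ≤ x ∧ x ≤ N ∧ ∃ m ℓ : ℕ, m ∈ G ∧ ℓ.Prime ∧
    ℓ % Q = 2 % Q ∧ x = m * ℓ ∧ m ^ 7 ≤ ℓ ∧ N ≤ m ^ 32} := ⟨_, rfl⟩
  rw [← hS] at h1
  have hsub : S ⊆ {x : ℕ | 0 < x ∧ x ≤ N ∧ ∀ (y z : ℤ) (p q : ℕ), ¬ Sol x y z p q} ∪
      ((Finset.range x₀ : Finset ℕ) : Set ℕ) := by
    intro x hx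
    rw [hS] at hx
    obtain ⟨hx1, hxN, m, ℓ, hmG, hℓ, hℓQ, hxm, hmℓ, hNm⟩ := hx
    by_cases hx0 : x < x₀
    · right
      rw [Finset.coe_range]
      exact hx0
    left
    refine ⟨hx1, hxN, ?_⟩
    intro y z p q hsol
    refine hgood x m ℓ (not_lt.mp hx0) hxm hℓ hmℓ ?_ ?_ y z p q hsol
    · intro r hr hr3 hrq h2
      have hrQ : r ∣ Q := by
        rw [hQ]
        exact Finset.dvd_prod_of_mem _ (Finset.mem_filter.mpr ⟨Finset.mem_range.mpr hrq, hr, hr3⟩)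
      have h3 : ℓ ≡ 2 [MOD r] := Nat.ModEq.of_dvd hrQ hℓQ
      have h4 : 1 ≡ ℓ [MOD r] := (Nat.modEq_iff_dvd' hℓ.one_lt.le).mpr h2
      have h5 := h4.trans h3
      have h6 := (Nat.modEq_iff_dvd' (by norm_num : 1 ≤ 2)).mp h5
      have := Nat.le_of_dvd (by norm_num) h6
      omega
    · intro r hr hrq
      rw [hG] at hmG
      obtain ⟨D, hDm, hmD, hDp⟩ := hmG r hr hrq
      refine ⟨D, hDm, ?_, hDp⟩
      calc x ≤ N := hxN
        _ ≤ m ^ 32 := hNm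
        _ ≤ (D ^ K₀) ^ 32 := Nat.pow_le_pow_left hmD 32
        _ = D ^ (32 * K₀) := by rw [← pow_mul, mul_comm]
  have hfin1 : {x : ℕ | 0 < x ∧ x ≤ N ∧ ∀ (y z : ℤ) (p q : ℕ), ¬ Sol x y z p q}.Finite :=
    (Set.finite_Iic N).subset fun n hn => hn.2.1
  have h2 := Set.ncard_le_ncard hsub (hfin1.union (Finset.finite_toSet _))
  have h3 := Set.ncard_union_le {x : ℕ | 0 < x ∧ x ≤ N ∧ ∀ (y z : ℤ) (p q : ℕ), ¬ Sol x y z p q}
    ((Finset.range x₀ : Finset ℕ) : Set ℕ)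
  rw [Set.ncard_coe_finset, Finset.card_range] at h3
  have h4 : (S.ncard : ℝ) ≤
      ({x : ℕ | 0 < x ∧ x ≤ N ∧ ∀ (y z : ℤ) (p q : ℕ), ¬ Sol x y z p q}.ncard : ℝ) + x₀ := by
    exact_mod_cast h2.trans h3
  have h5 : (x₀ : ℝ) ≤ c' / 2 * N := by
    have h6 : 2 * (x₀ : ℝ) / c' ≤ N := by
      refine (Nat.le_ceil _).trans ?_
      exact_mod_cast (by omega : ⌈2 * (x₀ : ℝ) / c'⌉₊ ≤ N)
    rw [div_le_iff₀ hc'] at h6
    linarith
  linarith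

end Pool.Agent.K9h9.AA
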