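import Mathlib
import Pool.Agent.K9h9.AA.Final4
import Pool.Agent.TH863.Cover
import Pool.Agent.TH863.D.Gcd

/-!
# Signature `(p, p, q)`: a positive proportion of the integers are not bases in any position
-/

set_option autoImplicit false

namespace Pool.Agent.K9h9.AA

open Finset

/-- the numbers which are the third base of a sum -/
def SumSet (N : ℕ) : Set ℕ := {z : ℕ | z ≤ N ∧ ∃ x y p r : ℕ, 0 < x ∧ 0 < y ∧ p.Prime ∧ r.Prime ∧
  Nat.Coprime x y ∧ (1 : ℚ) / p + 1 / p + 1 / r ≤ 1 ∧ x ^ p + y ^ p = z ^ r}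

/-- the numbers which are the third base of a difference -/
def DiffSet (N : ℕ) : Set ℕ := {b : ℕ | 0 < b ∧ b ≤ N ∧ ∃ a c m n k : ℕ, 0 < a ∧ 0 < c ∧
  Nat.Coprime a c ∧ ((Odd n ∧ 3 ≤ n ∧ 3 ≤ Nat.gcd m k) ∨
    (n = 2 ∧ ∃ p : ℕ, p.Prime ∧ 5 ≤ p ∧ p ∣ m ∧ p ∣ k)) ∧ a ^ m + b ^ n = c ^ k}

lemma sumSet_small (c : ℝ) (hc : 0 < c) : ∃ N₀ : ℕ, ∀ N : ℕ, N₀ ≤ N →
    ((SumSet N).ncard : ℝ) ≤ c * N := by
  obtain ⟨C, hC⟩ := Pool.Agent.TH863.final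
  obtain ⟨A, hA⟩ : ∃ A : ℝ, A = |C| * (60 ^ 5 * 3) / c := ⟨_, rfl⟩
  have hA0 : 0 ≤ A := by rw [hA]; positivity
  refine ⟨⌈A ^ (12 : ℕ)⌉₊ + 1, ?_⟩
  intro N hN
  have hN1 : 1 ≤ N := by omega
  have hNR : (1 : ℝ) ≤ N := by exact_mod_cast hN1
  have hN0 : (0 : ℝ) < N := by linarith
  have h1 : ((SumSet N).ncard : ℝ) ≤ C * (N : ℝ) ^ (5 / 6 : ℝ) * (Real.log (N + 2)) ^ 5 := hC N hN1
  have h2 : Real.log ((N : ℝ) + 2) ≤ 60 * ((N : ℝ) + 2) ^ (1 / 60 : ℝ) := by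
    have := Real.log_le_rpow_div (x := (N : ℝ) + 2) (by linarith) (ε := 1 / 60) (by norm_num)
    linarith
  have hlog0 : 0 ≤ Real.log ((N : ℝ) + 2) := Real.log_nonneg (by linarith)
  have h3 : (Real.log ((N : ℝ) + 2)) ^ 5 ≤ 60 ^ 5 * 3 * (N : ℝ) ^ (1 / 12 : ℝ) := by
    calc (Real.log ((N : ℝ) + 2)) ^ 5 ≤ (60 * ((N : ℝ) + 2) ^ (1 / 60 : ℝ)) ^ 5 :=
          pow_le_pow_left₀ hlog0 h2 5
      _ = 60 ^ 5 * ((N : ℝ) + 2) ^ (1 / 12 : ℝ) := by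
          rw [mul_pow, ← Real.rpow_natCast (((N : ℝ) + 2) ^ (1 / 60 : ℝ)),
            ← Real.rpow_mul (by linarith)]
          norm_num
      _ ≤ 60 ^ 5 * (3 * (N : ℝ)) ^ (1 / 12 : ℝ) := by
          gcongr
          linarith
      _ = 60 ^ 5 * (3 ^ (1 / 12 : ℝ) * (N : ℝ) ^ (1 / 12 : ℝ)) := by
          rw [Real.mul_rpow (by norm_num) hN0.le]
      _ ≤ 60 ^ 5 * (3 * (N : ℝ) ^ (1 / 12 : ℝ)) := by
          gcongr
          calc (3 : ℝ) ^ (1 / 12 : ℝ) ≤ 3 ^ (1 : ℝ) :=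
                Real.rpow_le_rpow_of_exponent_le (by norm_num) (by norm_num)
            _ = 3 := Real.rpow_one 3
      _ = _ := by ring
  have h4 : A ≤ (N : ℝ) ^ (1 / 12 : ℝ) := by
    have h5 : A ^ (12 : ℕ) ≤ N := by
      refine (Nat.le_ceil _).trans ?_
      exact_mod_cast (by omega : ⌈A ^ (12 : ℕ)⌉₊ ≤ N)
    calc A = (A ^ (12 : ℕ)) ^ (1 / 12 : ℝ) := by
          rw [← Real.rpow_natCast, ← Real.rpow_mul hA0]
          norm_num
      _ ≤ _ := Real.rpow_le_rpow (by positivity) h5 (by norm_num)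
  calc ((SumSet N).ncard : ℝ) ≤ C * (N : ℝ) ^ (5 / 6 : ℝ) * (Real.log (N + 2)) ^ 5 := h1
    _ ≤ |C| * (N : ℝ) ^ (5 / 6 : ℝ) * (60 ^ 5 * 3 * (N : ℝ) ^ (1 / 12 : ℝ)) := by
        gcongr
        exact le_abs_self C
    _ = (|C| * (60 ^ 5 * 3)) * ((N : ℝ) ^ (5 / 6 : ℝ) * (N : ℝ) ^ (1 / 12 : ℝ)) := by ring
    _ = (c * A) * (N : ℝ) ^ (11 / 12 : ℝ) := by
        rw [← Real.rpow_add hN0, hA]
        congr 1
        · field_simp
        · norm_num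
    _ ≤ (c * (N : ℝ) ^ (1 / 12 : ℝ)) * (N : ℝ) ^ (11 / 12 : ℝ) := by gcongr
    _ = c * N := by
        rw [mul_assoc, ← Real.rpow_add hN0]
        norm_num

/-- The third base is in one of the two sets -/
lemma third_base {x y z : ℤ} {p q n : ℕ} (hp : p.Prime) (hq : q.Prime) (hp2 : p ≠ 2) (hq2 : q ≠ 2)
    (hx : x ≠ 0) (hy : y ≠ 0) (hz : z ≠ 0) (hcop : IsCoprime x y) (heq : x ^ p + y ^ p = z ^ q)
    (hn : (n : ℤ) = |z|) {N : ℕ} (hnN : n ≤ N) : n ∈ SumSet N ∪ DiffSet N := by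
  have hpodd : Odd p := hp.odd_of_ne_two hp2
  have hqodd : Odd q := hq.odd_of_ne_two hq2
  have hp3 : 3 ≤ p := by have := hp.two_le; omega
  have hq3 : 3 ≤ q := by have := hq.two_le; omega
  have hn0 : 0 < n := by
    have : (0 : ℤ) < n := by rw [hn]; exact abs_pos.mpr hz
    exact_mod_cast this
  have hX0 : 0 < x.natAbs := Int.natAbs_pos.mpr hx
  have hY0 : 0 < y.natAbs := Int.natAbs_pos.mpr hy
  have hc : Nat.Coprime x.natAbs y.natAbs := Int.isCoprime_iff_gcd_eq_one.mp hcop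
  obtain ⟨X, hX⟩ : ∃ X, X = x.natAbs := ⟨_, rfl⟩
  obtain ⟨Y, hY⟩ : ∃ Y, Y = y.natAbs := ⟨_, rfl⟩
  rw [← hX, ← hY] at hc
  rw [← hX] at hX0
  rw [← hY] at hY0
  obtain ⟨s, hs, hsx⟩ : ∃ s : ℤ, (s = 1 ∨ s = -1) ∧ x = s * X := by
    rw [hX]
    rcases Int.natAbs_eq x with h | h
    · exact ⟨1, Or.inl rfl, by rw [one_mul]; exact h⟩
    · exact ⟨-1, Or.inr rfl, by rw [neg_one_mul]; exact h⟩
  obtain ⟨t, ht, hty⟩ : ∃ t : ℤ, (t = 1 ∨ t = -1) ∧ y = t * Y := by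
    rw [hY]
    rcases Int.natAbs_eq y with h | h
    · exact ⟨1, Or.inl rfl, by rw [one_mul]; exact h⟩
    · exact ⟨-1, Or.inr rfl, by rw [neg_one_mul]; exact h⟩
  obtain ⟨v, hv, hvz⟩ : ∃ v : ℤ, (v = 1 ∨ v = -1) ∧ z = v * n := by
    rcases abs_choice z with h | h
    · exact ⟨1, Or.inl rfl, by rw [one_mul, hn, h]⟩
    · exact ⟨-1, Or.inr rfl, by rw [hn, h]; ring⟩
  have hodd : ∀ (k : ℕ) (u : ℤ), Odd k → (u = 1 ∨ u = -1) → u ^ k = u := by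
    rintro k u hk (rfl | rfl)
    · exact one_pow k
    · exact hk.neg_one_pow
  rw [hsx, hty, hvz, mul_pow, mul_pow, mul_pow, hodd p s hpodd hs, hodd p t hpodd ht,
    hodd q v hqodd hv] at heq
  have e1 : (0 : ℤ) < (X : ℤ) ^ p := by positivity
  have e2 : (0 : ℤ) < (Y : ℤ) ^ p := by positivity
  have e3 : (0 : ℤ) < (n : ℤ) ^ q := by positivity
  have hsum : X ^ p + Y ^ p = n ^ q → n ∈ SumSet N ∪ DiffSet N := by
    intro h
    left
    refine ⟨hnN, X, Y, p, q, hX0, hY0, hp, hq, hc, ?_, h⟩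
    have h1 : (1 : ℚ) / p ≤ 1 / 3 := by
      apply one_div_le_one_div_of_le (by norm_num)
      exact_mod_cast hp3
    have h2 : (1 : ℚ) / q ≤ 1 / 3 := by
      apply one_div_le_one_div_of_le (by norm_num)
      exact_mod_cast hq3
    linarith
  have hdiff : ∀ a b : ℕ, 0 < a → 0 < b → Nat.Coprime a b → a ^ p + n ^ q = b ^ p →
      n ∈ SumSet N ∪ DiffSet N := by
    intro a b ha hb hab h
    right
    exact ⟨hn0, hnN, a, b, p, q, p, ha, hb, hab, Or.inl ⟨hqodd, hq3, by rw [Nat.gcd_self]; exact hp3⟩, h⟩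
  rcases hs with rfl | rfl <;> rcases ht with rfl | rfl <;> rcases hv with rfl | rfl
  · apply hsum
    have : (X : ℤ) ^ p + Y ^ p = n ^ q := by linarith
    exact_mod_cast this
  · exfalso; linarith
  · refine hdiff Y X hY0 hX0 hc.symm ?_
    have : (Y : ℤ) ^ p + n ^ q = X ^ p := by linarith
    exact_mod_cast this
  · refine hdiff X Y hX0 hY0 hc ?_
    have : (X : ℤ) ^ p + n ^ q = Y ^ p := by linarith
    exact_mod_cast this
  · refine hdiff X Y hX0 hY0 hc ?_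
    have : (X : ℤ) ^ p + n ^ q = Y ^ p := by linarith
    exact_mod_cast this
  · refine hdiff Y X hY0 hX0 hc.symm ?_
    have : (Y : ℤ) ^ p + n ^ q = X ^ p := by linarith
    exact_mod_cast this
  · exfalso; linarith
  · apply hsum
    have : (X : ℤ) ^ p + Y ^ p = n ^ q := by linarith
    exact_mod_cast this

/-- `n` is never the third base, and it is one of the two other bases only if `p` divides `z` -/
def Free (n : ℕ) : Prop := ∀ (x y z : ℤ) (p q : ℕ), p.Prime → q.Prime → p ≠ 2 → q ≠ 2 → p ≠ q →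
  x ≠ 0 → y ≠ 0 → z ≠ 0 → IsCoprime x y → x ^ p + y ^ p = z ^ q →
    (n : ℤ) ≠ |z| ∧ (((n : ℤ) = |x| ∨ (n : ℤ) = |y|) → (p : ℤ) ∣ z)

theorem free_main (t1 : T1) (t2 : T2) : ∃ c : ℝ, 0 < c ∧ ∃ N₀ : ℕ, ∀ N : ℕ, N₀ ≤ N →
    c * N ≤ (({n : ℕ | 0 < n ∧ n ≤ N ∧ Free n}.ncard : ℕ) : ℝ) := by
  obtain ⟨c, hc, N₁, h1⟩ := pos_main t1 t2
  obtain ⟨N₂, h2⟩ := sumSet_small (c / 4) (by positivity)
  obtain ⟨N₃, h3⟩ := Pool.Agent.TH863.D.final (ε := c / 4) (by positivity)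
  refine ⟨c / 2, by positivity, N₁ + N₂ + N₃, ?_⟩
  intro N hN
  have h1' := h1 N (by omega)
  have h2' := h2 N (by omega)
  have h3' : ((DiffSet N).ncard : ℝ) ≤ c / 4 * N := h3 N (by omega)
  have hf1 : {n : ℕ | 0 < n ∧ n ≤ N ∧ Free n}.Finite :=
    (Set.finite_Iic N).subset fun n hn => hn.2.1
  have hf2 : (SumSet N).Finite := (Set.finite_Iic N).subset fun n hn => hn.1
  have hf3 : (DiffSet N).Finite := (Set.finite_Iic N).subset fun n hn => hn.2.1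
  have hsub : {x : ℕ | 0 < x ∧ x ≤ N ∧ ∀ (y z : ℤ) (p q : ℕ), ¬ Sol x y z p q} ⊆
      {n : ℕ | 0 < n ∧ n ≤ N ∧ Free n} ∪ (SumSet N ∪ DiffSet N) := by
    rintro n ⟨hn0, hnN, hn⟩
    by_cases hmem : n ∈ SumSet N ∪ DiffSet N
    · right; exact hmem
    left
    refine ⟨hn0, hnN, ?_⟩
    intro x y z p q hp hq hp2 hq2 hpq hx hy hz hcop heq
    refine ⟨?_, ?_⟩
    · intro h
      exact hmem (third_base hp hq hp2 hq2 hx hy hz hcop heq h hnN)
    · intro hor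
      by_contra hpz
      have hsol : Sol x y z p q := ⟨hp, hq, hp2, hq2, hpq, hx, hy, hz, hcop, hpz, heq⟩
      have key : ∀ x y z : ℤ, Sol x y z p q → (n : ℤ) = |x| → False := by
        intro x y z hs h
        rcases abs_choice x with h' | h'
        · rw [h'] at h
          rw [← h] at hs
          exact hn y z p q hs
        · rw [h'] at h
          have := hs.neg
          rw [← h] at this
          exact hn _ _ p q this
      rcases hor with h | h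
      · exact key x y z hsol h
      · exact key y x z hsol.symm h
  have h4 := Set.ncard_le_ncard hsub (hf1.union (hf2.union hf3))
  have h5 := Set.ncard_union_le {n : ℕ | 0 < n ∧ n ≤ N ∧ Free n} (SumSet N ∪ DiffSet N)
  have h6 := Set.ncard_union_le (SumSet N) (DiffSet N)
  have h7 : (({x : ℕ | 0 < x ∧ x ≤ N ∧ ∀ (y z : ℤ) (p q : ℕ), ¬ Sol x y z p q}.ncard : ℕ) : ℝ) ≤
      (({n : ℕ | 0 < n ∧ n ≤ N ∧ Free n}.ncard : ℕ) : ℝ) + ((SumSet N).ncard + (DiffSet N).ncard) := by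
    exact_mod_cast h4.trans (h5.trans (Nat.add_le_add_left h6 _))
  linarith

end Pool.Agent.K9h9.AA
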