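import Mathlib
import Pool.Agent.K9h9.AA.PartA3

/-!
# A variant of the first part of the proof
-/

set_option autoImplicit false

namespace Pool.Agent.K9h9.AA

open Finset Pool.Agent.K9h9.CB Pool.Agent.K9h9.SR Pool.Agent.K9h9.RD Pool.Agent.K9h9.XR

/-- The first part with a number `X` divisible by `n ^ k` in place of the power `X` -/
lemma part_a4 (K c : ℕ) : ∃ l₀ : ℕ, ∀ X n y z w k q l D : ℕ, l.Prime → l₀ ≤ l → 14 ≤ n → 2 ^ K < n →
    D ∣ n → n ≤ D ^ K → (∀ ℓ : ℕ, ℓ.Prime → ℓ ∣ D → ¬ l ∣ ℓ - 1) → Nat.Coprime n y → 0 < k → 0 < q →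
    q ≤ c * k → 0 < X → n ^ k ∣ X → X ≤ n ^ (c * k) → y ≤ n ^ c → w ^ l ≤ n ^ c →
    ((n : ℤ) ∣ y - w ^ l ∨ (n : ℤ) ∣ y + w ^ l) →
    z ^ l ≠ w ^ (l * q) → EqX X y z q l → False := by
  obtain ⟨l₁, h₁⟩ := case_pow (K * (c * c + c) + 1)
  obtain ⟨l₂, h₂⟩ := case_main K c
  refine ⟨l₁ + l₂, ?_⟩
  intro X n y z w k q l D hl hll hn14 hnK hDn hnD hprime hcop hk hq hqk hX0 hnX hXn hyn hwn hcong hdeg
    heq
  have hn0 : 0 < n := by omega
  have hD0 : 0 < D := Nat.pos_of_dvd_of_pos hDn hn0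
  have hD3 : 3 ≤ D := by
    by_contra hcon
    have h1 : D ^ K ≤ 2 ^ K := Nat.pow_le_pow_left (by omega) K
    omega
  have hl0 := hl.pos
  have hnxk : n ∣ X := (dvd_pow_self n hk.ne').trans hnX
  have hcopZ : IsCoprime (n : ℤ) (y : ℤ) := Nat.isCoprime_iff_coprime.mpr hcop
  have hwnZ : IsCoprime (n : ℤ) ((w : ℤ) ^ l) := by
    rcases hcong with ⟨j, hj⟩ | ⟨j, hj⟩
    · have h1 : (y : ℤ) = w ^ l + n * j := by linarith
      rw [h1] at hcopZ
      exact IsCoprime.of_add_mul_left_right hcopZ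
    · have h1 : (y : ℤ) = -(w ^ l) + n * j := by linarith
      rw [h1] at hcopZ
      have h2 := IsCoprime.of_add_mul_left_right hcopZ
      exact (IsCoprime.neg_right_iff _ _).mp h2
  have hcopw : Nat.Coprime n (w ^ l) := Nat.isCoprime_iff_coprime.mp (by exact_mod_cast hwnZ)
  have hcopw1 : Nat.Coprime n w := (Nat.coprime_pow_right_iff hl0 _ _).mp hcopw
  have hy0 : 0 < y := by
    rcases Nat.eq_zero_or_pos y with h | h
    · rw [h, Nat.coprime_zero_right] at hcop
      omega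
    · exact h
  have hw0 : 0 < w := by
    rcases Nat.eq_zero_or_pos w with h | h
    · rw [h, Nat.coprime_zero_right] at hcopw1
      omega
    · exact h
  have hz0 : 0 < z := by
    rcases Nat.eq_zero_or_pos z with h | h
    · exfalso
      have h1 : z ^ l = 0 := by rw [h]; exact zero_pow hl.ne_zero
      have h3 : n ∣ y ^ q → False := by
        intro h4
        have h5 : Nat.Coprime n (y ^ q) := hcop.pow_right q
        have h6 := Nat.dvd_gcd dvd_rfl h4
        rw [h5] at h6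
        have := Nat.dvd_one.mp h6
        omega
      rcases heq with h2 | h2 | h2
      · omega
      · rw [h1, add_zero] at h2
        exact h3 (h2 ▸ hnxk)
      · rw [h1, add_zero] at h2
        exact h3 (h2 ▸ hnxk)
    · exact h
  -- case of an `l`-th power
  have hpow : ∀ v : ℕ, Nat.Coprime n v → y ^ q = v ^ l → False := by
    intro v hv hyv
    have hT : D ^ k ∣ X := (pow_dvd_pow_of_dvd hDn k).trans hnX
    have hbound : y ^ q ≤ (D ^ k) ^ (K * (c * c + c)) := by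
      calc y ^ q ≤ (n ^ c) ^ q := Nat.pow_le_pow_left hyn q
        _ = n ^ (c * q) := by rw [← pow_mul]
        _ ≤ n ^ (c * (c * k)) := Nat.pow_le_pow_right hn0 (Nat.mul_le_mul_left _ hqk)
        _ ≤ (D ^ K) ^ (c * (c * k)) := Nat.pow_le_pow_left hnD _
        _ = D ^ (k * (K * (c * c))) := by rw [← pow_mul]; congr 1; ring
        _ ≤ D ^ (k * (K * (c * c + c))) :=
            Nat.pow_le_pow_right hD0 (Nat.mul_le_mul_left _ (Nat.mul_le_mul_left _ (Nat.le_add_right _ _)))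
        _ = _ := by rw [← pow_mul]
    have hbound2 : X ≤ (D ^ k) ^ (K * (c * c + c)) := by
      calc X ≤ n ^ (c * k) := hXn
        _ ≤ (D ^ K) ^ (c * k) := Nat.pow_le_pow_left hnD _
        _ = D ^ (k * (K * c)) := by rw [← pow_mul]; congr 1; ring
        _ ≤ D ^ (k * (K * (c * c + c))) :=
            Nat.pow_le_pow_right hD0 (Nat.mul_le_mul_left _ (Nat.mul_le_mul_left _ (by omega)))
        _ = _ := by rw [← pow_mul]
    have hDP3 : 3 ≤ D ^ k := hD3.trans (Nat.le_self_pow hk.ne' D)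
    refine h₁ X (D ^ k) z v l hl (by omega) hDP3 hT ?_ ?_ hX0 ?_ ?_ ?_
    · intro ℓ hℓ hℓD
      exact hprime ℓ hℓ (hℓ.dvd_of_dvd_pow hℓD)
    · exact (hv.coprime_dvd_left hDn).pow_left k
    · rw [EqX, hyv] at heq
      exact heq
    · rw [← hyv, pow_succ]
      exact le_trans hbound (Nat.le_mul_of_pos_right _ (by omega))
    · calc z ^ l ≤ X + y ^ q := heq.le
        _ ≤ (D ^ k) ^ (K * (c * c + c)) * 2 := by omega
        _ ≤ (D ^ k) ^ (K * (c * c + c)) * D ^ k := Nat.mul_le_mul_left _ (by omega)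
        _ = _ := by rw [← pow_succ]
  by_cases hlq : l ∣ q
  · obtain ⟨j, hj⟩ := hlq
    refine hpow (y ^ j) (hcop.pow_right j) ?_
    rw [hj, ← pow_mul, mul_comm]
  by_cases hyw : y = w ^ l
  · refine hpow (w ^ q) (hcopw1.pow_right q) ?_
    rw [hyw, ← pow_mul, ← pow_mul, mul_comm]
  by_cases hzw : z = w ^ q
  · apply hdeg
    rw [hzw, ← pow_mul, mul_comm]
  · exact h₂ X n y z w k q l D hl (by omega) hD3 hDn hnD hprime hcopw1.symm hk hq hy0 hz0 hw0 hqk
      hnX hXn hyn hwn hcong hlq hyw hzw heq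

end Pool.Agent.K9h9.AA
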