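import Mathlib
import Pool.Agent.K9h9.AA.PartA4
import Pool.Agent.K9h9.XR.Final

/-!
# Polynomial bases for numbers `n = m ℓ`, `ℓ` a large prime
-/

set_option autoImplicit false

namespace Pool.Agent.K9h9.AA

open Finset Polynomial Pool.Agent.K9h9.XR

/-- a solution with two bases given by `n` and `f(n)` -/
structure PSol (δ : ℝ) (d κ n Y z P Q l : ℕ) (f : ℤ[X]) : Prop where
  dvd : n ^ P ∣ Y
  pos : 0 < Y
  le : (Y : ℝ) ≤ (n : ℝ) ^ ((1 + δ) * P)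
  f1 : 1 ≤ f.natDegree
  fd : f.natDegree ≤ d
  f0 : |f.coeff 0| = 1
  fc : ∀ i, |(f.coeff i : ℝ)| ≤ (n : ℝ) ^ δ
  P2 : 2 ≤ P
  Q1 : 1 ≤ Q
  fQ : f.natDegree * Q ≤ κ * P
  QP : 2 ≤ Q ∨ l * f.natDegree < (l - 1) * P
  lp : l.Prime
  κl : κ * (2 * f.natDegree - 1) < l
  z2 : 2 ≤ z
  eq : EqX Y (f.eval (n : ℤ)).natAbs z Q l

lemma poly_large (K d κ : ℕ) : ∃ l₀ n₀ : ℕ, ∀ (δ : ℝ) (n Y z P Q l D : ℕ) (f : ℤ[X]), 0 < δ → δ ≤ 1 →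
    l₀ ≤ l → n₀ ≤ n → D ∣ n → n ≤ D ^ K → (∀ p : ℕ, p.Prime → p ∣ D → ¬ l ∣ p - 1) →
    PSol δ d κ n Y z P Q l f → False := by
  obtain ⟨l₀, h₀⟩ := part_a4 K (d + κ + 4)
  refine ⟨l₀, 15 + 2 ^ K + d, ?_⟩
  intro δ n Y z P Q l D f hδ hδ1 hl hn hDn hnD hDp hs
  obtain ⟨B, hB⟩ : ∃ B, B = 2 ^ K := ⟨_, rfl⟩
  rw [← hB] at hn
  have hn1 : 1 ≤ n := by omega
  have hn0 : 0 < n := by omega
  have hn1R : (1 : ℝ) ≤ n := by exact_mod_cast hn1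
  obtain ⟨y, hy⟩ : ∃ y, y = (f.eval (n : ℤ)).natAbs := ⟨_, rfl⟩
  have hyle : (y : ℝ) ≤ (n : ℝ) ^ ((f.natDegree : ℝ) + 2 * 1) := by
    refine size_n (δ := 1) hn1 hs.fd ?_ ?_ hy
    · intro i
      exact (hs.fc i).trans (Real.rpow_le_rpow_of_exponent_le hn1R hδ1)
    · rw [Real.rpow_one]
      exact_mod_cast (by omega : d + 1 ≤ n)
  have hyle2 : y ≤ n ^ (d + κ + 4) := by
    have h1 : (y : ℝ) ≤ (n : ℝ) ^ ((d + κ + 4 : ℕ) : ℝ) := by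
      refine hyle.trans (Real.rpow_le_rpow_of_exponent_le hn1R ?_)
      have h2 : (f.natDegree : ℝ) ≤ d := by exact_mod_cast hs.fd
      push_cast
      have h3 : (0 : ℝ) ≤ κ := by positivity
      linarith
    rw [Real.rpow_natCast] at h1
    exact_mod_cast h1
  have hcong : (n : ℤ) ∣ (y : ℤ) - 1 ∨ (n : ℤ) ∣ (y : ℤ) + 1 := by
    have h1 : (n : ℤ) ∣ f.eval (n : ℤ) - f.coeff 0 := by
      have h1 := congrArg (eval (n : ℤ)) (X_mul_divX_add f)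
      rw [eval_add, eval_mul, eval_X, eval_C] at h1
      rw [← h1, add_sub_cancel_right]
      exact Dvd.intro _ rfl
    rw [hy]
    rcases abs_eq (zero_le_one' ℤ) |>.mp hs.f0 with h | h
    · rw [h] at h1
      exact natAbs_cong h1
    · rw [h, sub_neg_eq_add] at h1
      have h2 : (n : ℤ) ∣ -(f.eval (n : ℤ)) - 1 := by
        have h3 := dvd_neg.mpr h1
        have h4 : -(f.eval (n : ℤ) + 1) = -(f.eval (n : ℤ)) - 1 := by ring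
        rwa [h4] at h3
      have h3 := natAbs_cong h2
      rwa [Int.natAbs_neg] at h3
  have hcop : Nat.Coprime n y := by
    apply Nat.isCoprime_iff_coprime.mp
    rcases hcong with ⟨j, hj⟩ | ⟨j, hj⟩
    · exact ⟨-j, 1, by linarith⟩
    · exact ⟨j, -1, by linarith⟩
  have hQP : Q ≤ (d + κ + 4) * P := by
    calc Q ≤ f.natDegree * Q := Nat.le_mul_of_pos_left _ hs.f1
      _ ≤ κ * P := hs.fQ
      _ ≤ (d + κ + 4) * P := Nat.mul_le_mul_right _ (by omega)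
  have hYle : Y ≤ n ^ ((d + κ + 4) * P) := by
    have h1 : (Y : ℝ) ≤ (n : ℝ) ^ (((d + κ + 4) * P : ℕ) : ℝ) := by
      refine hs.le.trans (Real.rpow_le_rpow_of_exponent_le hn1R ?_)
      push_cast
      have h2 : (0 : ℝ) ≤ P := by positivity
      have h3 : (0 : ℝ) ≤ d := by positivity
      have h4 : (0 : ℝ) ≤ κ := by positivity
      exact mul_le_mul_of_nonneg_right (by linarith) h2
    rw [Real.rpow_natCast] at h1
    exact_mod_cast h1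
  have heq := hs.eq
  rw [← hy] at heq
  have hP0 : 0 < P := by have := hs.P2; omega
  have hQ0 : 0 < Q := hs.Q1
  refine h₀ Y n y z 1 P Q l D hs.lp hl (by omega) (by rw [← hB]; omega) hDn hnD hDp hcop hP0 hQ0 hQP
    hs.pos hs.dvd hYle hyle2 ?_ ?_ ?_ heq
  · rw [one_pow]
    exact Nat.one_le_pow _ _ hn0
  · rw [Nat.cast_one, one_pow]
    exact hcong
  · rw [one_pow]
    have h1 : 1 < z ^ l := Nat.one_lt_pow hs.lp.ne_zero (by have := hs.z2; omega)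
    omega

lemma poly_small (d κ : ℕ) (hκ : 1 ≤ κ) : ∃ δ : ℝ, 0 < δ ∧ δ ≤ 1 ∧ ∃ A : ℕ, 1 ≤ A ∧ ∃ n₀ : ℕ,
    ∀ (n m ℓ Y z P Q l : ℕ) (f : ℤ[X]), n₀ ≤ n → n = m * ℓ → ℓ.Prime → m ^ A ≤ ℓ →
      ((l ≠ 2 ∧ ¬ l ∣ ℓ - 1) ∨ (l = 2 ∧ ℓ % 4 ≠ 1)) → PSol δ d κ n Y z P Q l f → False := by
  obtain ⟨δ₀, hδ₀, N, h⟩ := poly_mainX d κ hκ
  obtain ⟨δ₁, hδ₁, hδ₁0, hδ₁1⟩ : ∃ δ₁ : ℝ, 0 < δ₁ ∧ δ₁ ≤ δ₀ ∧ δ₁ ≤ 1 :=
    ⟨min δ₀ 1, lt_min hδ₀ one_pos, min_le_left _ _, min_le_right _ _⟩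
  obtain ⟨A, hA⟩ : ∃ A : ℕ, A = ⌈4 * ((d : ℝ) + 1) / δ₁⌉₊ + 1 := ⟨_, rfl⟩
  have hA1 : 1 ≤ A := by omega
  have hAR : (0 : ℝ) < A := by exact_mod_cast hA1
  obtain ⟨α, hα⟩ : ∃ α : ℝ, α = 1 / (A : ℝ) := ⟨_, rfl⟩
  have hα0 : 0 < α := by rw [hα]; positivity
  have hdα : ((d : ℝ) + 1) * α ≤ δ₁ / 4 := by
    have h1 : 4 * ((d : ℝ) + 1) / δ₁ ≤ A := by
      refine (Nat.le_ceil _).trans ?_
      exact_mod_cast (by omega : ⌈4 * ((d : ℝ) + 1) / δ₁⌉₊ ≤ A)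
    rw [div_le_iff₀ hδ₁] at h1
    rw [hα, mul_one_div, div_le_iff₀ hAR]
    linarith
  have hd0 : (0 : ℝ) ≤ d := by positivity
  have hα4 : α ≤ δ₁ / 4 := by nlinarith
  refine ⟨δ₁ / 4, by positivity, by linarith, A, hA1, N ^ 2 + 1, ?_⟩
  intro n m ℓ Y z P Q l f hn hnm hℓ hmA hlor hs
  have hm0 : 0 < m := by
    rcases Nat.eq_zero_or_pos m with h0 | h0
    · rw [h0, zero_mul] at hnm
      omega
    · exact h0
  have hℓ0 : 0 < ℓ := hℓ.pos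
  have hmℓ : m ≤ ℓ := (Nat.le_self_pow (by omega) m).trans hmA
  have hNℓ : N ≤ ℓ := by
    by_contra hcon
    have h1 : ℓ ^ 2 ≤ N ^ 2 := Nat.pow_le_pow_left (by omega) 2
    have h2 : n ≤ ℓ ^ 2 := by
      rw [hnm, sq]
      exact Nat.mul_le_mul_right _ hmℓ
    omega
  have hℓ1R : (1 : ℝ) ≤ ℓ := by exact_mod_cast hℓ0
  have hℓ0R : (0 : ℝ) < ℓ := by linarith
  have hm0R : (0 : ℝ) < m := by exact_mod_cast hm0
  have hn0R : (0 : ℝ) ≤ n := by positivity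
  -- `m ≤ ℓ ^ α`
  have hmα : (m : ℝ) ≤ (ℓ : ℝ) ^ α := by
    calc (m : ℝ) = ((m : ℝ) ^ (A : ℝ)) ^ (1 / (A : ℝ)) := by
          rw [← Real.rpow_mul hm0R.le, mul_one_div_cancel hAR.ne', Real.rpow_one]
      _ = ((m : ℝ) ^ A) ^ α := by rw [Real.rpow_natCast, hα]
      _ ≤ _ := Real.rpow_le_rpow (by positivity) (by exact_mod_cast hmA) hα0.le
  have hnα : (n : ℝ) ≤ (ℓ : ℝ) ^ (1 + α) := by
    rw [hnm, Real.rpow_add hℓ0R, Real.rpow_one]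
    push_cast
    rw [mul_comm]
    gcongr
  have hnpow : ∀ t : ℝ, 0 ≤ t → (n : ℝ) ^ t ≤ (ℓ : ℝ) ^ ((1 + α) * t) := by
    intro t ht
    rw [Real.rpow_mul hℓ0R.le]
    exact Real.rpow_le_rpow hn0R hnα ht
  have hmZ : (m : ℤ) ≠ 0 := by exact_mod_cast hm0.ne'
  obtain ⟨g, hg⟩ : ∃ g : ℤ[X], g = f.comp (C (m : ℤ) * X) := ⟨_, rfl⟩
  have hgdeg : g.natDegree = f.natDegree := by
    rw [hg, natDegree_comp, natDegree_C_mul_X _ hmZ, mul_one]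
  have hgc : ∀ i, g.coeff i = f.coeff i * (m : ℤ) ^ i := by
    intro i
    rw [hg, comp_C_mul_X_coeff]
  have hgev : g.eval (ℓ : ℤ) = f.eval (n : ℤ) := by
    rw [hg, eval_comp, eval_mul, eval_C, eval_X, hnm]
    push_cast
    rfl
  have hQP := hs.QP
  have hfQ := hs.fQ
  have hκl := hs.κl
  have hf1 := hs.f1
  have hfd := hs.fd
  rw [← hgdeg] at hQP hfQ hκl hf1 hfd
  refine h ℓ Y z P Q l g hNℓ ?_ hs.pos ?_ hf1 hfd ?_ ?_ hs.P2 hs.Q1 hfQ hQP hs.lp hκl hs.z2 ?_ ?_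
  · refine (pow_dvd_pow_of_dvd ?_ P).trans hs.dvd
    rw [hnm]
    exact dvd_mul_left _ _
  · have hP0 : (0 : ℝ) ≤ P := by positivity
    refine hs.le.trans ((hnpow _ (by positivity)).trans
      (Real.rpow_le_rpow_of_exponent_le hℓ1R ?_))
    rw [← mul_assoc]
    refine mul_le_mul_of_nonneg_right ?_ hP0
    nlinarith
  · rw [hgc, pow_zero, mul_one]
    exact hs.f0
  · intro i
    rw [hgc]
    push_cast
    by_cases hi : f.natDegree < i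
    · rw [coeff_eq_zero_of_natDegree_lt hi]
      simp only [Int.cast_zero, zero_mul, abs_zero]
      positivity
    · push Not at hi
      rw [abs_mul, abs_pow, Nat.abs_cast]
      have hid : i ≤ d := hi.trans hs.fd
      have h1 : (m : ℝ) ^ i ≤ (ℓ : ℝ) ^ (α * d) := by
        have hm1R : (1 : ℝ) ≤ m := by exact_mod_cast hm0
        calc (m : ℝ) ^ i ≤ (m : ℝ) ^ d := pow_le_pow_right₀ hm1R hid
          _ ≤ ((ℓ : ℝ) ^ α) ^ d := pow_le_pow_left₀ hm0R.le hmα d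
          _ = (ℓ : ℝ) ^ (α * d) := by rw [Real.rpow_mul hℓ0R.le, Real.rpow_natCast]
      calc |(f.coeff i : ℝ)| * (m : ℝ) ^ i ≤ (ℓ : ℝ) ^ ((1 + α) * (δ₁ / 4)) * (ℓ : ℝ) ^ (α * d) :=
            mul_le_mul ((hs.fc i).trans (hnpow _ (by positivity))) h1 (by positivity) (by positivity)
        _ = (ℓ : ℝ) ^ ((1 + α) * (δ₁ / 4) + α * d) := (Real.rpow_add hℓ0R _ _).symm
        _ ≤ (ℓ : ℝ) ^ δ₀ := by
            refine Real.rpow_le_rpow_of_exponent_le hℓ1R ?_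
            nlinarith
  · rcases hlor with ⟨h1, h2⟩ | ⟨h1, h2⟩
    · left
      refine ⟨h1, fun p hp hpℓ => ?_⟩
      rw [(Nat.prime_dvd_prime_iff_eq hp hℓ).mp hpℓ]
      exact h2
    · right; left
      exact ⟨h1, ℓ, 1, hℓ, h2, (pow_one ℓ).symm⟩
  · rw [hgev]
    exact hs.eq

end Pool.Agent.K9h9.AA
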