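import Mathlib
import Pool.Agent.K9h9.AA.Poly
import Pool.Agent.K9h9.AA.Final
import Pool.Agent.K9h9.AA.LeavesT
import Pool.Agent.K9h9.AA.LeavesT3

/-!
# Polynomial bases for a positive proportion of the integers, uniformly for bounded quotients of exponents
-/

set_option autoImplicit false

namespace Pool.Agent.K9h9.AA

open Finset Polynomial Pool.Agent.K9h9.XR

lemma PSol.mono {δ δ' : ℝ} {d κ n Y z P Q l : ℕ} {f : ℤ[X]} (h : PSol δ d κ n Y z P Q l f)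
    (hδ : δ ≤ δ') (hn : 1 ≤ n) : PSol δ' d κ n Y z P Q l f := by
  have hn1R : (1 : ℝ) ≤ n := by exact_mod_cast hn
  have hP0 : (0 : ℝ) ≤ P := by positivity
  refine ⟨h.dvd, h.pos, ?_, h.f1, h.fd, h.f0, ?_, h.P2, h.Q1, h.fQ, h.QP, h.lp, h.κl, h.z2, h.eq⟩
  · refine h.le.trans (Real.rpow_le_rpow_of_exponent_le hn1R ?_)
    exact mul_le_mul_of_nonneg_right (by linarith) hP0
  · intro i
    exact (h.fc i).trans (Real.rpow_le_rpow_of_exponent_le hn1R hδ)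

lemma poly_large' (K d κ₀ : ℕ) : ∃ l₀ n₀ : ℕ, ∀ (δ : ℝ) (κ n Y z P Q l D : ℕ) (f : ℤ[X]), κ ≤ κ₀ → 0 < δ → δ ≤ 1 →
    l₀ ≤ l → n₀ ≤ n → D ∣ n → n ≤ D ^ K → (∀ p : ℕ, p.Prime → p ∣ D → ¬ l ∣ p - 1) →
    PSol δ d κ n Y z P Q l f → False := by
  obtain ⟨l₀, h₀⟩ := part_a4 K (d + κ₀ + 4)
  refine ⟨l₀, 15 + 2 ^ K + d, ?_⟩
  intro δ κ n Y z P Q l D f hκ₀ hδ hδ1 hl hn hDn hnD hDp hs
  obtain ⟨B, hB⟩ : ∃ B, B = 2 ^ K := ⟨_, rfl⟩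
  rw [← hB] at hn
  have hn1 : 1 ≤ n := by omega
  have hn0 : 0 < n := by omega
  have hn1R : (1 : ℝ) ≤ n := by exact_mod_cast hn1
  obtain ⟨y, hy⟩ : ∃ y, y = (f.eval (n : ℤ)).natAbs := ⟨_, rfl⟩
  have hyle : (y : ℝ) ≤ (n : ℝ) ^ ((f.natDegree : ℝ) + 2 * 1) := by
    refine size_n (δ := 1) hn1 hs.fd ?_ ?_ hy
    · intro i
      exact (hs.fc i).trans (Real.rpow_le_rpow_of_exponent_le hn1R hδ1)
    · rw [Real.rpow_one]
      exact_mod_cast (by omega : d + 1 ≤ n)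
  have hyle2 : y ≤ n ^ (d + κ₀ + 4) := by
    have h1 : (y : ℝ) ≤ (n : ℝ) ^ ((d + κ₀ + 4 : ℕ) : ℝ) := by
      refine hyle.trans (Real.rpow_le_rpow_of_exponent_le hn1R ?_)
      have h2 : (f.natDegree : ℝ) ≤ d := by exact_mod_cast hs.fd
      push_cast
      have h3 : (0 : ℝ) ≤ κ₀ := by positivity
      linarith
    rw [Real.rpow_natCast] at h1
    exact_mod_cast h1
  have hcong : (n : ℤ) ∣ (y : ℤ) - 1 ∨ (n : ℤ) ∣ (y : ℤ) + 1 := by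
    have h1 : (n : ℤ) ∣ f.eval (n : ℤ) - f.coeff 0 := by
      have h1 := congrArg (eval (n : ℤ)) (X_mul_divX_add f)
      rw [eval_add, eval_mul, eval_X, eval_C] at h1
      rw [← h1, add_sub_cancel_right]
      exact Dvd.intro _ rfl
    rw [hy]
    rcases abs_eq (zero_le_one' ℤ) |>.mp hs.f0 with h | h
    · rw [h] at h1
      exact natAbs_cong h1
    · rw [h, sub_neg_eq_add] at h1
      have h2 : (n : ℤ) ∣ -(f.eval (n : ℤ)) - 1 := by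
        have h3 := dvd_neg.mpr h1
        have h4 : -(f.eval (n : ℤ) + 1) = -(f.eval (n : ℤ)) - 1 := by ring
        rwa [h4] at h3
      have h3 := natAbs_cong h2
      rwa [Int.natAbs_neg] at h3
  have hcop : Nat.Coprime n y := by
    apply Nat.isCoprime_iff_coprime.mp
    rcases hcong with ⟨j, hj⟩ | ⟨j, hj⟩
    · exact ⟨-j, 1, by linarith⟩
    · exact ⟨j, -1, by linarith⟩
  have hQP : Q ≤ (d + κ₀ + 4) * P := by
    calc Q ≤ f.natDegree * Q := Nat.le_mul_of_pos_left _ hs.f1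
      _ ≤ κ * P := hs.fQ
      _ ≤ (d + κ₀ + 4) * P := Nat.mul_le_mul_right _ (by omega)
  have hYle : Y ≤ n ^ ((d + κ₀ + 4) * P) := by
    have h1 : (Y : ℝ) ≤ (n : ℝ) ^ (((d + κ₀ + 4) * P : ℕ) : ℝ) := by
      refine hs.le.trans (Real.rpow_le_rpow_of_exponent_le hn1R ?_)
      push_cast
      have h2 : (0 : ℝ) ≤ P := by positivity
      have h3 : (0 : ℝ) ≤ d := by positivity
      have h4 : (0 : ℝ) ≤ κ₀ := by positivity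
      exact mul_le_mul_of_nonneg_right (by linarith) h2
    rw [Real.rpow_natCast] at h1
    exact_mod_cast h1
  have heq := hs.eq
  rw [← hy] at heq
  have hP0 : 0 < P := by have := hs.P2; omega
  have hQ0 : 0 < Q := hs.Q1
  refine h₀ Y n y z 1 P Q l D hs.lp hl (by omega) (by rw [← hB]; omega) hDn hnD hDp hcop hP0 hQ0 hQP
    hs.pos hs.dvd hYle hyle2 ?_ ?_ ?_ heq
  · rw [one_pow]
    exact Nat.one_le_pow _ _ hn0
  · rw [Nat.cast_one, one_pow]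
    exact hcong
  · rw [one_pow]
    have h1 : 1 < z ^ l := Nat.one_lt_pow hs.lp.ne_zero (by have := hs.z2; omega)
    omega

lemma poly_smallU (d κ₀ : ℕ) : ∃ δ : ℝ, 0 < δ ∧ δ ≤ 1 ∧ ∃ A : ℕ, 1 ≤ A ∧ ∃ n₀ : ℕ,
    ∀ κ : ℕ, 1 ≤ κ → κ ≤ κ₀ →
    ∀ (n m ℓ Y z P Q l : ℕ) (f : ℤ[X]), n₀ ≤ n → n = m * ℓ → ℓ.Prime → m ^ A ≤ ℓ →
      ((l ≠ 2 ∧ ¬ l ∣ ℓ - 1) ∨ (l = 2 ∧ ℓ % 4 ≠ 1)) → PSol δ d κ n Y z P Q l f → False := by
  induction κ₀ with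
  | zero => exact ⟨1, one_pos, le_rfl, 1, le_rfl, 0, fun κ h1 h2 => absurd h1 (by omega)⟩
  | succ κ₀ ih =>
    obtain ⟨δ₁, hδ₁, hδ₁1, A₁, hA₁, n₁, h1⟩ := ih
    obtain ⟨δ₂, hδ₂, hδ₂1, A₂, hA₂, n₂, h2⟩ := poly_small d (κ₀ + 1) (by omega)
    refine ⟨min δ₁ δ₂, lt_min hδ₁ hδ₂, (min_le_left _ _).trans hδ₁1, A₁ + A₂, by omega, n₁ + n₂ + 1, ?_⟩
    intro κ hκ hκ₀ n m ℓ Y z P Q l f hn hnm hℓ hmA hlor hs
    have hn1 : 1 ≤ n := by omega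
    have hm0 : 0 < m := by
      rcases Nat.eq_zero_or_pos m with h0 | h0
      · rw [h0, zero_mul] at hnm
        omega
      · exact h0
    have hA1 : m ^ A₁ ≤ ℓ := (Nat.pow_le_pow_right hm0 (by omega)).trans hmA
    have hA2 : m ^ A₂ ≤ ℓ := (Nat.pow_le_pow_right hm0 (by omega)).trans hmA
    rcases Nat.lt_or_ge κ₀ κ with h3 | h3
    · have h4 : κ = κ₀ + 1 := by omega
      rw [h4] at hs
      exact h2 n m ℓ Y z P Q l f (by omega) hnm hℓ hA2 hlor (hs.mono (min_le_right _ _) hn1)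
    · exact h1 κ hκ h3 n m ℓ Y z P Q l f (by omega) hnm hℓ hA1 hlor (hs.mono (min_le_left _ _) hn1)

/-- no solution with two bases given by `n` and `f(n)`, for all `κ ≤ κ₀` -/
def PolyFreeU (δ : ℝ) (d κ₀ n : ℕ) : Prop :=
  ∀ (κ Y z P Q l : ℕ) (f : ℤ[X]), 1 ≤ κ → κ ≤ κ₀ → ¬ PSol δ d κ n Y z P Q l f

theorem poly_posU (t1 : T1) (t3 : T3) (d κ₀ : ℕ) : ∃ δ : ℝ, 0 < δ ∧ ∃ c : ℝ, 0 < c ∧
    ∃ N₀ : ℕ, ∀ N : ℕ, N₀ ≤ N →
      c * N ≤ (({n : ℕ | 0 < n ∧ n ≤ N ∧ PolyFreeU δ d κ₀ n}.ncard : ℕ) : ℝ) := by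
  obtain ⟨K₀, l₁, N₁, hdens⟩ := dens_true (1 / 8) (by norm_num)
  obtain ⟨δ, hδ, hδ1, A, hA1, n₁, hsmall⟩ := poly_smallU d κ₀
  obtain ⟨l₀, n₀, hlarge⟩ := poly_large' (8 * A * K₀) d κ₀
  refine ⟨δ, hδ, ?_⟩
  obtain ⟨q₁, hq₁⟩ : ∃ q₁ : ℕ, q₁ = l₀ + l₁ := ⟨_, rfl⟩
  obtain ⟨x₀, hx₀⟩ : ∃ x₀ : ℕ, x₀ = n₀ + n₁ := ⟨_, rfl⟩
  obtain ⟨G, hG⟩ : ∃ G : Set ℕ, G = {m : ℕ | ∀ q : ℕ, q.Prime → q₁ ≤ q → ∃ D : ℕ, D ∣ m ∧ m ≤ D ^ K₀ ∧
    ∀ p : ℕ, p.Prime → p ∣ D → ¬ q ∣ p - 1} := ⟨_, rfl⟩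
  -- the set `G` is dense
  have hGd : ∀ M : ℕ, N₁ ≤ M → M ≤ 2 * (G ∩ Set.Ioc M (2 * M)).ncard := by
    intro M hM
    obtain ⟨S, hS⟩ : ∃ S : Set ℕ, S = {n : ℕ | 1 ≤ n ∧ n ≤ 2 * M ∧ ∃ l : ℕ, l.Prime ∧ l₁ ≤ l ∧
      ∀ D : ℕ, D ∣ n → (∀ p : ℕ, p.Prime → p ∣ D → ¬ l ∣ p - 1) → D ^ K₀ < n} := ⟨_, rfl⟩
    have h1 : (S.ncard : ℝ) ≤ 1 / 8 * ((2 * M : ℕ) : ℝ) := by
      rw [hS]
      exact hdens (2 * M) (by omega)
    have hSfin : S.Finite := by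
      rw [hS]
      exact (Set.finite_Iic (2 * M)).subset fun n hn => hn.2.1
    have hGfin : (G ∩ Set.Ioc M (2 * M)).Finite :=
      (Set.finite_Ioc M (2 * M)).subset Set.inter_subset_right
    have hsub : Set.Ioc M (2 * M) ⊆ (G ∩ Set.Ioc M (2 * M)) ∪ S := by
      intro n hn
      by_cases hnG : n ∈ G
      · left
        exact ⟨hnG, hn⟩
      · right
        rw [hG] at hnG
        simp only [Set.mem_setOf_eq, not_forall] at hnG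
        obtain ⟨q, hq, hqq, hno⟩ := hnG
        rw [hS]
        refine ⟨by have := hn.1; omega, hn.2, q, hq, by omega, ?_⟩
        intro D hD hDp
        by_contra hcon
        exact hno ⟨D, hD, not_lt.mp hcon, hDp⟩
    have h2 := Set.ncard_le_ncard hsub (hGfin.union hSfin)
    have h3 := Set.ncard_union_le (G ∩ Set.Ioc M (2 * M)) S
    have h4 : (Set.Ioc M (2 * M)).ncard = M := by
      rw [← Finset.coe_Ioc, Set.ncard_coe_finset, Nat.card_Ioc]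
      omega
    rw [h4] at h2
    have h5 : (M : ℝ) ≤ ((G ∩ Set.Ioc M (2 * M)).ncard : ℝ) + S.ncard := by exact_mod_cast h2.trans h3
    have h6 : (M : ℝ) ≤ 2 * ((G ∩ Set.Ioc M (2 * M)).ncard : ℝ) := by
      push_cast at h1
      have : (0 : ℝ) ≤ M := by positivity
      linarith
    exact_mod_cast h6
  -- the modulus
  obtain ⟨Q, hQ⟩ : ∃ Q : ℕ, Q = ∏ q ∈ (Finset.range q₁).filter (fun q => q.Prime ∧ 3 ≤ q), q := ⟨_, rfl⟩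
  have hQ1 : 1 ≤ Q := by
    rw [hQ]
    refine Nat.one_le_iff_ne_zero.mpr (Nat.pos_iff_ne_zero.mp (Finset.prod_pos ?_))
    intro q hq
    exact (Finset.mem_filter.mp hq).2.1.pos
  have hQ2 : Nat.Coprime 2 Q := by
    rw [hQ]
    apply Nat.Coprime.prod_right
    intro q hq
    have h1 := (Finset.mem_filter.mp hq).2
    rw [Nat.coprime_primes Nat.prime_two h1.1]
    omega
  have hQ4 : Nat.Coprime 4 Q := by
    have : (4 : ℕ) = 2 ^ 2 := by norm_num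
    rw [this]
    exact hQ2.pow_left 2
  obtain ⟨u, hu4, huQ⟩ : ∃ u : ℕ, u ≡ 3 [MOD 4] ∧ u ≡ 2 [MOD Q] :=
    ⟨(Nat.chineseRemainder hQ4 3 2).1, (Nat.chineseRemainder hQ4 3 2).2.1,
      (Nat.chineseRemainder hQ4 3 2).2.2⟩
  have hucop : Nat.Coprime u (4 * Q) := by
    apply Nat.Coprime.mul_right
    · rw [Nat.Coprime, hu4.gcd_eq]
      norm_num
    · rw [Nat.Coprime, huQ.gcd_eq]
      exact hQ2
  obtain ⟨c, hc, y₀, hAP⟩ := t1 (4 * Q) u (by omega) hucop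
  obtain ⟨c', hc', N₂, hcount⟩ := t3 A hA1 G N₁ hGd (4 * Q) u c y₀ hc hAP
  refine ⟨c' / 2, by positivity, N₂ + ⌈2 * (x₀ : ℝ) / c'⌉₊, ?_⟩
  intro N hN
  have h1 := hcount N (by omega)
  obtain ⟨S, hS⟩ : ∃ S : Set ℕ, S = {x : ℕ | 1 ≤ x ∧ x ≤ N ∧ ∃ m ℓ : ℕ, m ∈ G ∧ ℓ.Prime ∧
    ℓ % (4 * Q) = u % (4 * Q) ∧ x = m * ℓ ∧ m ^ A ≤ ℓ ∧ N ≤ m ^ (8 * A)} := ⟨_, rfl⟩
  rw [← hS] at h1
  have hsub : S ⊆ {n : ℕ | 0 < n ∧ n ≤ N ∧ PolyFreeU δ d κ₀ n} ∪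
      ((Finset.range x₀ : Finset ℕ) : Set ℕ) := by
    intro x hx
    rw [hS] at hx
    obtain ⟨hx1, hxN, m, ℓ, hmG, hℓ, hℓQ, hxm, hmℓ, hNm⟩ := hx
    by_cases hx0 : x < x₀
    · right
      rw [Finset.coe_range]
      exact hx0
    left
    refine ⟨hx1, hxN, ?_⟩
    intro κ Y z P Q' l f hκ hκ₀ hs
    by_cases hl : l < q₁
    · refine hsmall κ hκ hκ₀ x m ℓ Y z P Q' l f (by omega) hxm hℓ hmℓ ?_ hs
      by_cases hl2 : l = 2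
      · right
        refine ⟨hl2, ?_⟩
        have h3 : ℓ ≡ u [MOD 4] := Nat.ModEq.of_dvd (dvd_mul_right 4 Q) hℓQ
        have h4 : ℓ % 4 = 3 % 4 := h3.trans hu4
        omega
      · left
        refine ⟨hl2, ?_⟩
        intro h2
        have hl3 : 3 ≤ l := by
          have := hs.lp.two_le
          omega
        have hrQ : l ∣ Q := by
          rw [hQ]
          exact Finset.dvd_prod_of_mem _ (Finset.mem_filter.mpr ⟨Finset.mem_range.mpr hl, hs.lp, hl3⟩)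
        have h3 : ℓ ≡ 2 [MOD l] := (Nat.ModEq.of_dvd (hrQ.trans (dvd_mul_left Q 4)) hℓQ).trans
          (Nat.ModEq.of_dvd hrQ huQ)
        have h4 : 1 ≡ ℓ [MOD l] := (Nat.modEq_iff_dvd' hℓ.one_lt.le).mpr h2
        have h5 := h4.trans h3
        have h6 := (Nat.modEq_iff_dvd' (by norm_num : 1 ≤ 2)).mp h5
        have := Nat.le_of_dvd (by norm_num) h6
        omega
    · push Not at hl
      rw [hG] at hmG
      obtain ⟨D, hDm, hmD, hDp⟩ := hmG l hs.lp hl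
      refine hlarge δ κ x Y z P Q' l D f hκ₀ hδ hδ1 (by omega) (by omega) ?_ ?_ hDp hs
      · rw [hxm]
        exact hDm.mul_right ℓ
      · calc x ≤ N := hxN
          _ ≤ m ^ (8 * A) := hNm
          _ ≤ (D ^ K₀) ^ (8 * A) := Nat.pow_le_pow_left hmD _
          _ = D ^ (8 * A * K₀) := by rw [← pow_mul, mul_comm]
  have hfin1 : {n : ℕ | 0 < n ∧ n ≤ N ∧ PolyFreeU δ d κ₀ n}.Finite :=
    (Set.finite_Iic N).subset fun n hn => hn.2.1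
  have h2 := Set.ncard_le_ncard hsub (hfin1.union (Finset.finite_toSet _))
  have h3 := Set.ncard_union_le {n : ℕ | 0 < n ∧ n ≤ N ∧ PolyFreeU δ d κ₀ n}
    ((Finset.range x₀ : Finset ℕ) : Set ℕ)
  rw [Set.ncard_coe_finset, Finset.card_range] at h3
  have h4 : (S.ncard : ℝ) ≤ ({n : ℕ | 0 < n ∧ n ≤ N ∧ PolyFreeU δ d κ₀ n}.ncard : ℝ) + x₀ := by
    exact_mod_cast h2.trans h3
  have h5 : (x₀ : ℝ) ≤ c' / 2 * N := by
    have h6 : 2 * (x₀ : ℝ) / c' ≤ N := by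
      refine (Nat.le_ceil _).trans ?_
      exact_mod_cast (by omega : ⌈2 * (x₀ : ℝ) / c'⌉₊ ≤ N)
    rw [div_le_iff₀ hc'] at h6
    linarith
  linarith

end Pool.Agent.K9h9.AA
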