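import Mathlib
import Pool.Agent.K9h9.AA.LeavesT
import Pool.Agent.H442R2.KF.Bv

set_option autoImplicit false

namespace Pool.Agent.K9h9.AA

open Finset Pool.Agent.H442R2.KF

theorem t1_piN (y : ℕ) : piN y = Nat.primeCounting y := by
  unfold piN
  rw [Nat.primeCounting, Nat.primeCounting', Nat.count_eq_card_filter_range]
  congr 1
  ext p
  simp only [mem_filter, mem_Icc, mem_range]
  constructor
  · rintro ⟨⟨h1, h2⟩, h3⟩
    exact ⟨by omega, h3⟩
  · rintro ⟨h1, h3⟩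
    exact ⟨⟨h3.one_le, by omega⟩, h3⟩

/-- Chebyshev's lower bound -/
theorem t1_cheb : ∃ y₁ : ℕ, ∀ y : ℕ, y₁ ≤ y →
    (1 / 2 : ℝ) * ((y : ℝ) / Real.log y) ≤ (Nat.primeCounting y : ℝ) := by
  have h1 : Filter.Tendsto (fun x : ℝ => Real.log x / x) Filter.atTop (nhds 0) := by
    simpa using (isLittleO_log_rpow_atTop (zero_lt_one)).tendsto_div_nhds_zero
  have h2 : ∀ᶠ x : ℝ in Filter.atTop, Real.log x / x < 1 / 20 :=
    h1.eventually_lt_const (by norm_num)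
  have h3 : ∀ᶠ x : ℝ in Filter.atTop, 2 ≤ x := Filter.eventually_ge_atTop 2
  have h4 := (tendsto_natCast_atTop_atTop (R := ℝ)).eventually (h2.and h3)
  obtain ⟨L, hL⟩ := Filter.eventually_atTop.mp h4
  refine ⟨L + 1, fun y hy => ?_⟩
  obtain ⟨h5, h6⟩ := hL (y + 1) (by omega)
  obtain ⟨-, h7⟩ := hL y (by omega)
  push_cast at h5 h6
  have hpos : (0 : ℝ) < (y : ℝ) + 1 := by linarith
  rw [div_lt_iff₀ hpos] at h5
  have hly : 0 < Real.log y := Real.log_pos (by linarith)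
  refine le_trans ?_ (Chebyshev.pi_ge y)
  rw [le_div_iff₀ hly]
  have h8 : (1 / 2 : ℝ) * ((y : ℝ) / Real.log y) * Real.log y = y / 2 := by
    field_simp
  rw [h8]
  have h9 := Real.log_two_gt_d9
  nlinarith

theorem t1 : T1 := by
  intro Q u hQ hu
  obtain ⟨C0, hC0, hbv⟩ := bv (2 / 5) (by norm_num) 3
  obtain ⟨y₁, hy₁⟩ := t1_cheb
  have htot : (0 : ℝ) < Nat.totient Q := by exact_mod_cast Nat.totient_pos.2 hQ
  have hlog : ∀ᶠ x : ℝ in Filter.atTop, 4 * (Nat.totient Q : ℝ) * C0 + 1 ≤ Real.log x :=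
    Real.tendsto_log_atTop.eventually_ge_atTop _
  obtain ⟨L, hL⟩ := Filter.eventually_atTop.mp
    ((tendsto_natCast_atTop_atTop (R := ℝ)).eventually hlog)
  refine ⟨1 / (4 * (Nat.totient Q : ℝ)), by positivity, y₁ + L + Q ^ 3 + 3, fun y hy => ?_⟩
  have hy3 : (3 : ℝ) ≤ y := by
    have : 3 ≤ y := by omega
    exact_mod_cast this
  have hy0 : (0 : ℝ) < y := by linarith
  have hly : 0 < Real.log y := Real.log_pos (by linarith)
  have hbig : (Q : ℝ) ≤ (y : ℝ) ^ (2 / 5 : ℝ) := by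
    have hQ3 : ((Q : ℝ)) ^ (3 : ℝ) ≤ y := by
      have : Q ^ 3 ≤ y := by omega
      have h : ((Q ^ 3 : ℕ) : ℝ) ≤ y := by exact_mod_cast this
      rw [Nat.cast_pow] at h
      have e : (Q : ℝ) ^ (3 : ℝ) = (Q : ℝ) ^ (3 : ℕ) := by
        rw [← Real.rpow_natCast]; norm_num
      rw [e]; exact h
    have hQ1 : (1 : ℝ) ≤ Q := by exact_mod_cast hQ
    calc (Q : ℝ) = (Q : ℝ) ^ (1 : ℝ) := (Real.rpow_one _).symm
      _ ≤ (Q : ℝ) ^ ((3 : ℝ) * (2 / 5)) :=
          Real.rpow_le_rpow_of_exponent_le hQ1 (by norm_num)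
      _ = ((Q : ℝ) ^ (3 : ℝ)) ^ (2 / 5 : ℝ) := Real.rpow_mul (by positivity) _ _
      _ ≤ (y : ℝ) ^ (2 / 5 : ℝ) := Real.rpow_le_rpow (by positivity) hQ3 (by norm_num)
  have h1 := hbv y (by omega) (fun d => if d = Q then u else 1) (by
    intro d _
    by_cases hd : d = Q
    · subst hd
      simpa using hu
    · simp [hd])
  have hmem : Q ∈ Icc 1 ⌊(y : ℝ) ^ (2 / 5 : ℝ)⌋₊ := by
    rw [mem_Icc]
    exact ⟨hQ, Nat.le_floor hbig⟩
  have h2 : |Er y Q u| ≤ C0 * ((y : ℝ) / Real.log y ^ 3) := by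
    refine le_trans ?_ h1
    have h3 := Finset.single_le_sum (f := fun d => |Er y d (if d = Q then u else 1)|)
      (fun d _ => abs_nonneg _) hmem
    simpa using h3
  have h4 : (piN y : ℝ) / (Nat.totient Q : ℝ) - C0 * ((y : ℝ) / Real.log y ^ 3) ≤
      (piAP y Q u : ℝ) := by
    have := (abs_le.mp h2).1
    unfold Er at this
    linarith
  have hlhs : (((Finset.Icc 1 y).filter (fun p : ℕ => p.Prime ∧ p % Q = u % Q)).card : ℝ) =
      (piAP y Q u : ℝ) := rfl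
  rw [hlhs]
  refine le_trans ?_ h4
  have h5 := hy₁ y (by omega)
  rw [← t1_piN] at h5
  have h6 := hL y (by omega)
  have hl1 : 1 ≤ Real.log y := by nlinarith
  have h7 : 4 * (Nat.totient Q : ℝ) * C0 ≤ Real.log y ^ 2 := by nlinarith
  -- the error
  have h8 : C0 * ((y : ℝ) / Real.log y ^ 3) ≤
      1 / (4 * (Nat.totient Q : ℝ)) * ((y : ℝ) / Real.log y) := by
    have e1 : 1 / (4 * (Nat.totient Q : ℝ)) * ((y : ℝ) / Real.log y) =
        (Real.log y ^ 2 / (4 * (Nat.totient Q : ℝ))) * ((y : ℝ) / Real.log y ^ 3) := by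
      field_simp
    rw [e1]
    refine mul_le_mul_of_nonneg_right ?_ (by positivity)
    rw [le_div_iff₀ (by positivity)]
    linarith
  have h9 : 2 * (1 / (4 * (Nat.totient Q : ℝ)) * ((y : ℝ) / Real.log y)) ≤
      (piN y : ℝ) / (Nat.totient Q : ℝ) := by
    have e2 : 2 * (1 / (4 * (Nat.totient Q : ℝ)) * ((y : ℝ) / Real.log y)) =
        (1 / 2 * ((y : ℝ) / Real.log y)) / (Nat.totient Q : ℝ) := by
      field_simp; ring
    rw [e2]
    exact div_le_div_of_nonneg_right h5 htot.le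
  linarith

end Pool.Agent.K9h9.AA
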