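import Pool.Agent.K9h9.AA.LeavesT3

/-!
# Proof of `T3`

The numbers `m ℓ ≤ N`, with `m` in a set containing a positive proportion of each dyadic range
and `ℓ` a large prime in a residue class, have positive lower density: `m` runs over the range
`(2 ^ a, 2 ^ b]` with `N < 2 ^ (8 A a)` and `2 ^ (4 A b) ≤ N`, and `ℓ` over the primes above `√N`
and at most `N / m` in the class; the pair is determined by the product, and the sum of `1 / m`
over the range is at least a constant times `log N / A`.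
-/

set_option autoImplicit false

namespace Pool.Agent.K9h9.AA

open Finset Filter

/-- logarithms are smaller than powers -/
lemma t3_ev (a b s : ℝ) (hs : 0 < s) : ∃ N₀ : ℕ, ∀ N : ℕ, N₀ ≤ N →
    a + b * Real.log N ≤ (N : ℝ) ^ s := by
  have h1 : (fun x : ℝ => a + b * Real.log x) =o[atTop] fun x : ℝ => x ^ s :=
    (Asymptotics.isLittleO_const_left.2
      (Or.inr (tendsto_norm_atTop_atTop.comp (tendsto_rpow_atTop hs)))).add
      ((isLittleO_log_rpow_atTop hs).const_mul_left b)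
  have h2 : ∀ᶠ x : ℝ in atTop, a + b * Real.log x ≤ x ^ s := by
    filter_upwards [h1.bound one_pos, eventually_ge_atTop (0 : ℝ)] with x hx h0
    rw [one_mul, Real.norm_eq_abs, Real.norm_eq_abs, abs_of_nonneg (Real.rpow_nonneg h0 s)] at hx
    exact (le_abs_self _).trans hx
  have h3 := tendsto_natCast_atTop_atTop.eventually h2
  exact eventually_atTop.1 h3

open Classical in
/-- the sum of the reciprocals of the elements of `G` in a range -/
lemma t3_harm (G : Set ℕ) (M₀ A : ℕ) (hA : M₀ ≤ 2 ^ A)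
    (hG : ∀ M : ℕ, M₀ ≤ M → M ≤ 2 * (G ∩ Set.Ioc M (2 * M)).ncard) (B : ℕ) (hAB : A ≤ B) :
    ((B : ℝ) - A) / 4 ≤ ∑ m ∈ (Ioc (2 ^ A) (2 ^ B)).filter (· ∈ G), ((m : ℝ))⁻¹ := by
  induction B, hAB using Nat.le_induction with
  | base => simp
  | succ B hAB ih =>
    have h2 : 2 ^ (B + 1) = 2 * 2 ^ B := by rw [pow_succ']
    have hAB' : 2 ^ A ≤ 2 ^ B := Nat.pow_le_pow_right (by norm_num) hAB
    have e1 : (Ioc (2 ^ A) (2 ^ (B + 1))).filter (· ∈ G) =
        (Ioc (2 ^ A) (2 ^ B)).filter (· ∈ G) ∪ (Ioc (2 ^ B) (2 * 2 ^ B)).filter (· ∈ G) := by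
      rw [h2, ← filter_union]
      congr 1
      ext i
      simp only [mem_union, mem_Ioc]
      omega
    have hdisj : Disjoint ((Ioc (2 ^ A) (2 ^ B)).filter (· ∈ G))
        ((Ioc (2 ^ B) (2 * 2 ^ B)).filter (· ∈ G)) := by
      rw [Finset.disjoint_left]
      intro i hi hi'
      simp only [mem_filter, mem_Ioc] at hi hi'
      omega
    rw [e1, sum_union hdisj]
    have h3 := hG (2 ^ B) (hA.trans hAB')
    have h4 : (G ∩ Set.Ioc (2 ^ B) (2 * 2 ^ B)).ncard =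
        ((Ioc (2 ^ B) (2 * 2 ^ B)).filter (· ∈ G)).card := by
      rw [← Set.ncard_coe_finset]
      congr 1
      ext i
      simp only [Set.mem_inter_iff, Set.mem_Ioc, coe_filter, mem_Ioc, Set.mem_ofPred_eq]
      tauto
    rw [h4] at h3
    have h5 : ∀ m ∈ (Ioc (2 ^ B) (2 * 2 ^ B)).filter (· ∈ G),
        ((2 : ℝ) * 2 ^ B)⁻¹ ≤ ((m : ℝ))⁻¹ := by
      intro m hm
      simp only [mem_filter, mem_Ioc] at hm
      have hm0 : (0 : ℝ) < m := by
        have : 0 < m := by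
          have := hm.1.1
          omega
        exact_mod_cast this
      apply inv_anti₀ hm0
      exact_mod_cast hm.1.2
    have h6 := card_nsmul_le_sum _ _ _ h5
    rw [nsmul_eq_mul] at h6
    have h7 : (2 : ℝ) ^ B ≤ 2 * (((Ioc (2 ^ B) (2 * 2 ^ B)).filter (· ∈ G)).card : ℝ) := by
      exact_mod_cast h3
    have h8 : (1 : ℝ) / 4 ≤ (((Ioc (2 ^ B) (2 * 2 ^ B)).filter (· ∈ G)).card : ℝ) *
        ((2 : ℝ) * 2 ^ B)⁻¹ := by
      have hpos : (0 : ℝ) < 2 ^ B := by positivity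
      rw [← div_eq_mul_inv, le_div_iff₀ (by positivity)]
      linarith
    push_cast
    linarith

theorem t3 : T3 := by
  classical
  intro A hA1 G M₀ hG Q u c y₀ hc hprimes
  have hAr : (1 : ℝ) ≤ A := by exact_mod_cast hA1
  have hAr0 : (0 : ℝ) < A := by linarith
  refine ⟨c / (1024 * A), by positivity, ?_⟩
  obtain ⟨N₂, hN₂⟩ := t3_ev 0 (4 / c) (1 / 4) (by norm_num)
  obtain ⟨R, hR⟩ : ∃ R : ℕ, R = 2 ^ (8 * A * (M₀ + y₀ + 128)) := ⟨_, rfl⟩
  refine ⟨N₂ + R, fun N hN => ?_⟩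
  have f2 := hN₂ N (le_trans (Nat.le_add_right _ _) hN)
  set k := Nat.log 2 N with hk
  have hNbig : R ≤ N := le_trans (Nat.le_add_left _ _) hN
  have hR0 : 0 < R := by rw [hR]; exact Nat.pow_pos (by norm_num)
  have hN0 : N ≠ 0 := by omega
  have hk1 : 8 * A * (M₀ + y₀ + 128) ≤ k := by
    apply Nat.le_log_of_pow_le (by norm_num)
    rw [← hR]
    exact hNbig
  clear hR hR0 hNbig hN
  have hk2 : 2 ^ k ≤ N := Nat.pow_log_le_self 2 hN0
  have hk3 : N < 2 ^ (k + 1) := Nat.lt_pow_succ_log_self (by norm_num) N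
  obtain ⟨d, hd⟩ : ∃ d : ℕ, d = k / (8 * A) := ⟨_, rfl⟩
  obtain ⟨b, hb⟩ : ∃ b : ℕ, b = k / (4 * A) := ⟨_, rfl⟩
  obtain ⟨a, ha⟩ : ∃ a : ℕ, a = d + 1 := ⟨_, rfl⟩
  have h8A : 0 < 8 * A := by omega
  have h4A : 0 < 4 * A := by omega
  have hd1 : M₀ + y₀ + 128 ≤ d := by
    rw [hd, Nat.le_div_iff_mul_le h8A, mul_comm]
    exact hk1
  have hd2 : 8 * A * d ≤ k := by rw [hd]; exact Nat.mul_div_le k (8 * A)
  have hka : k + 1 ≤ 8 * A * a := by
    rw [ha, hd]
    exact Nat.lt_mul_div_succ k h8A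
  have hkb : 4 * A * b ≤ k := by rw [hb]; exact Nat.mul_div_le k (4 * A)
  have hbd : 2 * d ≤ b := by
    rw [hb, Nat.le_div_iff_mul_le h4A]
    calc 2 * d * (4 * A) = 8 * A * d := by ring
      _ ≤ k := hd2
  have hab : a ≤ b := by omega
  have habig : M₀ + y₀ + 128 < a := by omega
  have hba : k ≤ 32 * A * (b - a) := by
    calc k ≤ 8 * A * a := by omega
      _ ≤ 8 * A * (4 * (b - a)) := Nat.mul_le_mul_left _ (by omega)
      _ = 32 * A * (b - a) := by ring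
  have hkone : 1 ≤ k := by
    have h1 : 8 * A * 1 ≤ 8 * A * d := Nat.mul_le_mul_left _ (by omega)
    omega
  clear hd hb hk1
  have hpowa : a < 2 ^ a := Nat.lt_two_pow_self
  have hNr1 : (1 : ℝ) < N := by
    have : 1 < N := by
      have h1 : 2 ^ 1 ≤ 2 ^ k := Nat.pow_le_pow_right (by norm_num) hkone
      omega
    exact_mod_cast this
  have hNr0 : (0 : ℝ) < N := by linarith
  have hlog : 0 < Real.log N := Real.log_pos hNr1
  set D := (Ioc (2 ^ a) (2 ^ b)).filter (· ∈ G) with hD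
  set Lm : ℕ → Finset ℕ := fun m => (Icc 1 (N / m)).filter
    (fun p : ℕ => (p.Prime ∧ p % Q = u % Q) ∧ N < p * p) with hL
  have hm1 : ∀ m ∈ D, 2 ^ a < m ∧ m ^ (4 * A) ≤ N ∧ N ≤ m ^ (8 * A) ∧ m ∈ G := by
    intro m hm
    rw [hD, mem_filter, mem_Ioc] at hm
    refine ⟨hm.1.1, ?_, ?_, hm.2⟩
    · calc m ^ (4 * A) ≤ (2 ^ b) ^ (4 * A) := Nat.pow_le_pow_left hm.1.2 _
        _ = 2 ^ (b * (4 * A)) := (pow_mul 2 b (4 * A)).symm
        _ ≤ 2 ^ k := Nat.pow_le_pow_right (by norm_num) (by rw [mul_comm]; exact hkb)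
        _ ≤ N := hk2
    · calc N ≤ 2 ^ (k + 1) := hk3.le
        _ ≤ 2 ^ (a * (8 * A)) := Nat.pow_le_pow_right (by norm_num) (by rw [mul_comm]; exact hka)
        _ = (2 ^ a) ^ (8 * A) := pow_mul 2 a (8 * A)
        _ ≤ m ^ (8 * A) := Nat.pow_le_pow_left hm.1.1.le _
  have hm4 : ∀ m ∈ D, m ^ 4 ≤ N := by
    intro m hm
    obtain ⟨h1, h2, _, _⟩ := hm1 m hm
    exact (Nat.pow_le_pow_right (by omega) (by omega)).trans h2
  -- the number of primes
  have hcard : ∀ m ∈ D, c / 4 * (N / Real.log N) * ((m : ℝ))⁻¹ ≤ ((Lm m).card : ℝ) := by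
    intro m hm
    obtain ⟨h1, _, _, _⟩ := hm1 m hm
    have h2 := hm4 m hm
    have hmpos : 0 < m := by omega
    have hmr : (0 : ℝ) < m := by exact_mod_cast hmpos
    set y := N / m with hy
    have hmy : m ≤ y := by
      rw [hy, Nat.le_div_iff_mul_le hmpos]
      calc m * m = m ^ 2 := (sq m).symm
        _ ≤ m ^ 4 := Nat.pow_le_pow_right hmpos (by norm_num)
        _ ≤ N := h2
    have hy0 : y₀ ≤ y := by omega
    have hy2 : 2 ≤ y := by omega
    have h3 := hprimes y hy0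
    have h4 : (((Icc 1 y).filter (fun p : ℕ => p.Prime ∧ p % Q = u % Q)).card : ℝ) ≤
        ((Lm m).card : ℝ) + (Nat.sqrt N : ℝ) := by
      have h5 : (Icc 1 y).filter (fun p : ℕ => p.Prime ∧ p % Q = u % Q) ⊆
          Lm m ∪ Icc 1 (Nat.sqrt N) := by
        intro p hp
        rw [mem_filter, mem_Icc] at hp
        rw [mem_union]
        by_cases h6 : N < p * p
        · left
          rw [hL, mem_filter, mem_Icc]
          exact ⟨hp.1, hp.2, h6⟩
        · right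
          rw [mem_Icc]
          exact ⟨hp.1.1, Nat.le_sqrt.2 (not_lt.1 h6)⟩
      have h7 := (card_le_card h5).trans (card_union_le _ _)
      rw [Nat.card_Icc, Nat.add_sub_cancel] at h7
      exact_mod_cast h7
    have hyr2 : (2 : ℝ) ≤ y := by exact_mod_cast hy2
    have hyN : (y : ℝ) ≤ N := by exact_mod_cast Nat.div_le_self N m
    have hlogy : 0 < Real.log y := Real.log_pos (by linarith)
    have hloglog : Real.log y ≤ Real.log N := Real.log_le_log (by linarith) hyN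
    have h8 : (N : ℝ) / m ≤ 2 * y := by
      rw [div_le_iff₀ hmr]
      have h9 : N < (y + 1) * m := by
        rw [hy]
        exact (Nat.div_lt_iff_lt_mul hmpos).1 (Nat.lt_succ_self _)
      have h10 : (N : ℝ) < ((y : ℝ) + 1) * m := by exact_mod_cast h9
      have h10' : ((y : ℝ) + 1) * m ≤ 2 * y * m :=
        mul_le_mul_of_nonneg_right (by linarith) hmr.le
      linarith
    have h11 : c / 2 * (N / Real.log N) * ((m : ℝ))⁻¹ ≤ c * ((y : ℝ) / Real.log y) := by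
      have e : c / 2 * (N / Real.log N) * ((m : ℝ))⁻¹ = c * (((N : ℝ) / m / 2) / Real.log N) := by
        field_simp
      rw [e]
      apply mul_le_mul_of_nonneg_left _ hc.le
      apply div_le_div₀ (by linarith) (by linarith) hlogy hloglog
    have h12 : (Nat.sqrt N : ℝ) ≤ c / 4 * (N / Real.log N) * ((m : ℝ))⁻¹ := by
      have h13 : (Nat.sqrt N : ℝ) ≤ (N : ℝ) ^ (1 / 2 : ℝ) := by
        rw [← Real.sqrt_eq_rpow]
        exact Real.nat_sqrt_le_real_sqrt
      have h14 : (m : ℝ) ≤ (N : ℝ) ^ (1 / 4 : ℝ) := by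
        have h15 : ((m : ℝ) ^ 4) ≤ N := by exact_mod_cast h2
        calc (m : ℝ) = ((m : ℝ) ^ (4 : ℕ)) ^ (1 / 4 : ℝ) := by
              rw [← Real.rpow_natCast, ← Real.rpow_mul hmr.le]; norm_num
          _ ≤ (N : ℝ) ^ (1 / 4 : ℝ) := Real.rpow_le_rpow (by positivity) h15 (by norm_num)
      refine h13.trans ?_
      have e : c / 4 * (N / Real.log N) * ((m : ℝ))⁻¹ = c * N / (4 * Real.log N * m) := by
        field_simp
      rw [e, le_div_iff₀ (by positivity)]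
      have h16 : 4 * Real.log N ≤ c * (N : ℝ) ^ (1 / 4 : ℝ) := by
        rw [zero_add, div_mul_eq_mul_div, div_le_iff₀ hc] at f2
        linarith
      calc (N : ℝ) ^ (1 / 2 : ℝ) * (4 * Real.log N * m)
          ≤ (N : ℝ) ^ (1 / 2 : ℝ) * ((c * (N : ℝ) ^ (1 / 4 : ℝ)) * (N : ℝ) ^ (1 / 4 : ℝ)) := by
            apply mul_le_mul_of_nonneg_left _ (by positivity)
            exact mul_le_mul h16 h14 hmr.le (by positivity)
        _ = c * ((N : ℝ) ^ (1 / 2 : ℝ) * (N : ℝ) ^ (1 / 4 : ℝ) * (N : ℝ) ^ (1 / 4 : ℝ)) := by ring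
        _ = c * N := by
            rw [← Real.rpow_add hNr0, ← Real.rpow_add hNr0]; norm_num
    have e3 : c / 2 * (N / Real.log N) * ((m : ℝ))⁻¹ = c / 4 * (N / Real.log N) * ((m : ℝ))⁻¹ +
      c / 4 * (N / Real.log N) * ((m : ℝ))⁻¹ := by ring
    linarith
  -- the numbers
  set X : Set ℕ := {x : ℕ | 1 ≤ x ∧ x ≤ N ∧ ∃ m ℓ : ℕ, m ∈ G ∧ ℓ.Prime ∧ ℓ % Q = u % Q ∧
      x = m * ℓ ∧ m ^ A ≤ ℓ ∧ N ≤ m ^ (8 * A)} with hX
  set P := D.sigma Lm with hP
  have hXfin : X.Finite := (Set.finite_Icc 1 N).subset fun x hx => ⟨hx.1, hx.2.1⟩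
  have hmaps : ∀ q ∈ P, q.1 * q.2 ∈ X := by
    rintro ⟨m, ℓ⟩ hq
    rw [hP, mem_sigma] at hq
    obtain ⟨hm, hℓ⟩ := hq
    simp only at hm hℓ ⊢
    obtain ⟨h1, h2, h3, h4⟩ := hm1 m hm
    rw [hL, mem_filter, mem_Icc] at hℓ
    obtain ⟨⟨hℓ1, hℓ2⟩, ⟨hℓp, hℓq⟩, hℓN⟩ := hℓ
    have hmpos : 0 < m := by omega
    refine ⟨Nat.mul_pos hmpos hℓp.pos, ?_, m, ℓ, h4, hℓp, hℓq, rfl, ?_, h3⟩
    · rw [Nat.le_div_iff_mul_le hmpos] at hℓ2
      rwa [mul_comm]
    · by_contra hlt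
      push Not at hlt
      have h5 : ℓ * ℓ ≤ m ^ A * m ^ A := Nat.mul_le_mul hlt.le hlt.le
      have h6 : m ^ A * m ^ A ≤ m ^ (4 * A) := by
        rw [← pow_add]
        exact Nat.pow_le_pow_right hmpos (by omega)
      omega
  have hinj : Set.InjOn (fun q : (_ : ℕ) × ℕ => q.1 * q.2) (P : Set ((_ : ℕ) × ℕ)) := by
    rintro ⟨m, ℓ⟩ hq ⟨m', ℓ'⟩ hq' heq
    rw [mem_coe, hP, mem_sigma] at hq hq'
    obtain ⟨hm, hℓ⟩ := hq
    obtain ⟨hm', hℓ'⟩ := hq'
    simp only at hm hℓ hm' hℓ' heq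
    obtain ⟨h1, _, _, _⟩ := hm1 m hm
    obtain ⟨h1', _, _, _⟩ := hm1 m' hm'
    have h2' := hm4 m' hm'
    rw [hL, mem_filter] at hℓ hℓ'
    obtain ⟨_, ⟨hp, _⟩, hN1⟩ := hℓ
    obtain ⟨_, ⟨hp', _⟩, hN1'⟩ := hℓ'
    have hll : ℓ = ℓ' := by
      by_contra hne
      have h3 : ℓ ∣ m' * ℓ' := ⟨m, by rw [← heq]; ring⟩
      have h4 : ℓ ∣ m' := by
        rcases (Nat.Prime.dvd_mul hp).1 h3 with h | h
        · exact h
        · exact absurd ((Nat.prime_dvd_prime_iff_eq hp hp').1 h) hne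
      have h5 : ℓ ≤ m' := Nat.le_of_dvd (by omega) h4
      have h6 : m' * m' ≤ m' ^ 4 := by
        rw [← sq]
        exact Nat.pow_le_pow_right (by omega) (by norm_num)
      have h7 : ℓ * ℓ ≤ m' * m' := Nat.mul_le_mul h5 h5
      omega
    subst hll
    have hmm : m = m' := Nat.eq_of_mul_eq_mul_right hp.pos heq
    subst hmm
    rfl
  have hPX : (P.card : ℝ) ≤ (X.ncard : ℝ) := by
    have h1 : P.card ≤ X.ncard := by
      rw [← card_image_of_injOn hinj, ← Set.ncard_coe_finset]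
      apply Set.ncard_le_ncard _ hXfin
      intro x hx
      rw [mem_coe, mem_image] at hx
      obtain ⟨q, hq, rfl⟩ := hx
      exact hmaps q hq
    exact_mod_cast h1
  refine le_trans ?_ hPX
  rw [hP, card_sigma]
  push_cast
  refine le_trans ?_ (sum_le_sum hcard)
  rw [← mul_sum]
  have hharm := t3_harm G M₀ a (by omega) hG b hab
  have hBA : (k : ℝ) / (32 * A) ≤ (b : ℝ) - a := by
    rw [div_le_iff₀ (by positivity)]
    have h2 : ((b - a : ℕ) : ℝ) = (b : ℝ) - a := by push_cast [hab]; ring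
    have h3 : (k : ℝ) ≤ 32 * A * ((b - a : ℕ) : ℝ) := by exact_mod_cast hba
    rw [h2] at h3
    linarith
  have hkN : Real.log N ≤ 2 * k := by
    have h1 : Real.log N ≤ ((k + 1 : ℕ) : ℝ) * Real.log 2 := by
      rw [← Real.log_pow]
      apply Real.log_le_log hNr0
      exact_mod_cast hk3.le
    have h2 : Real.log 2 ≤ 1 := by
      have := Real.log_two_lt_d9
      linarith
    have h3 : (1 : ℝ) ≤ k := by exact_mod_cast hkone
    push_cast at h1
    have h4 : ((k : ℝ) + 1) * Real.log 2 ≤ ((k : ℝ) + 1) * 1 :=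
      mul_le_mul_of_nonneg_left h2 (by positivity)
    linarith
  have hfin : Real.log N / (256 * A) ≤ ((b : ℝ) - a) / 4 := by
    have h1 : Real.log N / (256 * A) ≤ 2 * k / (256 * A) :=
      div_le_div_of_nonneg_right hkN (by positivity)
    have h2 : 2 * (k : ℝ) / (256 * A) = (k : ℝ) / (32 * A) / 4 := by
      field_simp
      norm_num
    rw [h2] at h1
    linarith
  calc c / (1024 * A) * N = c / 4 * (N / Real.log N) * (Real.log N / (256 * A)) := by
        field_simp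
        norm_num
    _ ≤ c / 4 * (N / Real.log N) * ∑ m ∈ D, ((m : ℝ))⁻¹ := by
        apply mul_le_mul_of_nonneg_left _ (by positivity)
        exact hfin.trans hharm

end Pool.Agent.K9h9.AA
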